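import Mathlib

/-!
Algebra of `P(T) Q'(T') - Q(T) P'(T')` in a polynomial ring over `ℚ`.
-/

set_option autoImplicit false
set_option linter.unusedSectionVars false

namespace Pool.Agent.Helper81.Sync

open MvPolynomial

section

variable {σ : Type}

theorem mem_vars_mul {p q : MvPolynomial σ ℚ} (hp : p ≠ 0) (hq : q ≠ 0) {i : σ} :
    i ∈ (p * q).vars ↔ i ∈ p.vars ∨ i ∈ q.vars := by
  rw [mem_vars_iff_degreeOf_ne_zero, mem_vars_iff_degreeOf_ne_zero,
    mem_vars_iff_degreeOf_ne_zero, degreeOf_mul_eq hp hq]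
  omega

theorem vars_of_dvd {p q : MvPolynomial σ ℚ} (h : p ∣ q) (hq : q ≠ 0) {i : σ}
    (hi : i ∈ p.vars) : i ∈ q.vars := by
  obtain ⟨c, rfl⟩ := h
  exact (mem_vars_mul (left_ne_zero_of_mul hq) (right_ne_zero_of_mul hq)).2 (Or.inl hi)

theorem vars_pderiv {i j : σ} {p : MvPolynomial σ ℚ} (h : j ∈ (pderiv i p).vars) :
    j ∈ p.vars := by
  classical
  rw [mem_vars_iff_mem_support] at h ⊢
  obtain ⟨d, hd, hj⟩ := h
  rw [mem_support_iff, coeff_pderiv] at hd
  refine ⟨d + Finsupp.single i 1, ?_, ?_⟩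
  · rw [mem_support_iff]
    exact left_ne_zero_of_mul hd
  · rw [Finsupp.mem_support_iff] at hj ⊢
    rw [Finsupp.add_apply]
    omega

theorem pderiv_ne_zero {i : σ} {p : MvPolynomial σ ℚ} (h : i ∈ p.vars) : pderiv i p ≠ 0 := by
  classical
  rw [mem_vars_iff_mem_support] at h
  obtain ⟨d, hd, hi⟩ := h
  rw [Finsupp.mem_support_iff] at hi
  rw [mem_support_iff] at hd
  intro h0
  have h1 := coeff_pderiv (i := i) p (d - Finsupp.single i 1)
  rw [h0, coeff_zero] at h1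
  have h2 : d - Finsupp.single i 1 + Finsupp.single i 1 = d := by
    refine tsub_add_cancel_of_le ?_
    rw [Finsupp.single_le_iff]
    omega
  rw [h2] at h1
  have h3 : (((d - Finsupp.single i 1 : σ →₀ ℕ) i : ℕ) : ℚ) + 1 ≠ 0 := by positivity
  exact (mul_ne_zero hd h3) h1.symm

theorem degreeOf_pderiv_lt {i : σ} {p : MvPolynomial σ ℚ} (h : i ∈ p.vars) :
    degreeOf i (pderiv i p) < degreeOf i p := by
  classical
  have hpos : 0 < degreeOf i p := Nat.pos_of_ne_zero (mem_vars_iff_degreeOf_ne_zero.1 h)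
  rw [degreeOf_lt_iff hpos]
  intro m hm
  rw [mem_support_iff, coeff_pderiv] at hm
  have h1 : m + Finsupp.single i 1 ∈ p.support := by
    rw [mem_support_iff]; exact left_ne_zero_of_mul hm
  have h2 := monomial_le_degreeOf i h1
  rw [Finsupp.add_apply, Finsupp.single_eq_same] at h2
  omega

theorem pderiv_eq_zero_of_dvd {i : σ} {p : MvPolynomial σ ℚ} (h : p ∣ pderiv i p) :
    pderiv i p = 0 := by
  by_contra h0
  have hi : i ∈ p.vars := by
    by_contra hi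
    exact h0 (pderiv_eq_zero_of_notMem_vars hi)
  obtain ⟨c, hc⟩ := h
  have hp : p ≠ 0 := by rintro rfl; simp at hi
  have hc0 : c ≠ 0 := by rintro rfl; simp at hc; exact h0 hc
  have h1 := degreeOf_pderiv_lt hi
  rw [hc, degreeOf_mul_eq hp hc0] at h1
  omega

/-- A divisor without the variable `j` divides the `j`-derivative. -/
theorem dvd_pderiv {j : σ} {f N : MvPolynomial σ ℚ} (h : f ∣ N) (hj : j ∉ f.vars) :
    f ∣ pderiv j N := by
  obtain ⟨c, rfl⟩ := h
  rw [pderiv_mul, pderiv_eq_zero_of_notMem_vars hj]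
  simp

theorem dvd_pderiv_of_sq {j : σ} {f N : MvPolynomial σ ℚ} (h : f * f ∣ N) :
    f ∣ pderiv j N := by
  obtain ⟨c, rfl⟩ := h
  rw [mul_assoc, pderiv_mul]
  exact dvd_add ⟨pderiv j f * c, by ring⟩ (Dvd.intro _ rfl)

/-- The Wronskian. -/
noncomputable def wr (i : σ) (P Q : MvPolynomial σ ℚ) : MvPolynomial σ ℚ :=
  pderiv i P * Q - P * pderiv i Q

theorem wr_ne_zero {i : σ} {P Q : MvPolynomial σ ℚ} (hPQ : IsRelPrime P Q)
    (hi : i ∈ P.vars ∨ i ∈ Q.vars) : wr i P Q ≠ 0 := by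
  intro h0
  have h1 : pderiv i P * Q = P * pderiv i Q := sub_eq_zero.1 h0
  have h2 : P ∣ pderiv i P := hPQ.dvd_of_dvd_mul_right (Dvd.intro _ h1.symm)
  have h3 := pderiv_eq_zero_of_dvd h2
  have h4 : Q ∣ pderiv i Q := hPQ.symm.dvd_of_dvd_mul_left (Dvd.intro_left _ h1)
  have h5 := pderiv_eq_zero_of_dvd h4
  rcases hi with hi | hi
  · exact pderiv_ne_zero hi h3
  · exact pderiv_ne_zero hi h5

theorem vars_wr {i j : σ} {P Q : MvPolynomial σ ℚ} (h : j ∈ (wr i P Q).vars) :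
    j ∈ P.vars ∨ j ∈ Q.vars := by
  classical
  unfold wr at h
  rw [sub_eq_add_neg] at h
  have h1 := vars_add_subset _ _ h
  rw [Finset.mem_union, vars_neg] at h1
  rcases h1 with h1 | h1
  · have h2 := vars_mul _ _ h1
    rw [Finset.mem_union] at h2
    rcases h2 with h2 | h2
    · exact Or.inl (vars_pderiv h2)
    · exact Or.inr h2
  · have h2 := vars_mul _ _ h1
    rw [Finset.mem_union] at h2
    rcases h2 with h2 | h2
    · exact Or.inl h2
    · exact Or.inr (vars_pderiv h2)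

theorem dvd_wr {i : σ} {P Q P' Q' f : MvPolynomial σ ℚ} (hf : Irreducible f)
    (hPQ' : IsRelPrime P' Q') (hP' : i ∉ P'.vars) (hQ' : i ∉ Q'.vars)
    (h1 : f ∣ P * Q' - Q * P') (h2 : f ∣ pderiv i (P * Q' - Q * P')) : f ∣ wr i P Q := by
  have hd : pderiv i (P * Q' - Q * P') = pderiv i P * Q' - pderiv i Q * P' := by
    rw [map_sub, pderiv_mul, pderiv_mul, pderiv_eq_zero_of_notMem_vars hP',
      pderiv_eq_zero_of_notMem_vars hQ']
    ring
  rw [hd] at h2
  have hfp : Prime f := hf.prime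
  have h3 : f ∣ Q' * wr i P Q := by
    have : Q' * wr i P Q = (pderiv i P * Q' - pderiv i Q * P') * Q -
        (P * Q' - Q * P') * pderiv i Q := by unfold wr; ring
    rw [this]
    exact dvd_sub (h2.mul_right _) (h1.mul_right _)
  have h4 : f ∣ P' * wr i P Q := by
    have : P' * wr i P Q = (pderiv i P * Q' - pderiv i Q * P') * P -
        (P * Q' - Q * P') * pderiv i P := by unfold wr; ring
    rw [this]
    exact dvd_sub (h2.mul_right _) (h1.mul_right _)
  rcases hfp.dvd_or_dvd h3 with h5 | h5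
  · rcases hfp.dvd_or_dvd h4 with h6 | h6
    · exact absurd (hPQ' h6 h5) hf.not_isUnit
    · exact h6
  · exact h5

/-! ### Low, high, and root variables -/

/-- `p` uses only root variables, that is, no variable in `Lo ∪ Hi`. -/
def RootOnly (Lo Hi : Set σ) (p : MvPolynomial σ ℚ) : Prop :=
  ∀ v ∈ p.vars, v ∉ Lo ∧ v ∉ Hi

theorem RootOnly.of_dvd {Lo Hi : Set σ} {p q : MvPolynomial σ ℚ} (hq : RootOnly Lo Hi q)
    (hq0 : q ≠ 0) (h : p ∣ q) : RootOnly Lo Hi p :=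
  fun v hv => hq v (vars_of_dvd h hq0 hv)

theorem RootOnly.mul {Lo Hi : Set σ} {p q : MvPolynomial σ ℚ} (hp : RootOnly Lo Hi p)
    (hq : RootOnly Lo Hi q) : RootOnly Lo Hi (p * q) := by
  classical
  intro v hv
  have := vars_mul _ _ hv
  rw [Finset.mem_union] at this
  rcases this with h | h
  · exact hp v h
  · exact hq v h

theorem RootOnly.one (Lo Hi : Set σ) : RootOnly Lo Hi (1 : MvPolynomial σ ℚ) := by
  intro v hv
  simp at hv

/-- The standing assumptions. -/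
structure Setup (Lo Hi : Set σ) (P Q P' Q' : MvPolynomial σ ℚ) : Prop where
  cop : IsRelPrime P Q
  cop' : IsRelPrime P' Q'
  hP : ∀ j ∈ Hi, j ∉ P.vars
  hQ : ∀ j ∈ Hi, j ∉ Q.vars
  hP' : ∀ i ∈ Lo, i ∉ P'.vars
  hQ' : ∀ i ∈ Lo, i ∉ Q'.vars

theorem Setup.swap {Lo Hi : Set σ} {P Q P' Q' : MvPolynomial σ ℚ} (h : Setup Lo Hi P Q P' Q') :
    Setup Hi Lo P' Q' P Q :=
  ⟨h.cop', h.cop, h.hP', h.hQ', h.hP, h.hQ⟩

theorem Setup.rootOnly_aux {Lo Hi : Set σ} {P Q P' Q' f : MvPolynomial σ ℚ}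
    (h : Setup Lo Hi P Q P' Q') (hf : Irreducible f) (hN : f ∣ P * Q' - Q * P')
    {i : σ} (hi : i ∈ Lo) (hiP : i ∈ P.vars ∨ i ∈ Q.vars)
    (hd : f ∣ pderiv i (P * Q' - Q * P'))
    {j : σ} (hj : j ∈ Hi) (hjP : j ∈ P'.vars ∨ j ∈ Q'.vars) : RootOnly Lo Hi f := by
  have h1 : f ∣ wr i P Q := dvd_wr hf h.cop' (h.hP' i hi) (h.hQ' i hi) hN hd
  have h2 : ∀ v ∈ f.vars, v ∉ Hi := by
    intro v hv hvH
    rcases vars_wr (vars_of_dvd h1 (wr_ne_zero h.cop hiP) hv) with h3 | h3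
    · exact h.hP v hvH h3
    · exact h.hQ v hvH h3
  have hN' : f ∣ P' * Q - Q' * P := by
    have : P' * Q - Q' * P = -(P * Q' - Q * P') := by ring
    rw [this]
    exact (dvd_neg).2 hN
  have h3 : f ∣ pderiv j (P' * Q - Q' * P) := dvd_pderiv hN' (fun hjf => h2 j hjf hj)
  have h4 : f ∣ wr j P' Q' := dvd_wr hf h.cop (h.hP j hj) (h.hQ j hj) hN' h3
  intro v hv
  refine ⟨fun hvL => ?_, h2 v hv⟩
  rcases vars_wr (vars_of_dvd h4 (wr_ne_zero h.cop' hjP) hv) with h5 | h5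
  · exact h.hP' v hvL h5
  · exact h.hQ' v hvL h5

theorem RootOnly.swap {Lo Hi : Set σ} {f : MvPolynomial σ ℚ} (h : RootOnly Lo Hi f) :
    RootOnly Hi Lo f := fun v hv => ⟨(h v hv).2, (h v hv).1⟩

/-- Every non-root irreducible factor involves every low variable of `P, Q`. -/
theorem Setup.low_mem {Lo Hi : Set σ} {P Q P' Q' f : MvPolynomial σ ℚ}
    (h : Setup Lo Hi P Q P' Q') (hf : Irreducible f) (hN : f ∣ P * Q' - Q * P')
    (hfr : ¬ RootOnly Lo Hi f)
    {i : σ} (hi : i ∈ Lo) (hiP : i ∈ P.vars ∨ i ∈ Q.vars)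
    {j : σ} (hj : j ∈ Hi) (hjP : j ∈ P'.vars ∨ j ∈ Q'.vars) : i ∈ f.vars := by
  by_contra hif
  exact hfr (h.rootOnly_aux hf hN hi hiP (dvd_pderiv hN hif) hj hjP)

theorem Setup.high_mem {Lo Hi : Set σ} {P Q P' Q' f : MvPolynomial σ ℚ}
    (h : Setup Lo Hi P Q P' Q') (hf : Irreducible f) (hN : f ∣ P * Q' - Q * P')
    (hfr : ¬ RootOnly Lo Hi f)
    {i : σ} (hi : i ∈ Lo) (hiP : i ∈ P.vars ∨ i ∈ Q.vars)
    {j : σ} (hj : j ∈ Hi) (hjP : j ∈ P'.vars ∨ j ∈ Q'.vars) : j ∈ f.vars := by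
  have hN' : f ∣ P' * Q - Q' * P := by
    have : P' * Q - Q' * P = -(P * Q' - Q * P') := by ring
    rw [this]
    exact (dvd_neg).2 hN
  exact h.swap.low_mem hf hN' (fun h' => hfr h'.swap) hj hjP hi hiP

theorem Setup.sq_not_dvd {Lo Hi : Set σ} {P Q P' Q' f : MvPolynomial σ ℚ}
    (h : Setup Lo Hi P Q P' Q') (hf : Irreducible f)
    (hfr : ¬ RootOnly Lo Hi f)
    {i : σ} (hi : i ∈ Lo) (hiP : i ∈ P.vars ∨ i ∈ Q.vars)
    {j : σ} (hj : j ∈ Hi) (hjP : j ∈ P'.vars ∨ j ∈ Q'.vars) :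
    ¬ f * f ∣ P * Q' - Q * P' := by
  intro hN
  exact hfr (h.rootOnly_aux hf ((Dvd.intro _ rfl).trans hN) hi hiP (dvd_pderiv_of_sq hN) hj hjP)

/-- If every irreducible factor of `A ≠ 0` is root-only then so is `A`. -/
theorem rootOnly_of_factors {Lo Hi : Set σ} {A : MvPolynomial σ ℚ} (hA : A ≠ 0)
    (h : ∀ f, Irreducible f → f ∣ A → RootOnly Lo Hi f) : RootOnly Lo Hi A := by
  induction A using WfDvdMonoid.induction_on_irreducible with
  | zero => exact absurd rfl hA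
  | unit u hu =>
    intro v hv
    have h1 : v ∈ (1 : MvPolynomial σ ℚ).vars := vars_of_dvd (hu.dvd) one_ne_zero hv
    simp at h1
  | mul a p ha hp ih =>
    refine RootOnly.mul (h p hp (Dvd.intro _ rfl)) (ih ha ?_)
    intro f hf hfa
    exact h f hf (hfa.mul_left _)

/-- `N` is non-zero and has a non-root irreducible factor. -/
theorem Setup.exists_factor {Lo Hi : Set σ} {P Q P' Q' : MvPolynomial σ ℚ}
    (h : Setup Lo Hi P Q P' Q')
    {i : σ} (hi : i ∈ Lo) (hiP : i ∈ P.vars ∨ i ∈ Q.vars)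
    {j : σ} (hj : j ∈ Hi) (hjP : j ∈ P'.vars ∨ j ∈ Q'.vars) :
    P * Q' - Q * P' ≠ 0 ∧ ∃ f, Irreducible f ∧ f ∣ P * Q' - Q * P' ∧ ¬ RootOnly Lo Hi f := by
  have hW := wr_ne_zero h.cop hiP
  have key : RootOnly Lo Hi (P * Q' - Q * P') → False := by
    intro hr
    have hiN : i ∉ (P * Q' - Q * P').vars := fun hc => (hr i hc).1 hi
    have hd0 := pderiv_eq_zero_of_notMem_vars hiN
    have hd : pderiv i (P * Q' - Q * P') = pderiv i P * Q' - pderiv i Q * P' := by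
      rw [map_sub, pderiv_mul, pderiv_mul, pderiv_eq_zero_of_notMem_vars (h.hP' i hi),
        pderiv_eq_zero_of_notMem_vars (h.hQ' i hi)]
      ring
    rw [hd] at hd0
    have e1 : Q' * wr i P Q = -((P * Q' - Q * P') * pderiv i Q) := by
      have : Q' * wr i P Q = (pderiv i P * Q' - pderiv i Q * P') * Q -
          (P * Q' - Q * P') * pderiv i Q := by unfold wr; ring
      rw [this, hd0]; ring
    have e2 : P' * wr i P Q = -((P * Q' - Q * P') * pderiv i P) := by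
      have : P' * wr i P Q = (pderiv i P * Q' - pderiv i Q * P') * P -
          (P * Q' - Q * P') * pderiv i P := by unfold wr; ring
      rw [this, hd0]; ring
    have aux : ∀ A B C : MvPolynomial σ ℚ, A * wr i P Q = -((P * Q' - Q * P') * pderiv i B) →
        (∀ j ∈ Hi, j ∉ B.vars) → j ∉ A.vars := by
      intro A B C hAB hB hjA
      classical
      have hA0 : A ≠ 0 := by rintro rfl; simp at hjA
      have h1 : j ∈ (A * wr i P Q).vars := (mem_vars_mul hA0 hW).2 (Or.inl hjA)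
      rw [hAB, vars_neg] at h1
      have h2 := vars_mul _ _ h1
      rw [Finset.mem_union] at h2
      rcases h2 with h2 | h2
      · exact (hr j h2).2 hj
      · exact hB j hj (vars_pderiv h2)
    rcases hjP with hjP | hjP
    · exact aux P' P 0 e2 h.hP hjP
    · exact aux Q' Q 0 e1 h.hQ hjP
  have hN0 : P * Q' - Q * P' ≠ 0 := by
    intro h0
    apply key
    rw [h0]
    intro v hv
    simp at hv
  refine ⟨hN0, ?_⟩
  by_contra hcon
  push Not at hcon
  exact key (rootOnly_of_factors hN0 hcon)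

/-- Divisibility up to a root-only factor. -/
theorem dvd_root_mul {Lo Hi : Set σ} {A B : MvPolynomial σ ℚ} (hA : A ≠ 0)
    (h : ∀ f, Irreducible f → ¬ RootOnly Lo Hi f → f ∣ A → f ∣ B ∧ ¬ f * f ∣ A) :
    ∃ α, α ≠ 0 ∧ RootOnly Lo Hi α ∧ A ∣ α * B := by
  induction A using WfDvdMonoid.induction_on_irreducible with
  | zero => exact absurd rfl hA
  | unit u hu => exact ⟨1, one_ne_zero, RootOnly.one _ _, hu.dvd⟩
  | mul a p ha hp ih =>
    obtain ⟨α, hα0, hα, hαd⟩ := ih ha (by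
      intro f hf hfr hfa
      refine ⟨(h f hf hfr (hfa.mul_left _)).1, fun hff => ?_⟩
      exact (h f hf hfr (hfa.mul_left _)).2 (hff.mul_left _))
    by_cases hpr : RootOnly Lo Hi p
    · refine ⟨p * α, mul_ne_zero hp.ne_zero hα0, hpr.mul hα, ?_⟩
      rw [mul_assoc]
      exact mul_dvd_mul_left _ hαd
    · refine ⟨α, hα0, hα, ?_⟩
      obtain ⟨h1, h2⟩ := h p hp hpr (Dvd.intro _ rfl)
      obtain ⟨c, hc⟩ := hαd
      have hpa : ¬ p ∣ a := fun hpa => h2 (mul_dvd_mul_left p hpa)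
      have hpc : p ∣ c := by
        have : p ∣ a * c := by rw [← hc]; exact h1.mul_left _
        rcases hp.prime.dvd_or_dvd this with h3 | h3
        · exact absurd h3 hpa
        · exact h3
      rw [hc, mul_comm p a]
      exact mul_dvd_mul_left _ hpc

theorem proportional {Lo Hi : Set σ} {A B : MvPolynomial σ ℚ} (hA : A ≠ 0) (hB : B ≠ 0)
    (h : ∀ f, Irreducible f → ¬ RootOnly Lo Hi f → (f ∣ A ↔ f ∣ B))
    (hsA : ∀ f, Irreducible f → ¬ RootOnly Lo Hi f → ¬ f * f ∣ A)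
    (hsB : ∀ f, Irreducible f → ¬ RootOnly Lo Hi f → ¬ f * f ∣ B) :
    ∃ α β, α ≠ 0 ∧ β ≠ 0 ∧ RootOnly Lo Hi α ∧ RootOnly Lo Hi β ∧ α * B = β * A := by
  obtain ⟨α, hα0, hα, c, hc⟩ := dvd_root_mul (Lo := Lo) (Hi := Hi) (A := A) (B := B) hA
    (fun f hf hfr hfA => ⟨(h f hf hfr).1 hfA, hsA f hf hfr⟩)
  obtain ⟨β, hβ0, hβ, d, hd⟩ := dvd_root_mul (Lo := Lo) (Hi := Hi) (A := B) (B := A) hB
    (fun f hf hfr hfB => ⟨(h f hf hfr).2 hfB, hsB f hf hfr⟩)
  have h1 : c * d = α * β := by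
    have h2 : A * (c * d) = A * (α * β) := by
      calc A * (c * d) = (A * c) * d := by ring
        _ = α * B * d := by rw [hc]
        _ = α * (B * d) := by ring
        _ = α * (β * A) := by rw [hd]
        _ = A * (α * β) := by ring
    exact mul_left_cancel₀ hA h2
  have hαβ : α * β ≠ 0 := mul_ne_zero hα0 hβ0
  have hcr : RootOnly Lo Hi c := (hα.mul hβ).of_dvd hαβ (Dvd.intro _ h1)
  have hc0 : c ≠ 0 := by
    rintro rfl
    rw [zero_mul] at h1
    exact hαβ h1.symm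
  exact ⟨α, c, hα0, hc0, hα, hcr, by rw [hc]; ring⟩

end

end Pool.Agent.Helper81.Sync
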