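import Pool.Agent.Helper81.Sync.Comb
import Pool.Agent.Helper81.Sync.Alg

/-!
Sign characters on unique factorization domains and the specific signs on `ℚ[t_a : a ∈ I]`.
-/

set_option autoImplicit false
set_option linter.unusedSectionVars false

namespace Pool.Agent.Helper81.Sync

open MvPolynomial

/-- A multiplicative sign on the non-zero elements. -/
structure IsSign {R : Type} [CommRing R] (χ : R → ℤˣ) : Prop where
  mul : ∀ a b, a ≠ 0 → b ≠ 0 → χ (a * b) = χ a * χ b
  unit : ∀ u, IsUnit u → χ u = 1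

theorem rel_map_eq {R : Type} {r : R → R → Prop} {ε : R → ℤˣ} (hε : ∀ a b, r a b → ε a = ε b)
    {s t : Multiset R} (h : Multiset.Rel r s t) : s.map ε = t.map ε := by
  induction h with
  | zero => rfl
  | cons hab _ ih => rw [Multiset.map_cons, Multiset.map_cons, hε _ _ hab, ih]

theorem exists_isSign {R : Type} [CommRing R] [IsDomain R] [UniqueFactorizationMonoid R]
    (ε : R → ℤˣ) (hε : ∀ a b, Associated a b → ε a = ε b) :
    ∃ χ : R → ℤˣ, IsSign χ ∧ ∀ f, Irreducible f → χ f = ε f := by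
  refine ⟨fun x => ((UniqueFactorizationMonoid.factors x).map ε).prod, ⟨?_, ?_⟩, ?_⟩
  · intro a b ha hb
    show ((UniqueFactorizationMonoid.factors (a * b)).map ε).prod = _
    rw [rel_map_eq hε (UniqueFactorizationMonoid.factors_mul ha hb), Multiset.map_add,
      Multiset.prod_add]
  · intro u hu
    show ((UniqueFactorizationMonoid.factors u).map ε).prod = 1
    rw [UniqueFactorizationMonoid.factors_of_isUnit hu]
    simp
  · intro f hf
    show ((UniqueFactorizationMonoid.factors f).map ε).prod = _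
    obtain ⟨b, hb1, hb2⟩ := UniqueFactorizationMonoid.factors_eq_singleton_of_irreducible hf
    rw [hb2, Multiset.map_singleton, Multiset.prod_singleton, hε _ _ hb1]

section

variable {R : Type} [CommRing R] [IsDomain R] [UniqueFactorizationMonoid R]

theorem IsSign.one {χ : R → ℤˣ} (h : IsSign χ) : χ 1 = 1 := h.unit 1 isUnit_one

theorem IsSign.neg {χ : R → ℤˣ} (h : IsSign χ) {a : R} (ha : a ≠ 0) : χ (-a) = χ a := by
  have : -a = (-1) * a := by ring
  rw [this, h.mul _ _ (by simp) ha, h.unit (-1) (by simp), one_mul]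

/-- Two signs that agree on the irreducible factors of `A` agree on `A`. -/
theorem IsSign.eq_of_factors {χ ψ : R → ℤˣ} (hχ : IsSign χ) (hψ : IsSign ψ) {A : R}
    (hA : A ≠ 0) (h : ∀ f, Irreducible f → f ∣ A → χ f = ψ f) : χ A = ψ A := by
  induction A using WfDvdMonoid.induction_on_irreducible with
  | zero => exact absurd rfl hA
  | unit u hu => rw [hχ.unit u hu, hψ.unit u hu]
  | mul a p ha hp ih =>
    rw [hχ.mul _ _ hp.ne_zero ha, hψ.mul _ _ hp.ne_zero ha, h p hp (Dvd.intro _ rfl),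
      ih ha (fun f hf hfa => h f hf (hfa.mul_left _))]

/-- Toggling the sign of one irreducible `f`. -/
theorem IsSign.toggle {χ ψ : R → ℤˣ} (hχ : IsSign χ) (hψ : IsSign ψ) {A f : R}
    (hA : A ≠ 0) (hf : Irreducible f) (hfA : f ∣ A) (hff : ¬ f * f ∣ A) (hχψ : χ f = - ψ f)
    (h : ∀ g, Irreducible g → ¬ Associated g f → g ∣ A → χ g = ψ g) : χ A = - ψ A := by
  obtain ⟨B, rfl⟩ := hfA
  have hB : B ≠ 0 := right_ne_zero_of_mul hA
  have hfB : ¬ f ∣ B := fun h' => hff (mul_dvd_mul_left f h')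
  have h1 : χ B = ψ B := by
    refine hχ.eq_of_factors hψ hB (fun g hg hgB => h g hg ?_ (hgB.mul_left _))
    intro hgf
    exact hfB (hgf.symm.dvd.trans hgB)
  rw [hχ.mul _ _ hf.ne_zero hB, hψ.mul _ _ hf.ne_zero hB, h1, hχψ, neg_mul]

end

/-! ### Renaming -/

section

variable {σ τ : Type}

theorem mem_vars_rename_iff {s : σ → τ} (hs : Function.Injective s) (p : MvPolynomial σ ℚ)
    (i : σ) : s i ∈ (rename s p).vars ↔ i ∈ p.vars := by
  rw [mem_vars_iff_degreeOf_ne_zero, mem_vars_iff_degreeOf_ne_zero,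
    degreeOf_rename_of_injective hs]

theorem isUnit_rename_iff {s : σ → τ} (hs : Function.Injective s) (p : MvPolynomial σ ℚ) :
    IsUnit (rename s p) ↔ IsUnit p := by
  constructor
  · intro h
    have := h.map (killCompl hs)
    rwa [killCompl_rename_app] at this
  · intro h
    exact h.map (rename s)

theorem exists_of_dvd_rename {s : σ → τ} (hs : Function.Injective s) {p : MvPolynomial σ ℚ}
    (hp : p ≠ 0) {q : MvPolynomial τ ℚ} (h : q ∣ rename s p) : ∃ q', rename s q' = q := by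
  apply exists_rename_eq_of_vars_subset_range _ _ hs
  intro v hv
  have hp' : rename s p ≠ 0 := by
    intro h0
    exact hp (rename_injective s hs (by rw [h0, map_zero]))
  have hv' := vars_of_dvd h hp' (Finset.mem_coe.1 hv)
  obtain ⟨i, _, rfl⟩ := mem_vars_rename _ _ hv'
  exact ⟨i, rfl⟩

theorem irreducible_rename {s : σ → τ} (hs : Function.Injective s) {p : MvPolynomial σ ℚ}
    (hp : Irreducible p) : Irreducible (rename s p) := by
  constructor
  · rw [isUnit_rename_iff hs]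
    exact hp.not_isUnit
  · intro a b hab
    obtain ⟨a', rfl⟩ := exists_of_dvd_rename hs hp.ne_zero (Dvd.intro _ hab.symm : a ∣ _)
    obtain ⟨b', rfl⟩ := exists_of_dvd_rename hs hp.ne_zero (Dvd.intro_left _ hab.symm : b ∣ _)
    rw [← map_mul] at hab
    have := rename_injective s hs hab
    rw [isUnit_rename_iff hs, isUnit_rename_iff hs]
    exact hp.isUnit_or_isUnit this

theorem associated_rename_iff {s : σ → τ} (hs : Function.Injective s) {p q : MvPolynomial σ ℚ} :
    Associated (rename s p) (rename s q) ↔ Associated p q := by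
  constructor
  · intro h
    have := h.map (killCompl hs)
    rwa [killCompl_rename_app, killCompl_rename_app] at this
  · intro h
    exact h.map (rename s)

theorem IsSign.comp_rename {s : σ → τ} (hs : Function.Injective s)
    {χ : MvPolynomial τ ℚ → ℤˣ} (hχ : IsSign χ) : IsSign (fun p => χ (rename s p)) := by
  have hne : ∀ p : MvPolynomial σ ℚ, p ≠ 0 → rename s p ≠ 0 := by
    intro p hp h0
    exact hp (rename_injective s hs (by rw [h0, map_zero]))
  constructor
  · intro a b ha hb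
    show χ (rename s (a * b)) = _
    rw [map_mul, hχ.mul _ _ (hne a ha) (hne b hb)]
  · intro u hu
    exact hχ.unit _ (hu.map (rename s))

theorem rename_congr {s t : σ → τ} {p : MvPolynomial σ ℚ} (h : ∀ i ∈ p.vars, s i = t i) :
    rename s p = rename t p := by
  have := hom_congr_vars (f₁ := (rename s : MvPolynomial σ ℚ →ₐ[ℚ] MvPolynomial τ ℚ).toRingHom)
    (f₂ := (rename t : MvPolynomial σ ℚ →ₐ[ℚ] MvPolynomial τ ℚ).toRingHom) (p₁ := p) (p₂ := p)
    (by ext x; simp) (fun i hi _ => by simp [h i hi]) rfl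
  exact this

theorem vars_eq_of_associated {a b : MvPolynomial σ ℚ} (h : Associated a b) :
    a.vars = b.vars := by
  by_cases ha : a = 0
  · subst ha
    rw [h.symm.eq_zero_iff.2 rfl]
  · have hb : b ≠ 0 := fun hb => ha (h.eq_zero_iff.2 hb)
    ext v
    exact ⟨fun hv => vars_of_dvd h.dvd hb hv, fun hv => vars_of_dvd h.symm.dvd ha hv⟩

end

/-! ### The signs -/

section

variable {I : Type} [LinearOrder I] [WellFoundedLT I] [Uncountable I]

/-- Labels with a low/high bit. -/
abbrev Lb : Type := List Bool × Bool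

/-- Colours. -/
abbrev Code : Type := ℕ × Finset (MvPolynomial Lb ℚ)

theorem countable_mvPolynomial (σ : Type) [Countable σ] : Countable (MvPolynomial σ ℚ) :=
  (AddMonoidAlgebra.coeff_injective (R := ℚ) (M := σ →₀ ℕ)).countable

instance : Countable (MvPolynomial Lb ℚ) := countable_mvPolynomial Lb

instance : Countable Code := inferInstance

/-- The map sending a variable to its label with a low/high bit. -/
def codeMap (r : I → ℕ → Bool) (m : ℕ) (δ : I) : I → Lb :=
  fun γ => (lab r m γ, decide (δ ≤ γ))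

open Classical in
/-- The sign of an irreducible polynomial. -/
noncomputable def eps (r : I → ℕ → Bool) (D : Finset I → I) (col : I → Code)
    (f : MvPolynomial I ℚ) : ℤˣ :=
  if f.vars.card ≤ 1 then (if ∃ ξ : I, Associated f (X ξ + 1) then -1 else 1)
  else if ∃ d ∈ (col (D f.vars)).2,
    Associated (rename (codeMap r (col (D f.vars)).1 (D f.vars)) f) d then -1 else 1

theorem eps_associated (r : I → ℕ → Bool) (D : Finset I → I) (col : I → Code)
    (a b : MvPolynomial I ℚ) (h : Associated a b) : eps r D col a = eps r D col b := by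
  classical
  have hv := vars_eq_of_associated h
  unfold eps
  rw [hv]
  have h1 : (∃ ξ : I, Associated a (X ξ + 1)) ↔ (∃ ξ : I, Associated b (X ξ + 1)) :=
    ⟨fun ⟨ξ, hξ⟩ => ⟨ξ, h.symm.trans hξ⟩, fun ⟨ξ, hξ⟩ => ⟨ξ, h.trans hξ⟩⟩
  have h2 : (∃ d ∈ (col (D b.vars)).2,
      Associated (rename (codeMap r (col (D b.vars)).1 (D b.vars)) a) d) ↔
      (∃ d ∈ (col (D b.vars)).2,
      Associated (rename (codeMap r (col (D b.vars)).1 (D b.vars)) b) d) :=
    ⟨fun ⟨d, hd, hda⟩ => ⟨d, hd, (h.symm.map _).trans hda⟩,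
      fun ⟨d, hd, hda⟩ => ⟨d, hd, (h.map _).trans hda⟩⟩
  simp only [h1, h2]

/-- A uniform family of finite sets of indices. -/
structure Fam (r : I → ℕ → Bool) (S : Set I) (n : ℕ) (ι : I → Fin n → I) (J : Set (Fin n))
    (m : ℕ) (l : Fin n → List Bool) : Prop where
  unc : ¬ S.Countable
  inj : Function.Injective l
  lab_eq : ∀ ξ ∈ S, ∀ i, lab r m (ι ξ i) = l i
  root : ∀ ξ ∈ S, ∀ η ∈ S, ∀ i ∈ J, ι ξ i = ι η i
  free : ∀ i ∉ J, ∀ v, {ξ ∈ S | ι ξ i = v}.Countable

/-- Abstract variables for a pair of members of the family. -/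
def VV (n : ℕ) (J : Set (Fin n)) : Type := {p : Fin n × Bool // p.2 = true → p.1 ∉ J}

variable {n : ℕ} {J : Set (Fin n)}

/-- Low variable. -/
def lo (J : Set (Fin n)) (i : Fin n) : VV n J := ⟨(i, false), fun h => by simp at h⟩

/-- High variable. -/
def hi (i : Fin n) (h : i ∉ J) : VV n J := ⟨(i, true), fun _ => h⟩

open Classical in
/-- Embedding of the indices as the second member of a pair. -/
noncomputable def nh (J : Set (Fin n)) (i : Fin n) : VV n J :=
  if h : i ∈ J then lo J i else hi i h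

/-- The free low variables. -/
def LoS (n : ℕ) (J : Set (Fin n)) : Set (VV n J) := {p | p.1.2 = false ∧ p.1.1 ∉ J}

/-- The high variables. -/
def HiS (n : ℕ) (J : Set (Fin n)) : Set (VV n J) := {p | p.1.2 = true}

/-- Realisation of the abstract variables. -/
def sg (ι : I → Fin n → I) (J : Set (Fin n)) (ξ η : I) : VV n J → I :=
  fun p => if p.1.2 = true then ι η p.1.1 else ι ξ p.1.1

theorem sg_lo (ι : I → Fin n → I) (ξ η : I) (i : Fin n) : sg ι J ξ η (lo J i) = ι ξ i := by
  simp [sg, lo]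

theorem sg_hi (ι : I → Fin n → I) (ξ η : I) (i : Fin n) (h : i ∉ J) :
    sg ι J ξ η (hi i h) = ι η i := by
  simp [sg, hi]

theorem sg_nh {r : I → ℕ → Bool} {S : Set I} {ι : I → Fin n → I} {m : ℕ}
    {l : Fin n → List Bool} (hF : Fam r S n ι J m l) {ξ η : I} (hξ : ξ ∈ S) (hη : η ∈ S)
    (i : Fin n) : sg ι J ξ η (nh J i) = ι η i := by
  unfold nh
  split_ifs with h
  · rw [sg_lo]; exact hF.root ξ hξ η hη i h
  · rw [sg_hi]

/-- The pair `(ξ, η)` is ordered. -/
def Ord (ι : I → Fin n → I) (J : Set (Fin n)) (ξ η : I) : Prop :=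
  ∀ i j, j ∉ J → ι ξ i < ι η j

theorem sg_injective {r : I → ℕ → Bool} {S : Set I} {ι : I → Fin n → I} {m : ℕ}
    {l : Fin n → List Bool} (hF : Fam r S n ι J m l) {ξ η : I} (hξ : ξ ∈ S) (hη : η ∈ S)
    (ho : Ord ι J ξ η) : Function.Injective (sg ι J ξ η) := by
  have hinj : ∀ ζ ∈ S, Function.Injective (ι ζ) := by
    intro ζ hζ i j hij
    apply hF.inj
    rw [← hF.lab_eq ζ hζ, ← hF.lab_eq ζ hζ, hij]
  rintro ⟨⟨i, a⟩, ha⟩ ⟨⟨j, b⟩, hb⟩ h
  cases a <;> cases b <;> simp only [sg] at h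
  · simp at h
    have := hinj ξ hξ h
    subst this; rfl
  · simp at h
    exact absurd h (ho i j (hb rfl)).ne
  · simp at h
    exact absurd h (ho j i (ha rfl)).ne'
  · simp at h
    have := hinj η hη h
    subst this; rfl

/-- The label map on abstract variables. -/
def kap (l : Fin n → List Bool) (J : Set (Fin n)) : VV n J → Lb := fun p => (l p.1.1, p.1.2)

theorem kap_injective {l : Fin n → List Bool} (hl : Function.Injective l) :
    Function.Injective (kap l J) := by
  rintro ⟨⟨i, a⟩, ha⟩ ⟨⟨j, b⟩, hb⟩ h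
  simp only [kap, Prod.mk.injEq] at h
  obtain ⟨h1, h2⟩ := h
  have := hl h1
  subst this; subst h2; rfl

/-- `f` contains a diagonal pair of variables. -/
def Diag (f : MvPolynomial (VV n J) ℚ) : Prop :=
  ∃ (i : Fin n) (h : i ∉ J), lo J i ∈ f.vars ∧ hi i h ∈ f.vars

/-- The good pairs for the finite set `DV` of polynomials. -/
def Pr (χ : MvPolynomial I ℚ → ℤˣ) (S : Set I) (ι : I → Fin n → I)
    (DV : Finset (MvPolynomial (VV n J) ℚ)) (ξ η : I) : Prop :=
  ξ ∈ S ∧ η ∈ S ∧ Ord ι J ξ η ∧ ∀ f : MvPolynomial (VV n J) ℚ, Irreducible f → Diag f →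
    (((∃ d ∈ DV, Associated f d) → χ (rename (sg ι J ξ η) f) = -1) ∧
      (¬ (∃ d ∈ DV, Associated f d) → χ (rename (sg ι J ξ η) f) = 1))

/-- The strong colouring property of `D`, `col`. -/
def Strong (r : I → ℕ → Bool) (D : Finset I → I) (col : I → Code) : Prop :=
  ∀ (S : Set I), ¬ S.Countable → ∀ (n : ℕ)
      (ι : I → Fin n → I) (J : Set (Fin n)) (m : ℕ),
      (∀ ξ ∈ S, Function.Injective (fun i => lab r m (ι ξ i))) →
      (∀ ξ ∈ S, ∀ η ∈ S, ∀ i, lab r m (ι ξ i) = lab r m (ι η i)) →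
      (∀ ξ ∈ S, ∀ η ∈ S, ∀ i ∈ J, ι ξ i = ι η i) →
      (∀ i ∉ J, ∀ v, {ξ ∈ S | ι ξ i = v}.Countable) →
      ∀ c : Code, ∃ ξ ∈ S, ∃ η ∈ S, ∃ δ, col δ = c ∧ (∀ i, ι ξ i < δ) ∧ (∀ i ∉ J, δ ≤ ι η i) ∧
        ∀ z : Finset I, (∀ α ∈ z, (∃ i, α = ι ξ i) ∨ (∃ i, α = ι η i)) →
          (∃ i, i ∉ J ∧ ι ξ i ∈ z ∧ ι η i ∈ z) → D z = δ

theorem exists_pr {r : I → ℕ → Bool} {D : Finset I → I} {col : I → Code}
    (hS : Strong r D col) {χ : MvPolynomial I ℚ → ℤˣ}
    (hε : ∀ f, Irreducible f → χ f = eps r D col f)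
    {S : Set I} {ι : I → Fin n → I} {m : ℕ} {l : Fin n → List Bool}
    (hF : Fam r S n ι J m l) (DV : Finset (MvPolynomial (VV n J) ℚ)) :
    ∃ ξ η, Pr χ S ι DV ξ η := by
  classical
  obtain ⟨ξ, hξ, η, hη, δ, hδ, h1, h2, h3⟩ := hS S hF.unc n ι J m
    (by
      intro ξ hξ i j hij
      apply hF.inj
      rw [← hF.lab_eq ξ hξ i, ← hF.lab_eq ξ hξ j]
      exact hij)
    (by
      intro ξ hξ η hη i
      rw [hF.lab_eq ξ hξ i, hF.lab_eq η hη i])
    hF.root hF.free (m, DV.image (rename (kap l J)))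
  have ho : Ord ι J ξ η := fun i j hj => lt_of_lt_of_le (h1 i) (h2 j hj)
  have hsg := sg_injective hF hξ hη ho
  refine ⟨ξ, η, hξ, hη, ho, ?_⟩
  intro f hf hd
  have hcode : ∀ p : VV n J, codeMap r m δ (sg ι J ξ η p) = kap l J p := by
    rintro ⟨⟨i, a⟩, ha⟩
    cases a
    · simp only [sg, codeMap, kap]
      simp only [Bool.false_eq_true, if_false]
      rw [hF.lab_eq ξ hξ i]
      simp [h1 i]
    · simp only [sg, codeMap, kap, if_true]
      rw [hF.lab_eq η hη i]
      simp [h2 i (ha rfl)]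
  obtain ⟨i0, hi0, hl0, hh0⟩ := hd
  set z := (rename (sg ι J ξ η) f).vars with hz
  have hz1 : ι ξ i0 ∈ z := by
    rw [hz, ← sg_lo (J := J) ι ξ η i0, mem_vars_rename_iff hsg]
    exact hl0
  have hz2 : ι η i0 ∈ z := by
    rw [hz, ← sg_hi (J := J) ι ξ η i0 hi0, mem_vars_rename_iff hsg]
    exact hh0
  have hDz : D z = δ := by
    apply h3
    · intro α hα
      obtain ⟨⟨⟨i, a⟩, ha⟩, _, rfl⟩ := mem_vars_rename _ _ hα
      cases a
      · exact Or.inl ⟨i, by simp [sg]⟩
      · exact Or.inr ⟨i, by simp [sg]⟩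
    · exact ⟨i0, hi0, hz1, hz2⟩
  have hcard : ¬ z.card ≤ 1 := by
    intro hc
    rw [Finset.card_le_one] at hc
    exact absurd (hc _ hz1 _ hz2) (ho i0 i0 hi0).ne
  have hχ : χ (rename (sg ι J ξ η) f) =
      if ∃ d ∈ DV.image (rename (kap l J)), Associated (rename (kap l J) f) d then -1 else 1 := by
    rw [hε _ (irreducible_rename hsg hf)]
    unfold eps
    rw [← hz, if_neg hcard, hDz, hδ]
    have hren : rename (codeMap r m δ) (rename (sg ι J ξ η) f) = rename (kap l J) f := by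
      rw [rename_rename]
      exact rename_congr (fun p _ => hcode p)
    simp only [hren]
  have hiff : (∃ d ∈ DV.image (rename (kap l J)), Associated (rename (kap l J) f) d) ↔
      ∃ d ∈ DV, Associated f d := by
    constructor
    · rintro ⟨d, hd, hda⟩
      obtain ⟨d', hd', rfl⟩ := Finset.mem_image.1 hd
      exact ⟨d', hd', (associated_rename_iff (kap_injective hF.inj)).1 hda⟩
    · rintro ⟨d, hd, hda⟩
      exact ⟨_, Finset.mem_image_of_mem _ hd, hda.map _⟩
  constructor
  · intro h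
    rw [hχ, if_pos (hiff.2 h)]
  · intro h
    rw [hχ, if_neg (fun h' => h (hiff.1 h'))]

/-- For root-only `f` the value does not depend on the pair. -/
theorem rename_root {r : I → ℕ → Bool} {S : Set I} {ι : I → Fin n → I} {m : ℕ}
    {l : Fin n → List Bool} (hF : Fam r S n ι J m l) {ξ η ξ' η' : I} (hξ : ξ ∈ S)
    (hξ' : ξ' ∈ S) {f : MvPolynomial (VV n J) ℚ}
    (hf : RootOnly (LoS n J) (HiS n J) f) :
    rename (sg ι J ξ η) f = rename (sg ι J ξ' η') f := by
  apply rename_congr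
  rintro ⟨⟨i, a⟩, ha⟩ hv
  obtain ⟨h1, h2⟩ := hf _ hv
  have ha' : a = false := by
    by_contra hc
    have hc' : a = true := by simpa using hc
    exact h2 hc'
  subst ha'
  have hi : i ∈ J := by
    by_contra hc
    exact h1 ⟨rfl, hc⟩
  simp only [sg, Bool.false_eq_true, if_false]
  exact hF.root ξ hξ ξ' hξ' i hi

/-- Good polynomials: non-root irreducible factors are diagonal and simple. -/
structure Good (n : ℕ) (J : Set (Fin n)) (A : MvPolynomial (VV n J) ℚ) : Prop where
  ne : A ≠ 0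
  diag : ∀ f, Irreducible f → f ∣ A → ¬ RootOnly (LoS n J) (HiS n J) f → Diag f
  sq : ∀ f, Irreducible f → ¬ RootOnly (LoS n J) (HiS n J) f → ¬ f * f ∣ A
  ex : ∃ f, Irreducible f ∧ f ∣ A ∧ ¬ RootOnly (LoS n J) (HiS n J) f

theorem Diag.not_rootOnly {f : MvPolynomial (VV n J) ℚ} (h : Diag f) :
    ¬ RootOnly (LoS n J) (HiS n J) f := by
  obtain ⟨i, hi0, h1, h2⟩ := h
  intro hr
  exact (hr _ h2).2 rfl

/-- Comparison of the signs for `DV` and `insert f DV`. -/
theorem toggle_pair {r : I → ℕ → Bool} {χ : MvPolynomial I ℚ → ℤˣ} (hχ : IsSign χ)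
    {S : Set I} {ι : I → Fin n → I} {m : ℕ} {l : Fin n → List Bool}
    (hF : Fam r S n ι J m l) {DV DV' : Finset (MvPolynomial (VV n J) ℚ)}
    {ξ η ξ' η' : I} (hp : Pr χ S ι DV ξ η) (hp' : Pr χ S ι DV' ξ' η')
    {A f : MvPolynomial (VV n J) ℚ} (hA : Good n J A) (hf : Irreducible f) (hfd : Diag f)
    (hDV' : ∀ g, (∃ d ∈ DV', Associated g d) ↔ (Associated g f ∨ ∃ d ∈ DV, Associated g d))
    (hfDV : ¬ ∃ d ∈ DV, Associated f d) :
    (f ∣ A → χ (rename (sg ι J ξ' η') A) = - χ (rename (sg ι J ξ η) A)) ∧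
    (¬ f ∣ A → χ (rename (sg ι J ξ' η') A) = χ (rename (sg ι J ξ η) A)) := by
  obtain ⟨hξ, hη, ho, hs⟩ := hp
  obtain ⟨hξ', hη', ho', hs'⟩ := hp'
  have s1 := hχ.comp_rename (sg_injective hF hξ hη ho)
  have s2 := hχ.comp_rename (sg_injective hF hξ' hη' ho')
  have hoth : ∀ g, Irreducible g → ¬ Associated g f → g ∣ A →
      χ (rename (sg ι J ξ' η') g) = χ (rename (sg ι J ξ η) g) := by
    intro g hg hgf hgA
    by_cases hgr : RootOnly (LoS n J) (HiS n J) g
    · rw [rename_root hF hξ' hξ hgr]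
    · have hgd := hA.diag g hg hgA hgr
      by_cases hgD : ∃ d ∈ DV, Associated g d
      · rw [(hs g hg hgd).1 hgD, (hs' g hg hgd).1 ((hDV' g).2 (Or.inr hgD))]
      · rw [(hs g hg hgd).2 hgD, (hs' g hg hgd).2]
        intro hc
        rcases (hDV' g).1 hc with hc | hc
        · exact hgf hc
        · exact hgD hc
  constructor
  · intro hfA
    refine s2.toggle s1 hA.ne hf hfA (hA.sq f hf hfd.not_rootOnly) ?_ hoth
    show χ (rename (sg ι J ξ' η') f) = - χ (rename (sg ι J ξ η) f)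
    rw [(hs f hf hfd).2 hfDV, (hs' f hf hfd).1 ((hDV' f).2 (Or.inl (Associated.refl _)))]
  · intro hfA
    refine s2.eq_of_factors s1 hA.ne ?_
    intro g hg hgA
    refine hoth g hg (fun hgf => hfA (hgf.symm.dvd.trans hgA)) hgA

end

end Pool.Agent.Helper81.Sync
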