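import Mathlib

/-!
Combinatorics on an order of type omega_1: stationary sets, a colouring all of whose classes are
stationary, and the strong colouring used to build the character.
-/

set_option autoImplicit false
set_option linter.unusedSectionVars false

namespace Pool.Agent.Helper81.Sync

open Set

/-- Existence of the index order. -/
theorem exists_index : ∃ (I : Type) (_ : LinearOrder I) (_ : WellFoundedLT I),
    Uncountable I ∧ (∀ a : I, (Set.Iio a).Countable) ∧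
      ∃ r : I → ℕ → Bool, Function.Injective r := by
  classical
  refine ⟨(Cardinal.aleph 1).ord.ToType, inferInstance, inferInstance, ?_, ?_, ?_⟩
  · rw [← Cardinal.aleph0_lt_mk_iff, Cardinal.mk_toType, Cardinal.card_ord]
    exact Cardinal.aleph0_lt_aleph_one
  · intro a
    rw [Cardinal.countable_iff_lt_aleph_one]
    exact Cardinal.mk_Iio_toType_ord_lt a
  · have h : Cardinal.mk ((Cardinal.aleph 1).ord.ToType) ≤ Cardinal.mk (ℕ → Bool) := by
      rw [Cardinal.mk_toType, Cardinal.card_ord]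
      simpa using Cardinal.aleph_one_le_continuum
    obtain ⟨f⟩ := (Cardinal.le_def _ _).1 h
    exact ⟨f, f.injective⟩

section

variable {I : Type} [LinearOrder I] [WellFoundedLT I] [Uncountable I]

theorem exists_bound (hI : ∀ a : I, (Set.Iio a).Countable) {X : Set I} (hX : X.Countable) :
    ∃ b, ∀ x ∈ X, x < b := by
  by_contra hcon
  push Not at hcon
  have h1 : (⋃ x ∈ X, Set.Iic x) = (Set.univ : Set I) := by
    ext b
    simp only [Set.mem_iUnion, Set.mem_Iic, Set.mem_univ, iff_true]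
    obtain ⟨x, hx, hbx⟩ := hcon b
    exact ⟨x, hx, hbx⟩
  have h2 : (⋃ x ∈ X, Set.Iic x).Countable := by
    refine hX.biUnion (fun x _ => ?_)
    have : Set.Iic x = insert x (Set.Iio x) := by
      ext y; simp [le_iff_eq_or_lt]
    rw [this]
    exact (hI x).insert x
  rw [h1] at h2
  exact Set.not_countable_univ h2

/-- `A` is stationary: it meets every set of closure points. -/
def Stat (A : Set I) : Prop := ∀ (g : I → I) (a : I), ∃ δ ∈ A, a < δ ∧ ∀ ζ < δ, g ζ < δ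

theorem Stat.mono {A B : Set I} (h : Stat A) (hAB : A ⊆ B) : Stat B := by
  intro g a
  obtain ⟨δ, hδ, h1, h2⟩ := h g a
  exact ⟨δ, hAB hδ, h1, h2⟩

theorem stat_Ioi (hI : ∀ a : I, (Set.Iio a).Countable) (a0 : I) : Stat (Set.Ioi a0) := by
  intro g a
  -- build an increasing sequence
  have step : ∀ b : I, ∃ c, b < c ∧ ∀ ζ ≤ b, g ζ < c := by
    intro b
    have hc : (insert b (g '' Set.Iic b)).Countable := by
      refine Set.Countable.insert _ (Set.Countable.image ?_ _)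
      have : Set.Iic b = insert b (Set.Iio b) := by
        ext y; simp [le_iff_eq_or_lt]
      rw [this]
      exact (hI b).insert b
    obtain ⟨c, hc⟩ := exists_bound hI hc
    exact ⟨c, hc b (Set.mem_insert _ _), fun ζ hζ =>
      hc _ (Set.mem_insert_of_mem _ ⟨ζ, hζ, rfl⟩)⟩
  choose nx hnx1 hnx2 using step
  let b : ℕ → I := fun k => Nat.rec (nx (max a0 a)) (fun _ p => nx p) k
  have hb0 : b 0 = nx (max a0 a) := rfl
  have hbs : ∀ k, b (k + 1) = nx (b k) := fun k => rfl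
  obtain ⟨u, hu⟩ := exists_bound hI (Set.countable_range b)
  have hne : {δ : I | ∀ k, b k ≤ δ}.Nonempty := ⟨u, fun k => (hu _ ⟨k, rfl⟩).le⟩
  let δ := wellFounded_lt.min {δ : I | ∀ k, b k ≤ δ} hne
  have hδ : ∀ k, b k ≤ δ := wellFounded_lt.min_mem _ hne
  have hmin : ∀ ζ < δ, ∃ k, ζ < b k := by
    intro ζ hζ
    by_contra hcon
    push Not at hcon
    exact wellFounded_lt.not_lt_min {δ : I | ∀ k, b k ≤ δ} hcon hζ
  have hmax : max a0 a < δ := lt_of_lt_of_le (hb0 ▸ hnx1 _) (hδ 0)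
  refine ⟨δ, lt_of_le_of_lt (le_max_left _ _) hmax, lt_of_le_of_lt (le_max_right _ _) hmax, ?_⟩
  intro ζ hζ
  obtain ⟨k, hk⟩ := hmin ζ hζ
  have h5 : g ζ < nx (b k) := hnx2 _ _ hk.le
  rw [← hbs k] at h5
  exact lt_of_lt_of_le h5 (hδ (k + 1))

theorem stat_iUnion (hI : ∀ a : I, (Set.Iio a).Countable) (A : ℕ → Set I)
    (h : Stat (⋃ n, A n)) : ∃ n, Stat (A n) := by
  by_contra hcon
  push Not at hcon
  unfold Stat at hcon
  push Not at hcon
  choose g a hga using hcon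
  have h1 : ∀ ζ : I, ∃ b, ∀ n, g n ζ < b := by
    intro ζ
    obtain ⟨b, hb⟩ := exists_bound hI (Set.countable_range (fun n => g n ζ))
    exact ⟨b, fun n => hb _ ⟨n, rfl⟩⟩
  choose G hG using h1
  obtain ⟨a', ha'⟩ := exists_bound hI (Set.countable_range a)
  obtain ⟨δ, hδ, hlt, hcl⟩ := h G a'
  obtain ⟨n, hn⟩ := Set.mem_iUnion.1 hδ
  obtain ⟨ζ, hζ, hζ2⟩ := hga n δ hn ((ha' _ ⟨n, rfl⟩).trans hlt)
  exact absurd (((hG ζ n).trans (hcl ζ hζ))) (not_lt.2 hζ2)

theorem exists_inj (hI : ∀ a : I, (Set.Iio a).Countable) :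
    ∃ e : I → I → ℕ, ∀ β, Set.InjOn (e β) (Set.Iio β) := by
  have h : ∀ β : I, ∃ f : I → ℕ, Set.InjOn f (Set.Iio β) := by
    intro β
    exact (Set.countable_iff_exists_injOn).1 (hI β)
  choose e he using h
  exact ⟨e, he⟩

/-- A colouring of the index order by a countable type, with all classes stationary. -/
theorem exists_stat_coloring (hI : ∀ a : I, (Set.Iio a).Countable) (C : Type) [Countable C]
    [Nonempty C] : ∃ col : I → C, ∀ c, Stat {δ | col δ = c} := by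
  classical
  obtain ⟨e, he⟩ := exists_inj hI
  have h1 : ∀ ξ : I, ∃ n, Stat {β | ξ < β ∧ e β ξ = n} := by
    intro ξ
    apply stat_iUnion hI
    refine (stat_Ioi hI ξ).mono ?_
    intro β hβ
    exact Set.mem_iUnion.2 ⟨e β ξ, hβ, rfl⟩
  choose n hn using h1
  have h2 : ∃ k, ¬ {ξ | n ξ = k}.Countable := by
    by_contra hcon
    push Not at hcon
    have : (⋃ k, {ξ | n ξ = k}) = (Set.univ : Set I) := by
      ext ξ; simp
    have h3 : (⋃ k, {ξ | n ξ = k}).Countable := Set.countable_iUnion hcon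
    rw [this] at h3
    exact Set.not_countable_univ h3
  obtain ⟨k, hk⟩ := h2
  have hinf : Infinite {ξ | n ξ = k} := by
    rw [Set.infinite_coe_iff]
    intro hfin
    exact hk hfin.countable
  obtain ⟨enc, henc⟩ := exists_injective_nat C
  let κ : C → I := fun c => (Infinite.natEmbedding {ξ | n ξ = k} (enc c)).1
  have hκ : Function.Injective κ := by
    intro c c' h
    have := Subtype.ext h
    exact henc ((Infinite.natEmbedding {ξ | n ξ = k}).injective this)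
  have hκn : ∀ c, n (κ c) = k := fun c => (Infinite.natEmbedding {ξ | n ξ = k} (enc c)).2
  let col : I → C := fun β =>
    if h : ∃ c, κ c < β ∧ e β (κ c) = k then h.choose else Classical.arbitrary C
  refine ⟨col, fun c => ?_⟩
  refine (hn (κ c)).mono ?_
  rintro β ⟨hβ1, hβ2⟩
  rw [hκn] at hβ2
  have hex : ∃ c, κ c < β ∧ e β (κ c) = k := ⟨c, hβ1, hβ2⟩
  have hcol : col β = hex.choose := dif_pos hex
  have hs := hex.choose_spec
  have : κ hex.choose = κ c := he β hs.1 hβ1 (hs.2.trans hβ2.symm)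
  show col β = c
  rw [hcol]
  exact hκ this


/-! ### Labels and the bracket -/

/-- The label of `α` at level `m`. -/
def lab (r : I → ℕ → Bool) (m : ℕ) (α : I) : List Bool := (List.range m).map (r α)

theorem lab_eq_iff (r : I → ℕ → Bool) (m : ℕ) (α β : I) :
    lab r m α = lab r m β ↔ ∀ k < m, r α k = r β k := by
  unfold lab
  rw [List.map_inj_left]
  simp

open Classical in
/-- The splitting level of `α` and `β`. -/
noncomputable def dl (r : I → ℕ → Bool) (α β : I) : ℕ :=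
  if h : ∃ k, r α k ≠ r β k then Nat.find h else 0

theorem le_dl_iff (r : I → ℕ → Bool) (hr : Function.Injective r) {α β : I} (h : α ≠ β) (m : ℕ) :
    m ≤ dl r α β ↔ lab r m α = lab r m β := by
  classical
  have hex : ∃ k, r α k ≠ r β k := by
    by_contra hcon
    push Not at hcon
    exact h (hr (funext hcon))
  rw [lab_eq_iff, dl, dif_pos hex]
  rw [Nat.le_find_iff]
  push Not
  rfl

/-- The set defining the bracket. -/
def brSet (e : I → I → ℕ) (r : I → ℕ → Bool) (α β : I) : Set I :=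
  {ζ | ζ = β ∨ (α ≤ ζ ∧ ζ < β ∧ e β ζ ≤ dl r α β)}

theorem brSet_nonempty (e : I → I → ℕ) (r : I → ℕ → Bool) (α β : I) :
    (brSet e r α β).Nonempty := ⟨β, Or.inl rfl⟩

/-- The bracket. -/
noncomputable def br (e : I → I → ℕ) (r : I → ℕ → Bool) (α β : I) : I :=
  (wellFounded_lt (α := I)).min (brSet e r α β) (brSet_nonempty e r α β)

theorem br_eq (e : I → I → ℕ) (r : I → ℕ → Bool) {α β δ : I} (h1 : α ≤ δ) (h2 : δ ≤ β)
    (h3 : δ < β → e β δ ≤ dl r α β) (h4 : ∀ ζ, α ≤ ζ → ζ < δ → dl r α β < e β ζ) :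
    br e r α β = δ := by
  have hmem : δ ∈ brSet e r α β := by
    rcases h2.eq_or_lt with h | h
    · exact Or.inl h
    · exact Or.inr ⟨h1, h, h3 h⟩
  have hmin := (wellFounded_lt (α := I)).min_mem (brSet e r α β) (brSet_nonempty e r α β)
  have hle : ¬ δ < br e r α β :=
    (wellFounded_lt (α := I)).not_lt_min (brSet e r α β) hmem
  rcases lt_or_eq_of_le (not_lt.1 hle) with hlt | heq
  · exfalso
    rcases hmin with h | ⟨ha, hb, hc⟩
    · have h' : br e r α β = β := h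
      rw [h'] at hlt
      exact absurd hlt (not_lt.2 h2)
    · exact absurd (h4 _ ha hlt) (not_lt.2 hc)
  · exact heq

open Classical in
/-- The bracket of a pair of maximal splitting level in a finite set. -/
noncomputable def Dl (e : I → I → ℕ) (r : I → ℕ → Bool) (z : Finset I) : I :=
  if h : ∃ p : I × I, p.1 ∈ z ∧ p.2 ∈ z ∧ p.1 < p.2 ∧
      ∀ q : I × I, q.1 ∈ z → q.2 ∈ z → q.1 < q.2 → dl r q.1 q.2 ≤ dl r p.1 p.2
  then br e r h.choose.1 h.choose.2 else Classical.arbitrary I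

theorem Dl_spec (e : I → I → ℕ) (r : I → ℕ → Bool) (z : Finset I) {a b : I} (ha : a ∈ z)
    (hb : b ∈ z) (hab : a < b) :
    ∃ p q : I, p ∈ z ∧ q ∈ z ∧ p < q ∧ dl r a b ≤ dl r p q ∧ Dl e r z = br e r p q := by
  classical
  let P : Finset (I × I) := (z ×ˢ z).filter (fun p => p.1 < p.2)
  have hP : P.Nonempty := ⟨(a, b), by simp [P, ha, hb, hab]⟩
  obtain ⟨p, hp, hmax⟩ := P.exists_max_image (fun p => dl r p.1 p.2) hP
  have hex : ∃ p : I × I, p.1 ∈ z ∧ p.2 ∈ z ∧ p.1 < p.2 ∧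
      ∀ q : I × I, q.1 ∈ z → q.2 ∈ z → q.1 < q.2 → dl r q.1 q.2 ≤ dl r p.1 p.2 := by
    simp only [P, Finset.mem_filter, Finset.mem_product] at hp hmax
    exact ⟨p, hp.1.1, hp.1.2, hp.2, fun q h1 h2 h3 => hmax q ⟨⟨h1, h2⟩, h3⟩⟩
  have hs := hex.choose_spec
  refine ⟨hex.choose.1, hex.choose.2, hs.1, hs.2.1, hs.2.2.1, hs.2.2.2 (a, b) ha hb hab, ?_⟩
  rw [Dl, dif_pos hex]

theorem countable_low (hI : ∀ a : I, (Set.Iio a).Countable) {S : Set I} {n : ℕ}
    {ι : I → Fin n → I} {J : Set (Fin n)}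
    (hfree : ∀ i ∉ J, ∀ v, {ξ ∈ S | ι ξ i = v}.Countable) (ζ : I) :
    {ξ ∈ S | ∃ i, i ∉ J ∧ ι ξ i ≤ ζ}.Countable := by
  have hsub : {ξ ∈ S | ∃ i, i ∉ J ∧ ι ξ i ≤ ζ} ⊆
      ⋃ i : {i // i ∉ J}, ⋃ v ∈ Set.Iic ζ, {ξ ∈ S | ι ξ i.1 = v} := by
    rintro ξ ⟨hξ, i, hi, hle⟩
    simp only [Set.mem_iUnion]
    exact ⟨⟨i, hi⟩, ι ξ i, hle, hξ, rfl⟩
  refine Set.Countable.mono hsub (Set.countable_iUnion fun i => ?_)
  have hc : (Set.Iic ζ).Countable := by
    have : Set.Iic ζ = insert ζ (Set.Iio ζ) := by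
      ext y; simp [le_iff_eq_or_lt]
    rw [this]
    exact (hI ζ).insert ζ
  exact hc.biUnion (fun v _ => hfree i.1 i.2 v)

theorem strong_coloring (hI : ∀ a : I, (Set.Iio a).Countable) (r : I → ℕ → Bool)
    (hr : Function.Injective r) (C : Type) [Countable C] [Nonempty C] :
    ∃ (D : Finset I → I) (col : I → C), ∀ (S : Set I), ¬ S.Countable → ∀ (n : ℕ)
      (ι : I → Fin n → I) (J : Set (Fin n)) (m : ℕ),
      (∀ ξ ∈ S, Function.Injective (fun i => lab r m (ι ξ i))) →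
      (∀ ξ ∈ S, ∀ η ∈ S, ∀ i, lab r m (ι ξ i) = lab r m (ι η i)) →
      (∀ ξ ∈ S, ∀ η ∈ S, ∀ i ∈ J, ι ξ i = ι η i) →
      (∀ i ∉ J, ∀ v, {ξ ∈ S | ι ξ i = v}.Countable) →
      ∀ c : C, ∃ ξ ∈ S, ∃ η ∈ S, ∃ δ, col δ = c ∧ (∀ i, ι ξ i < δ) ∧ (∀ i ∉ J, δ ≤ ι η i) ∧
        ∀ z : Finset I, (∀ α ∈ z, (∃ i, α = ι ξ i) ∨ (∃ i, α = ι η i)) →
          (∃ i, i ∉ J ∧ ι ξ i ∈ z ∧ ι η i ∈ z) → D z = δ := by
  classical
  obtain ⟨e, he⟩ := exists_inj hI
  obtain ⟨col, hcol⟩ := exists_stat_coloring hI C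
  refine ⟨Dl e r, col, ?_⟩
  intro S hS n ι J m hinj hlab hroot hfree c
  -- classes
  let A : ℕ × (Fin n → List Bool) → Set I := fun k =>
    {ξ | ξ ∈ S ∧ ∀ i ∉ J, lab r k.1 (ι ξ i) = k.2 i}
  let B : (ℕ × (Fin n → List Bool)) × (ℕ × (Fin n → List Bool)) → Set I := fun k =>
    {ξ | ξ ∈ A k.1 ∧ ∀ i ∉ J, lab r k.2.1 (ι ξ i) ≠ k.2.2 i}
  have hpick : ∀ k, ∀ ζ : I, ∃ ξ, ¬ (B k).Countable → ξ ∈ B k ∧ ∀ i ∉ J, ζ < ι ξ i := by
    intro k ζ
    by_cases hk : (B k).Countable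
    · exact ⟨Classical.arbitrary I, fun h => absurd hk h⟩
    · by_contra hcon
      push Not at hcon
      apply hk
      refine (countable_low hI hfree ζ).mono ?_
      intro ξ hξ
      obtain ⟨_, h2⟩ := hcon ξ
      obtain ⟨i, hi, hle⟩ := h2 hξ
      exact ⟨hξ.1.1, i, hi, hle⟩
  choose pick hpick using hpick
  have hg : ∀ ζ : I, ∃ b, ∀ k i, ι (pick k ζ) i < b := by
    intro ζ
    obtain ⟨b, hb⟩ := exists_bound hI (Set.countable_range
      (fun q : ((ℕ × (Fin n → List Bool)) × (ℕ × (Fin n → List Bool))) × Fin n =>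
        ι (pick q.1 ζ) q.2))
    exact ⟨b, fun k i => hb _ ⟨(k, i), rfl⟩⟩
  choose g hg using hg
  have hBad : (⋃ k ∈ {k | (A k).Countable}, A k).Countable := by
    refine Set.Countable.biUnion (Set.to_countable _) (fun k hk => hk)
  obtain ⟨ξ0, hξ0⟩ : S.Nonempty := by
    by_contra hcon
    rw [Set.not_nonempty_iff_eq_empty] at hcon
    exact hS (hcon ▸ Set.countable_empty)
  obtain ⟨α0, hα0⟩ := exists_bound hI (Set.countable_range (ι ξ0))
  obtain ⟨δ, hδc, hαδ, hδg⟩ := hcol c g α0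
  -- choose η
  have hη : ∃ η ∈ S, η ∉ (⋃ k ∈ {k | (A k).Countable}, A k) ∧ ∀ i ∉ J, δ ≤ ι η i := by
    by_contra hcon
    push Not at hcon
    apply hS
    refine (hBad.union (countable_low hI hfree δ)).mono ?_
    intro η hη
    by_cases hb : η ∈ (⋃ k ∈ {k | (A k).Countable}, A k)
    · exact Or.inl hb
    · obtain ⟨i, hi, hlt⟩ := hcon η hη hb
      exact Or.inr ⟨hη, i, hi, hlt.le⟩
  obtain ⟨η, hηS, hηB, hηδ⟩ := hη
  obtain ⟨m0, hm0, hm0e⟩ : ∃ m0, m ≤ m0 ∧ ∀ i, e (ι η i) δ ≤ m0 := by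
    refine ⟨max m (Finset.univ.sup (fun i => e (ι η i) δ)), le_max_left _ _, fun i => ?_⟩
    exact (Finset.le_sup (f := fun i => e (ι η i) δ) (Finset.mem_univ i)).trans (le_max_right _ _)
  have hA : ¬ (A (m0, fun i => lab r m0 (ι η i))).Countable := by
    intro hcon
    apply hηB
    simp only [Set.mem_iUnion]
    exact ⟨_, hcon, hηS, fun i _ => rfl⟩
  obtain ⟨m1, hm1⟩ : ∃ m1, ¬ (B ((m0, fun i => lab r m0 (ι η i)),
      (m1, fun i => lab r m1 (ι η i)))).Countable := by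
    by_contra hcon
    push Not at hcon
    apply hA
    have h1 : (⋃ i : {i // i ∉ J}, {ξ ∈ S | ι ξ i.1 = ι η i.1}).Countable :=
      Set.countable_iUnion fun i => hfree i.1 i.2 _
    refine (h1.union (Set.countable_iUnion hcon)).mono ?_
    intro ξ hξ
    by_cases hx : ∃ i, i ∉ J ∧ ι ξ i = ι η i
    · left
      obtain ⟨i, hi, hii⟩ := hx
      exact Set.mem_iUnion.2 ⟨⟨i, hi⟩, hξ.1, hii⟩
    · right
      push Not at hx
      have hk : ∀ i, ∃ k, i ∉ J → r (ι ξ i) k ≠ r (ι η i) k := by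
        intro i
        by_cases hi : i ∈ J
        · exact ⟨0, fun h => absurd hi h⟩
        · by_contra hc
          push Not at hc
          exact hx i hi (hr (funext fun k => (hc k).2))
      choose k hk using hk
      refine Set.mem_iUnion.2 ⟨Finset.univ.sup k + 1, hξ, fun i hi heq => ?_⟩
      rw [lab_eq_iff] at heq
      exact hk i hi (heq (k i) (Nat.lt_succ_of_le (Finset.le_sup (Finset.mem_univ i))))
  -- choose ζ1
  obtain ⟨ζ1, hζ1δ, hζ1⟩ : ∃ ζ1, ζ1 < δ ∧ ∀ ζ, ζ1 < ζ → ζ < δ → ∀ i ∉ J, m1 < e (ι η i) ζ := by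
    have hfin : (⋃ i : {i // i ∉ J}, {ζ | ζ < δ ∧ e (ι η i.1) ζ ≤ m1}).Finite := by
      refine Set.finite_iUnion fun i => ?_
      refine Set.Finite.of_finite_image (f := e (ι η i.1)) ?_ ?_
      · refine (Set.finite_Iic m1).subset ?_
        rintro _ ⟨ζ, hζ, rfl⟩
        exact hζ.2
      · refine (he (ι η i.1)).mono ?_
        intro ζ hζ
        exact lt_of_lt_of_le hζ.1 (hηδ i.1 i.2)
    have hfin2 := hfin.insert α0
    obtain ⟨ζ1, hζ1, hmax⟩ := hfin2.exists_maximal ⟨α0, Set.mem_insert _ _⟩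
    have hall : ∀ x ∈ insert α0 (⋃ i : {i // i ∉ J}, {ζ | ζ < δ ∧ e (ι η i.1) ζ ≤ m1}), x < δ := by
      intro x hx
      rcases hx with hx | hx
      · rw [hx]; exact hαδ
      · obtain ⟨i, hi⟩ := Set.mem_iUnion.1 hx
        exact hi.1
    refine ⟨ζ1, hall _ hζ1, ?_⟩
    intro ζ h1 h2 i hi
    by_contra hcon
    push Not at hcon
    have hmem : ζ ∈ insert α0 (⋃ i : {i // i ∉ J}, {ζ | ζ < δ ∧ e (ι η i.1) ζ ≤ m1}) :=
      Or.inr (Set.mem_iUnion.2 ⟨⟨i, hi⟩, h2, hcon⟩)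
    exact absurd h1 (not_lt.2 (hmax hmem h1.le))
  obtain ⟨hξB, hξζ⟩ := hpick _ ζ1 hm1
  set ξ := pick ((m0, fun i => lab r m0 (ι η i)), (m1, fun i => lab r m1 (ι η i))) ζ1 with hξdef
  have hξS : ξ ∈ S := hξB.1.1
  have hξδ : ∀ i, ι ξ i < δ := by
    intro i
    by_cases hi : i ∈ J
    · rw [hroot ξ hξS ξ0 hξ0 i hi]
      exact (hα0 _ ⟨i, rfl⟩).trans hαδ
    · exact (hg ζ1 _ i).trans (hδg ζ1 hζ1δ)
  refine ⟨ξ, hξS, η, hηS, δ, hδc, hξδ, hηδ, ?_⟩
  intro z hz ⟨i0, hi0, hz1, hz2⟩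
  obtain ⟨p, q, hp, hq, hpq, hle, hD⟩ := Dl_spec e r z hz1 hz2
    (lt_of_lt_of_le (hξδ i0) (hηδ i0 hi0))
  rw [hD]
  have hne0 : ι ξ i0 ≠ ι η i0 := (lt_of_lt_of_le (hξδ i0) (hηδ i0 hi0)).ne
  have hmle : m ≤ dl r p q := by
    refine le_trans ?_ hle
    rw [le_dl_iff r hr hne0]
    exact hlab ξ hξS η hηS i0
  rw [le_dl_iff r hr hpq.ne] at hmle
  -- identify the pair
  have hid : ∃ i, i ∉ J ∧ p = ι ξ i ∧ q = ι η i := by
    have hlabs : ∀ {a : I} {i : Fin n}, (a = ι ξ i ∨ a = ι η i) → lab r m a = lab r m (ι ξ i) := by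
      intro a i ha
      rcases ha with ha | ha
      · rw [ha]
      · rw [ha]; exact hlab η hηS ξ hξS i
    have hpi : ∃ i, p = ι ξ i ∨ p = ι η i := by
      rcases hz p hp with ⟨i, h⟩ | ⟨i, h⟩
      · exact ⟨i, Or.inl h⟩
      · exact ⟨i, Or.inr h⟩
    have hqi : ∃ i, q = ι ξ i ∨ q = ι η i := by
      rcases hz q hq with ⟨i, h⟩ | ⟨i, h⟩
      · exact ⟨i, Or.inl h⟩
      · exact ⟨i, Or.inr h⟩
    obtain ⟨i, hi⟩ := hpi
    obtain ⟨j, hj⟩ := hqi
    have hij : i = j := by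
      apply hinj ξ hξS
      show lab r m (ι ξ i) = lab r m (ι ξ j)
      rw [← hlabs hi, ← hlabs hj]
      exact hmle
    subst hij
    have hiJ : i ∉ J := by
      intro hiJ
      have h1 : ι ξ i = ι η i := hroot ξ hξS η hηS i hiJ
      rw [← h1] at hi hj
      rcases hi with hi | hi <;> rcases hj with hj | hj <;> (rw [hi, hj] at hpq; exact lt_irrefl _ hpq)
    have hlt : ι ξ i < ι η i := lt_of_lt_of_le (hξδ i) (hηδ i hiJ)
    refine ⟨i, hiJ, ?_⟩
    rcases hi with hi | hi <;> rcases hj with hj | hj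
    · rw [hi, hj] at hpq; exact absurd hpq (lt_irrefl _)
    · exact ⟨hi, hj⟩
    · rw [hi, hj] at hpq; exact absurd hpq (not_lt.2 hlt.le)
    · rw [hi, hj] at hpq; exact absurd hpq (lt_irrefl _)
  obtain ⟨i, hiJ, rfl, rfl⟩ := hid
  have hne : ι ξ i ≠ ι η i := hpq.ne
  have hdm0 : m0 ≤ dl r (ι ξ i) (ι η i) := by
    rw [le_dl_iff r hr hne]
    exact hξB.1.2 i hiJ
  have hdm1 : dl r (ι ξ i) (ι η i) < m1 := by
    by_contra hcon
    push Not at hcon
    rw [le_dl_iff r hr hne] at hcon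
    exact hξB.2 i hiJ hcon
  refine br_eq e r (hξδ i).le (hηδ i hiJ) (fun _ => (hm0e i).trans hdm0) ?_
  intro ζ h1 h2
  exact hdm1.trans (hζ1 ζ (lt_of_lt_of_le (hξζ i hiJ) h1) h2 i hiJ)

end

end Pool.Agent.Helper81.Sync
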