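import Pool.Agent.Helper81.Sync.Char

/-!
Sign control for one and for two polynomials.
-/

set_option autoImplicit false
set_option linter.unusedSectionVars false

namespace Pool.Agent.Helper81.Sync

open MvPolynomial

theorem unit_eq_or {a s : ℤˣ} : s = a ∨ s = -a := by
  rcases Int.units_eq_one_or a with h | h <;> rcases Int.units_eq_one_or s with h' | h' <;>
    simp [h, h']

section

variable {I : Type} [LinearOrder I] [WellFoundedLT I] [Uncountable I]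
variable {n : ℕ} {J : Set (Fin n)}

theorem ctrl1 {r : I → ℕ → Bool} {D : Finset I → I} {col : I → Code}
    (hS : Strong r D col) {χ : MvPolynomial I ℚ → ℤˣ} (hχ : IsSign χ)
    (hε : ∀ f, Irreducible f → χ f = eps r D col f)
    {S : Set I} {ι : I → Fin n → I} {m : ℕ} {l : Fin n → List Bool}
    (hF : Fam r S n ι J m l) {A : MvPolynomial (VV n J) ℚ} (hA : Good n J A) (s : ℤˣ) :
    ∃ ξ ∈ S, ∃ η ∈ S, Ord ι J ξ η ∧ χ (rename (sg ι J ξ η) A) = s := by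
  classical
  obtain ⟨f, hf, hfA, hfr⟩ := hA.ex
  obtain ⟨ξ, η, hp⟩ := exists_pr hS hε hF (∅ : Finset (MvPolynomial (VV n J) ℚ))
  obtain ⟨ξ', η', hp'⟩ := exists_pr hS hε hF ({f} : Finset (MvPolynomial (VV n J) ℚ))
  have h1 := (toggle_pair hχ hF hp hp' hA hf (hA.diag f hf hfA hfr)
    (by intro g; simp) (by simp)).1 hfA
  rcases unit_eq_or (a := χ (rename (sg ι J ξ η) A)) (s := s) with h | h
  · exact ⟨ξ, hp.1, η, hp.2.1, hp.2.2.1, h.symm⟩
  · exact ⟨ξ', hp'.1, η', hp'.2.1, hp'.2.2.1, by rw [h1, h]⟩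

theorem ctrl2_aux {r : I → ℕ → Bool} {D : Finset I → I} {col : I → Code}
    (hS : Strong r D col) {χ : MvPolynomial I ℚ → ℤˣ} (hχ : IsSign χ)
    (hε : ∀ f, Irreducible f → χ f = eps r D col f)
    {S : Set I} {ι : I → Fin n → I} {m : ℕ} {l : Fin n → List Bool}
    (hF : Fam r S n ι J m l) {A B f : MvPolynomial (VV n J) ℚ} (hA : Good n J A)
    (hB : Good n J B) (hf : Irreducible f) (hfr : ¬ RootOnly (LoS n J) (HiS n J) f)
    (hfA : f ∣ A) (hfB : ¬ f ∣ B) (s₁ s₂ : ℤˣ) :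
    ∃ ξ ∈ S, ∃ η ∈ S, Ord ι J ξ η ∧ χ (rename (sg ι J ξ η) A) = s₁ ∧
      χ (rename (sg ι J ξ η) B) = s₂ := by
  classical
  obtain ⟨g, hg, hgB, hgr⟩ := hB.ex
  have hfd := hA.diag f hf hfA hfr
  have hgd := hB.diag g hg hgB hgr
  have hfg : ¬ Associated f g := fun h => hfB (h.dvd.trans hgB)
  obtain ⟨x0, y0, p0⟩ := exists_pr hS hε hF (∅ : Finset (MvPolynomial (VV n J) ℚ))
  obtain ⟨x1, y1, p1⟩ := exists_pr hS hε hF ({f} : Finset (MvPolynomial (VV n J) ℚ))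
  obtain ⟨x2, y2, p2⟩ := exists_pr hS hε hF ({g} : Finset (MvPolynomial (VV n J) ℚ))
  obtain ⟨x3, y3, p3⟩ := exists_pr hS hε hF ({f, g} : Finset (MvPolynomial (VV n J) ℚ))
  have a01 := (toggle_pair hχ hF p0 p1 hA hf hfd (by intro g; simp) (by simp)).1 hfA
  have b01 := (toggle_pair hχ hF p0 p1 hB hf hfd (by intro g; simp) (by simp)).2 hfB
  have b02 := (toggle_pair hχ hF p0 p2 hB hg hgd (by intro g; simp) (by simp)).1 hgB
  have a23 := (toggle_pair hχ hF p2 p3 hA hf hfd (by intro g; simp) (by simpa using hfg)).1 hfA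
  have b23 := (toggle_pair hχ hF p2 p3 hB hf hfd (by intro g; simp) (by simpa using hfg)).2 hfB
  rcases unit_eq_or (a := χ (rename (sg ι J x0 y0) B)) (s := s₂) with h | h
  · rcases unit_eq_or (a := χ (rename (sg ι J x0 y0) A)) (s := s₁) with h' | h'
    · exact ⟨x0, p0.1, y0, p0.2.1, p0.2.2.1, h'.symm, h.symm⟩
    · exact ⟨x1, p1.1, y1, p1.2.1, p1.2.2.1, by rw [a01, h'], by rw [b01, h]⟩
  · rcases unit_eq_or (a := χ (rename (sg ι J x2 y2) A)) (s := s₁) with h' | h'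
    · exact ⟨x2, p2.1, y2, p2.2.1, p2.2.2.1, h'.symm, by rw [b02, h]⟩
    · exact ⟨x3, p3.1, y3, p3.2.1, p3.2.2.1, by rw [a23, h'], by rw [b23, b02, h]⟩

/-- Two good polynomials are either proportional or their signs are independent. -/
theorem ctrl2 {r : I → ℕ → Bool} {D : Finset I → I} {col : I → Code}
    (hS : Strong r D col) {χ : MvPolynomial I ℚ → ℤˣ} (hχ : IsSign χ)
    (hε : ∀ f, Irreducible f → χ f = eps r D col f)
    {S : Set I} {ι : I → Fin n → I} {m : ℕ} {l : Fin n → List Bool}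
    (hF : Fam r S n ι J m l) {A B : MvPolynomial (VV n J) ℚ} (hA : Good n J A)
    (hB : Good n J B) :
    (∀ s₁ s₂ : ℤˣ, ∃ ξ ∈ S, ∃ η ∈ S, Ord ι J ξ η ∧ χ (rename (sg ι J ξ η) A) = s₁ ∧
      χ (rename (sg ι J ξ η) B) = s₂) ∨
    (∃ α β, α ≠ 0 ∧ β ≠ 0 ∧ RootOnly (LoS n J) (HiS n J) α ∧ RootOnly (LoS n J) (HiS n J) β ∧
      α * B = β * A) := by
  by_cases h : ∀ f, Irreducible f → ¬ RootOnly (LoS n J) (HiS n J) f → (f ∣ A ↔ f ∣ B)
  · right
    exact proportional hA.ne hB.ne h hA.sq hB.sq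
  · left
    push Not at h
    obtain ⟨f, hf, hfr, h⟩ := h
    rcases h with ⟨h1, h2⟩ | ⟨h1, h2⟩
    · intro s₁ s₂
      exact ctrl2_aux hS hχ hε hF hA hB hf hfr h1 h2 s₁ s₂
    · intro s₁ s₂
      obtain ⟨ξ, hξ, η, hη, ho, h3, h4⟩ :=
        ctrl2_aux hS hχ hε hF hB hA hf hfr h2 h1 s₂ s₁
      exact ⟨ξ, hξ, η, hη, ho, h4, h3⟩

end

end Pool.Agent.Helper81.Sync
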