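import Pool.Agent.Helper81.Sync.Gil

/-!
The field of fractions, the character, and the independence lemma for field elements.
-/

set_option autoImplicit false
set_option linter.unusedSectionVars false

namespace Pool.Agent.Helper81.Sync

open MvPolynomial

/-- The polynomial ring. -/
abbrev RR (I : Type) : Type := MvPolynomial I ℚ

/-- The field of rational functions. -/
abbrev KK (I : Type) : Type := FractionRing (MvPolynomial I ℚ)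

section

variable {I : Type}

/-- Reduced numerator. -/
noncomputable def nu (x : KK I) : RR I := IsFractionRing.num (RR I) x

/-- Reduced denominator. -/
noncomputable def de (x : KK I) : RR I := (IsFractionRing.den (RR I) x : RR I)

/-- The embedding of the polynomial ring in its fraction field. -/
noncomputable def am : RR I →+* KK I := algebraMap (RR I) (KK I)

theorem am_injective : Function.Injective (am : RR I → KK I) :=
  IsFractionRing.injective (RR I) (KK I)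

theorem am_ne {a : RR I} (ha : a ≠ 0) : am a ≠ 0 := by
  intro h
  exact ha (am_injective (by rw [h, map_zero]))

theorem nu_div_de (x : KK I) : am (nu x) / am (de x) = x :=
  IsFractionRing.mk'_num_den' (RR I) x

theorem de_ne (x : KK I) : de x ≠ 0 := nonZeroDivisors.coe_ne_zero _

theorem relPrime_nu_de (x : KK I) : IsRelPrime (nu x) (de x) :=
  IsFractionRing.num_den_reduced (RR I) x

/-- The character on the field. -/
noncomputable def chi (χ : RR I → ℤˣ) (x : KK I) : ℤˣ := χ (nu x) * χ (de x)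

theorem chi_div {χ : RR I → ℤˣ} (hχ : IsSign χ) {a b : RR I} (ha : a ≠ 0) (hb : b ≠ 0) :
    chi χ (am a / am b) = χ a * χ b := by
  set x := am a / am b with hx
  have h1 : am (nu x) / am (de x) = am a / am b := nu_div_de x
  have hx0 : x ≠ 0 := div_ne_zero (am_ne ha) (am_ne hb)
  have hn0 : nu x ≠ 0 := by
    intro h0
    rw [h0, map_zero, zero_div] at h1
    exact hx0 h1.symm
  rw [div_eq_div_iff (am_ne (de_ne x)) (am_ne hb), ← map_mul, ← map_mul] at h1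
  have h2 := congrArg χ (am_injective h1)
  rw [hχ.mul _ _ hn0 hb, hχ.mul _ _ ha (de_ne x)] at h2
  unfold chi
  calc χ (nu x) * χ (de x) = (χ (nu x) * χ b) * χ b * χ (de x) := by
        rw [mul_assoc (χ (nu x)), Int.units_mul_self, mul_one]
    _ = (χ a * χ (de x)) * χ b * χ (de x) := by rw [h2]
    _ = χ a * χ b * (χ (de x) * χ (de x)) := by
        rw [mul_assoc, mul_assoc, mul_assoc, mul_left_comm (χ (de x))]
    _ = χ a * χ b := by rw [Int.units_mul_self, mul_one]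

theorem exists_fr (x : KK I) (hx : x ≠ 0) : ∃ a b : RR I, a ≠ 0 ∧ b ≠ 0 ∧ x = am a / am b := by
  refine ⟨nu x, de x, ?_, de_ne x, (nu_div_de x).symm⟩
  intro h0
  have := nu_div_de x
  rw [h0, map_zero, zero_div] at this
  exact hx this.symm

theorem chi_mul {χ : RR I → ℤˣ} (hχ : IsSign χ) {x y : KK I} (hx : x ≠ 0) (hy : y ≠ 0) :
    chi χ (x * y) = chi χ x * chi χ y := by
  obtain ⟨a, b, ha, hb, rfl⟩ := exists_fr x hx
  obtain ⟨c, d, hc, hd, rfl⟩ := exists_fr y hy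
  rw [div_mul_div_comm, ← map_mul, ← map_mul, chi_div hχ (mul_ne_zero ha hc) (mul_ne_zero hb hd),
    chi_div hχ ha hb, chi_div hχ hc hd, hχ.mul _ _ ha hc, hχ.mul _ _ hb hd]
  exact mul_mul_mul_comm _ _ _ _

theorem chi_neg {χ : RR I → ℤˣ} (hχ : IsSign χ) {x : KK I} (hx : x ≠ 0) :
    chi χ (-x) = chi χ x := by
  obtain ⟨a, b, ha, hb, rfl⟩ := exists_fr x hx
  rw [← neg_div, ← map_neg, chi_div hχ (neg_ne_zero.2 ha) hb, chi_div hχ ha hb, hχ.neg ha]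

theorem chi_one {χ : RR I → ℤˣ} (hχ : IsSign χ) : chi χ (1 : KK I) = 1 := by
  have h := chi_div hχ (one_ne_zero : (1 : RR I) ≠ 0) (one_ne_zero : (1 : RR I) ≠ 0)
  rw [map_one, div_one, hχ.one, one_mul] at h
  exact h

theorem chi_inv {χ : RR I → ℤˣ} (hχ : IsSign χ) {x : KK I} (hx : x ≠ 0) :
    chi χ x⁻¹ = chi χ x := by
  have h := chi_mul hχ hx (inv_ne_zero hx)
  rw [mul_inv_cancel₀ hx, chi_one hχ] at h
  have h2 : chi χ x * 1 = chi χ x * (chi χ x * chi χ x⁻¹) := by rw [← h]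
  rw [← mul_assoc, Int.units_mul_self, one_mul, mul_one] at h2
  exact h2.symm

theorem chi_am {χ : RR I → ℤˣ} (hχ : IsSign χ) {a : RR I} (ha : a ≠ 0) :
    chi χ (am a) = χ a := by
  have h := chi_div hχ ha (one_ne_zero : (1 : RR I) ≠ 0)
  rw [map_one, div_one, hχ.one, mul_one] at h
  exact h

theorem fr_sub (a a' : RR I) {b b' : RR I} (hb : b ≠ 0) (hb' : b' ≠ 0) :
    am a / am b - am a' / am b' = am (nn a b a' b') / am (b * b') := by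
  unfold nn
  rw [div_sub_div _ _ (am_ne hb) (am_ne hb'), map_sub, map_mul, map_mul, map_mul]

theorem chi_fr_sub {χ : RR I → ℤˣ} (hχ : IsSign χ) {a a' b b' : RR I} (hb : b ≠ 0)
    (hb' : b' ≠ 0) (hn : nn a b a' b' ≠ 0) :
    chi χ (am a / am b - am a' / am b') = χ (nn a b a' b') * (χ b * χ b') := by
  rw [fr_sub a a' hb hb', chi_div hχ hn (mul_ne_zero hb hb'), hχ.mul _ _ hb hb']

theorem fr_eq_iff {a a' b b' : RR I} (hb : b ≠ 0) (hb' : b' ≠ 0) :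
    am a / am b = am a' / am b' ↔ nn a b a' b' = 0 := by
  rw [← sub_eq_zero, fr_sub a a' hb hb', div_eq_zero_iff]
  constructor
  · rintro (h | h)
    · exact am_injective (by rw [h, map_zero])
    · exact absurd h (am_ne (mul_ne_zero hb hb'))
  · intro h
    left
    rw [h, map_zero]

end

section

variable {I : Type} [LinearOrder I] [WellFoundedLT I] [Uncountable I]

/-- The bundled data produced by the strong colouring. -/
structure Good0 (I : Type) [LinearOrder I] [WellFoundedLT I] (r : I → ℕ → Bool)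
    (D : Finset I → I) (col : I → Code) (χ : RR I → ℤˣ) : Prop where
  inj : Function.Injective r
  low : ∀ a : I, (Set.Iio a).Countable
  strong : Strong r D col
  sign : IsSign χ
  irr : ∀ f, Irreducible f → χ f = eps r D col f

theorem gilK {r : I → ℕ → Bool} {D : Finset I → I} {col : I → Code} {χ : RR I → ℤˣ}
    (h0 : Good0 I r D col χ) (A B A' B' P Q P' Q' : I → RR I) {S : Set I} (hS : ¬ S.Countable)
    (hB : ∀ ξ ∈ S, B ξ ≠ 0) (hB' : ∀ ξ ∈ S, B' ξ ≠ 0) (hQ : ∀ ξ ∈ S, Q ξ ≠ 0)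
    (hQ' : ∀ ξ ∈ S, Q' ξ ≠ 0)
    (h01 : ∀ ξ ∈ S, IsRelPrime (A ξ) (B ξ)) (h23 : ∀ ξ ∈ S, IsRelPrime (A' ξ) (B' ξ))
    (h45 : ∀ ξ ∈ S, IsRelPrime (P ξ) (Q ξ)) (h67 : ∀ ξ ∈ S, IsRelPrime (P' ξ) (Q' ξ))
    (v01 : ∀ ξ ∈ S, ξ ∈ (A ξ).vars ∨ ξ ∈ (B ξ).vars)
    (v23 : ∀ ξ ∈ S, ξ ∈ (A' ξ).vars ∨ ξ ∈ (B' ξ).vars)
    (hY : (∀ ξ ∈ S, P ξ = P' ξ ∧ Q ξ = Q' ξ) ∨
      (∀ ξ ∈ S, (ξ ∈ (P ξ).vars ∨ ξ ∈ (Q ξ).vars) ∧ (ξ ∈ (P' ξ).vars ∨ ξ ∈ (Q' ξ).vars))) :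
    ∃ S' ⊆ S, ¬ S'.Countable ∧
      (∀ s : ℤˣ, ∃ ξ ∈ S', ∃ η ∈ S', ξ ≠ η ∧ am (A ξ) / am (B ξ) ≠ am (A' η) / am (B' η) ∧
        chi χ (am (A ξ) / am (B ξ) - am (A' η) / am (B' η)) = s) ∧
      ((∀ s : ℤˣ, ∃ ξ ∈ S', ∃ η ∈ S', ξ ≠ η ∧ am (A ξ) / am (B ξ) ≠ am (A' η) / am (B' η) ∧
        chi χ (am (A ξ) / am (B ξ) - am (A' η) / am (B' η)) = s ∧
        am (P ξ) / am (Q ξ) = am (P' η) / am (Q' η)) ∨
      (∀ s₁ s₂ : ℤˣ, ∃ ξ ∈ S', ∃ η ∈ S', ξ ≠ η ∧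
        am (A ξ) / am (B ξ) ≠ am (A' η) / am (B' η) ∧
        chi χ (am (A ξ) / am (B ξ) - am (A' η) / am (B' η)) = s₁ ∧
        am (P ξ) / am (Q ξ) ≠ am (P' η) / am (Q' η) ∧
        chi χ (am (P ξ) / am (Q ξ) - am (P' η) / am (Q' η)) = s₂) ∨
      (∃ g : KK I, g ≠ 0 ∧ ∀ ξ ∈ S',
        {η ∈ S' | ¬ (am (nn (P ξ) (Q ξ) (P' η) (Q' η)) =
          g * am (nn (A ξ) (B ξ) (A' η) (B' η)))}.Countable)) := by
  classical
  -- make the signs of the denominators constant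
  obtain ⟨c, hc⟩ := pigeon hS (C := ℤˣ × ℤˣ × ℤˣ × ℤˣ)
    (fun ξ => (χ (B ξ), χ (B' ξ), χ (Q ξ), χ (Q' ξ)))
  set S1 := {ξ ∈ S | (χ (B ξ), χ (B' ξ), χ (Q ξ), χ (Q' ξ)) = c} with hS1
  have hsub : S1 ⊆ S := fun ξ hξ => hξ.1
  have hcon : ∀ ξ ∈ S1, χ (B ξ) = c.1 ∧ χ (B' ξ) = c.2.1 ∧ χ (Q ξ) = c.2.2.1 ∧
      χ (Q' ξ) = c.2.2.2 := by
    intro ξ hξ
    have h := hξ.2
    rw [Prod.ext_iff, Prod.ext_iff, Prod.ext_iff] at h
    exact ⟨h.1, h.2.1, h.2.2.1, h.2.2.2⟩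
  obtain ⟨S', hS', hunc, hX, hcases⟩ := gil h0.inj h0.low h0.strong h0.sign h0.irr
    (fun ξ => ![A ξ, B ξ, A' ξ, B' ξ, P ξ, Q ξ, P' ξ, Q' ξ]) hc
    (fun ξ hξ => h01 ξ (hsub hξ)) (fun ξ hξ => h23 ξ (hsub hξ)) (fun ξ hξ => h45 ξ (hsub hξ))
    (fun ξ hξ => h67 ξ (hsub hξ)) (fun ξ hξ => v01 ξ (hsub hξ)) (fun ξ hξ => v23 ξ (hsub hξ))
    (by
      rcases hY with h | h
      · exact Or.inl fun ξ hξ => h ξ (hsub hξ)
      · exact Or.inr fun ξ hξ => h ξ (hsub hξ))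
  have hX' : ∀ s : ℤˣ, ∃ ξ ∈ S', ∃ η ∈ S', ξ ≠ η ∧ nn (A ξ) (B ξ) (A' η) (B' η) ≠ 0 ∧
      χ (nn (A ξ) (B ξ) (A' η) (B' η)) = s := hX
  have hcases' : ((∀ s : ℤˣ, ∃ ξ ∈ S', ∃ η ∈ S', ξ ≠ η ∧ nn (A ξ) (B ξ) (A' η) (B' η) ≠ 0 ∧
        χ (nn (A ξ) (B ξ) (A' η) (B' η)) = s ∧
        nn (P ξ) (Q ξ) (P' η) (Q' η) = 0) ∨
      (∀ s₁ s₂ : ℤˣ, ∃ ξ ∈ S', ∃ η ∈ S', ξ ≠ η ∧ nn (A ξ) (B ξ) (A' η) (B' η) ≠ 0 ∧
        χ (nn (A ξ) (B ξ) (A' η) (B' η)) = s₁ ∧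
        nn (P ξ) (Q ξ) (P' η) (Q' η) ≠ 0 ∧
        χ (nn (P ξ) (Q ξ) (P' η) (Q' η)) = s₂) ∨
      (∃ a b : MvPolynomial I ℚ, a ≠ 0 ∧ b ≠ 0 ∧ ∀ ξ ∈ S',
        {η ∈ S' | ¬ (a * nn (P ξ) (Q ξ) (P' η) (Q' η) =
          b * nn (A ξ) (B ξ) (A' η) (B' η))}.Countable)) := hcases
  have hSS : ∀ ξ ∈ S', ξ ∈ S := fun ξ hξ => hsub (hS' hξ)
  have hxx : ∀ u v : ℤˣ, u * v * v = u := by
    intro u v
    rw [mul_assoc, Int.units_mul_self, mul_one]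
  refine ⟨S', fun ξ hξ => hSS ξ hξ, hunc, ?_, ?_⟩
  · intro s
    obtain ⟨ξ, hξ, η, hη, hne, hn, hs⟩ := hX' (s * (c.1 * c.2.1))
    refine ⟨ξ, hξ, η, hη, hne, ?_, ?_⟩
    · rw [Ne, fr_eq_iff (hB ξ (hSS ξ hξ)) (hB' η (hSS η hη))]
      exact hn
    · rw [chi_fr_sub h0.sign (hB ξ (hSS ξ hξ)) (hB' η (hSS η hη)) hn, hs,
        (hcon ξ (hS' hξ)).1, (hcon η (hS' hη)).2.1, hxx]
  · rcases hcases' with h | h | ⟨a, b, ha, hb, h⟩
    · left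
      intro s
      obtain ⟨ξ, hξ, η, hη, hne, hn, hs, hz⟩ := h (s * (c.1 * c.2.1))
      refine ⟨ξ, hξ, η, hη, hne, ?_, ?_, ?_⟩
      · rw [Ne, fr_eq_iff (hB ξ (hSS ξ hξ)) (hB' η (hSS η hη))]
        exact hn
      · rw [chi_fr_sub h0.sign (hB ξ (hSS ξ hξ)) (hB' η (hSS η hη)) hn, hs,
          (hcon ξ (hS' hξ)).1, (hcon η (hS' hη)).2.1, hxx]
      · rw [fr_eq_iff (hQ ξ (hSS ξ hξ)) (hQ' η (hSS η hη))]
        exact hz
    · right; left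
      intro s₁ s₂
      obtain ⟨ξ, hξ, η, hη, hne, hn, hs, hn2, hs2⟩ := h (s₁ * (c.1 * c.2.1))
        (s₂ * (c.2.2.1 * c.2.2.2))
      refine ⟨ξ, hξ, η, hη, hne, ?_, ?_, ?_, ?_⟩
      · rw [Ne, fr_eq_iff (hB ξ (hSS ξ hξ)) (hB' η (hSS η hη))]
        exact hn
      · rw [chi_fr_sub h0.sign (hB ξ (hSS ξ hξ)) (hB' η (hSS η hη)) hn, hs,
          (hcon ξ (hS' hξ)).1, (hcon η (hS' hη)).2.1, hxx]
      · rw [Ne, fr_eq_iff (hQ ξ (hSS ξ hξ)) (hQ' η (hSS η hη))]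
        exact hn2
      · rw [chi_fr_sub h0.sign (hQ ξ (hSS ξ hξ)) (hQ' η (hSS η hη)) hn2, hs2,
          (hcon ξ (hS' hξ)).2.2.1, (hcon η (hS' hη)).2.2.2, hxx]
    · right; right
      refine ⟨am b / am a, div_ne_zero (am_ne hb) (am_ne ha), ?_⟩
      intro ξ hξ
      refine (h ξ hξ).mono ?_
      rintro η ⟨hη, hne⟩
      refine ⟨hη, fun he => hne ?_⟩
      rw [div_mul_eq_mul_div, eq_div_iff (am_ne ha), ← map_mul, ← map_mul, ← he, mul_comm]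

end

end Pool.Agent.Helper81.Sync
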