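import Pool.Agent.Helper81.Sync.Main

/-!
The synchronizing group of uncountable degree that is not 2-homogeneous.
-/

set_option autoImplicit false
set_option linter.unusedSectionVars false

namespace Pool.Agent.Helper81.Sync

open MvPolynomial

section

variable {I : Type}

/-- The affine permutation `x ↦ a x + b`. -/
noncomputable def aff (a b : KK I) (ha : a ≠ 0) : Equiv.Perm (KK I) where
  toFun x := a * x + b
  invFun x := a⁻¹ * (x - b)
  left_inv x := by
    show a⁻¹ * (a * x + b - b) = x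
    rw [add_sub_cancel_right, ← mul_assoc, inv_mul_cancel₀ ha, one_mul]
  right_inv x := by
    show a * (a⁻¹ * (x - b)) + b = x
    rw [← mul_assoc, mul_inv_cancel₀ ha, one_mul, sub_add_cancel]

/-- The group of the maps `x ↦ a x + b` with `χ(a) = 1`. -/
def GG (χ : RR I → ℤˣ) (hχ : IsSign χ) : Subgroup (Equiv.Perm (KK I)) where
  carrier := {g | ∃ a b : KK I, a ≠ 0 ∧ chi χ a = 1 ∧ ∀ x, g x = a * x + b}
  mul_mem' := by
    rintro g h ⟨a, b, ha, ha1, hg⟩ ⟨c, d, hc, hc1, hh⟩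
    refine ⟨a * c, a * d + b, mul_ne_zero ha hc, ?_, ?_⟩
    · rw [chi_mul hχ ha hc, ha1, hc1, one_mul]
    · intro x
      rw [Equiv.Perm.mul_apply, hh, hg]
      ring
  one_mem' := ⟨1, 0, one_ne_zero, chi_one hχ, fun x => by simp⟩
  inv_mem' := by
    rintro g ⟨a, b, ha, ha1, hg⟩
    refine ⟨a⁻¹, -(a⁻¹ * b), inv_ne_zero ha, ?_, ?_⟩
    · rw [chi_inv hχ ha, ha1]
    · intro x
      rw [Equiv.Perm.inv_eq_iff_eq, hg]
      field_simp
      ring

theorem aff_mem {χ : RR I → ℤˣ} (hχ : IsSign χ) {a b : KK I} (ha : a ≠ 0)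
    (h : chi χ a = 1) : aff a b ha ∈ GG χ hχ := ⟨a, b, ha, h, fun _ => rfl⟩

/-- The monoid generated by `f` and the group. -/
def MM (χ : RR I → ℤˣ) (hχ : IsSign χ) (f : Function.End (KK I)) :
    Submonoid (Function.End (KK I)) :=
  Submonoid.closure ({f} ∪ {k : Function.End (KK I) |
    ∃ g ∈ GG χ hχ, k = ((g : Equiv.Perm (KK I)) : KK I → KK I)})

theorem transfer {χ : RR I → ℤˣ} (hχ : IsSign χ) (f : Function.End (KK I)) {v w x y : KK I}
    (hvw : v ≠ w) (hxy : x ≠ y) (hs : chi χ (x - y) = chi χ (v - w))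
    (h : ∀ h ∈ MM χ hχ f, (h : KK I → KK I) v ≠ (h : KK I → KK I) w) :
    ∀ h ∈ MM χ hχ f, (h : KK I → KK I) x ≠ (h : KK I → KK I) y := by
  intro k hk heq
  have hvw' : v - w ≠ 0 := sub_ne_zero.2 hvw
  have hxy' : x - y ≠ 0 := sub_ne_zero.2 hxy
  have ha : (x - y) / (v - w) ≠ 0 := div_ne_zero hxy' hvw'
  have hchi : chi χ ((x - y) / (v - w)) = 1 := by
    rw [div_eq_mul_inv, chi_mul hχ hxy' (inv_ne_zero hvw'), chi_inv hχ hvw', hs,
      Int.units_mul_self]
  set g := aff ((x - y) / (v - w)) (x - (x - y) / (v - w) * v) ha with hg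
  have hgv : g v = x := by
    show (x - y) / (v - w) * v + (x - (x - y) / (v - w) * v) = x
    ring
  have hgw : g w = y := by
    show (x - y) / (v - w) * w + (x - (x - y) / (v - w) * v) = y
    field_simp
    ring
  have hgM : (((g : Equiv.Perm (KK I)) : KK I → KK I) : Function.End (KK I)) ∈ MM χ hχ f :=
    Submonoid.subset_closure (Or.inr ⟨g, aff_mem hχ ha hchi, rfl⟩)
  have hmem := (MM χ hχ f).mul_mem hk hgM
  apply h _ hmem
  show k (g v) = k (g w)
  rw [hgv, hgw]
  exact heq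

end

section

variable {I : Type} [LinearOrder I] [WellFoundedLT I] [Uncountable I]

theorem synchronizing {r : I → ℕ → Bool} {D : Finset I → I} {col : I → Code}
    {χ : RR I → ℤˣ} (h0 : Good0 I r D col χ) (f : Function.End (KK I))
    (hf : ¬ Function.Injective (f : KK I → KK I)) (v w : KK I) :
    ∃ h ∈ MM χ h0.sign f, (h : KK I → KK I) v = (h : KK I → KK I) w := by
  classical
  by_contra hcon
  push Not at hcon
  have hχ := h0.sign
  have hvw : v ≠ w := hcon 1 (Submonoid.one_mem _)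
  have hfM : f ∈ MM χ hχ f := Submonoid.subset_closure (Or.inl rfl)
  set s := chi χ (v - w) with hs
  have hA : ∀ x y, x ≠ y → chi χ (x - y) = s → ∀ h ∈ MM χ hχ f,
      (h : KK I → KK I) x ≠ (h : KK I → KK I) y :=
    fun x y hxy hxs => transfer hχ f hvw hxy hxs hcon
  have hpres : ∀ x y, x ≠ y → chi χ (x - y) = s → f x ≠ f y ∧ chi χ (f x - f y) = s := by
    intro x y hxy hxs
    have h1 : f x ≠ f y := hA x y hxy hxs f hfM
    refine ⟨h1, ?_⟩
    by_contra hne
    have h2 : chi χ (f x - f y) = -s := by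
      rcases unit_eq_or (a := s) (s := chi χ (f x - f y)) with h | h
      · exact absurd h hne
      · exact h
    have h3 : ∀ h ∈ MM χ hχ f, (h : KK I → KK I) (f x) ≠ (h : KK I → KK I) (f y) := by
      intro k hk heq
      exact hA x y hxy hxs (k * f) ((MM χ hχ f).mul_mem hk hfM) heq
    apply hf
    intro a b hab
    by_contra hne'
    rcases unit_eq_or (a := s) (s := chi χ (a - b)) with h | h
    · exact hA a b hne' h f hfM hab
    · exact transfer hχ f h1 hne' (by rw [h, h2]) h3 f hfM hab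
  rcases Int.units_eq_one_or s with h1 | h1
  · rw [h1] at hpres
    exact hf (edgePres_injective h0 hpres)
  · rw [h1] at hpres
    obtain ⟨ξ0, _⟩ := nonempty_of_unc (S := (Set.univ : Set I)) Set.not_countable_univ
    have hc0s : chi χ (tt ξ0 + 1) = -1 := chi_tt_one h0 ξ0
    have hc0 : tt ξ0 + 1 ≠ 0 := by
      have := tt_add_ne ξ0 1
      simpa using this
    set c0 : KK I := tt ξ0 + 1
    have hpres' : EdgePres χ (fun x => c0⁻¹ * f (c0 * x)) := by
      intro x y hxy hxs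
      have h2 : c0 * x ≠ c0 * y := fun h => hxy (mul_left_cancel₀ hc0 h)
      have h3 : chi χ (c0 * x - c0 * y) = -1 := by
        rw [← mul_sub, chi_mul hχ hc0 (sub_ne_zero.2 hxy), hc0s, hxs, mul_one]
      obtain ⟨h4, h5⟩ := hpres _ _ h2 h3
      refine ⟨fun h => h4 (mul_left_cancel₀ (inv_ne_zero hc0) h), ?_⟩
      show chi χ (c0⁻¹ * f (c0 * x) - c0⁻¹ * f (c0 * y)) = 1
      rw [← mul_sub, chi_mul hχ (inv_ne_zero hc0) (sub_ne_zero.2 h4), chi_inv hχ hc0, hc0s, h5]
      decide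
    apply hf
    intro x y hxy
    have h6 := edgePres_injective h0 hpres' (a₁ := c0⁻¹ * x) (a₂ := c0⁻¹ * y) (by
      show c0⁻¹ * f (c0 * (c0⁻¹ * x)) = c0⁻¹ * f (c0 * (c0⁻¹ * y))
      rw [mul_inv_cancel_left₀ hc0, mul_inv_cancel_left₀ hc0, hxy])
    exact mul_left_cancel₀ (inv_ne_zero hc0) h6

theorem not_homogeneous {r : I → ℕ → Bool} {D : Finset I → I} {col : I → Code}
    {χ : RR I → ℤˣ} (h0 : Good0 I r D col χ) :
    ¬ (∀ a b c d : KK I, a ≠ b → c ≠ d →
      ∃ g ∈ GG χ h0.sign, (g : KK I → KK I) '' {a, b} = {c, d}) := by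
  intro h
  have hχ := h0.sign
  obtain ⟨ξ0, _⟩ := nonempty_of_unc (S := (Set.univ : Set I)) Set.not_countable_univ
  have hc0s : chi χ (tt ξ0 + 1) = -1 := chi_tt_one h0 ξ0
  have hc0 : tt ξ0 + 1 ≠ 0 := by
    have := tt_add_ne ξ0 1
    simpa using this
  set c0 : KK I := tt ξ0 + 1
  obtain ⟨g, ⟨a, b, ha, ha1, hg⟩, himg⟩ := h 0 1 0 c0 zero_ne_one hc0.symm
  have h1 : g 0 ∈ ({0, c0} : Set (KK I)) := by
    rw [← himg]; exact ⟨0, by simp, rfl⟩
  have h2 : g 1 ∈ ({0, c0} : Set (KK I)) := by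
    rw [← himg]; exact ⟨1, by simp, rfl⟩
  rw [hg, mul_zero, zero_add] at h1
  rw [hg, mul_one] at h2
  have hac : a = c0 ∨ a = -c0 := by
    rcases h1 with h1 | h1 <;> rcases h2 with h2 | h2
    · exfalso; apply ha; rw [h1] at h2; simpa using h2
    · left
      have h2' : a + b = c0 := h2
      rw [h1, add_zero] at h2'
      exact h2'
    · right
      have h1' : b = c0 := h1
      rw [h1'] at h2
      linear_combination h2
    · exfalso
      apply ha
      have h1' : b = c0 := h1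
      have h2' : a + b = c0 := h2
      rw [h1'] at h2'
      linear_combination h2'
  have h3 : chi χ a = -1 := by
    rcases hac with h | h
    · rw [h]; exact hc0s
    · rw [h, chi_neg hχ hc0]; exact hc0s
  rw [ha1] at h3
  exact absurd h3 (by decide)

end

theorem counterexample : ∃ Ω : Type, Uncountable Ω ∧ ∃ G : Subgroup (Equiv.Perm Ω),
    (∀ f : Function.End Ω, ¬ Function.Injective (f : Ω → Ω) →
      ∀ v w : Ω, ∃ h ∈ Submonoid.closure
        ({f} ∪ {k : Function.End Ω | ∃ g ∈ G, k = ((g : Equiv.Perm Ω) : Ω → Ω)}),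
          (h : Ω → Ω) v = (h : Ω → Ω) w) ∧
    ¬ (∀ a b c d : Ω, a ≠ b → c ≠ d → ∃ g ∈ G, (g : Ω → Ω) '' {a, b} = {c, d}) := by
  obtain ⟨I, hlin, hwf, hunc, hlow, r, hr⟩ := exists_index
  obtain ⟨D, col, hstrong⟩ := strong_coloring hlow r hr Code
  obtain ⟨χ, hχ, hirr⟩ := exists_isSign (eps r D col) (eps_associated r D col)
  have h0 : Good0 I r D col χ := ⟨hr, hlow, hstrong, hχ, hirr⟩
  exact ⟨KK I, (tt_injective (I := I)).uncountable, GG χ hχ,
    fun f hf v w => synchronizing h0 f hf v w, not_homogeneous h0⟩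

end Pool.Agent.Helper81.Sync
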