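import Pool.Agent.Helper81.Sync.Unif

/-!
The independence lemma for cross differences of families of reduced fractions.
-/

set_option autoImplicit false
set_option linter.unusedSectionVars false

namespace Pool.Agent.Helper81.Sync

open MvPolynomial

section

variable {I : Type} [LinearOrder I] [WellFoundedLT I] [Uncountable I]

/-- The cross difference in `ℚ[t]`. -/
noncomputable def nn (P Q P' Q' : MvPolynomial I ℚ) : MvPolynomial I ℚ := P * Q' - Q * P'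

theorem rename_cr {n : ℕ} {J : Set (Fin n)} {r : I → ℕ → Bool} {S : Set I} {ι : I → Fin n → I}
    {m : ℕ} {l : Fin n → List Bool} (hF : Fam r S n ι J m l) {ξ η : I} (hξ : ξ ∈ S) (hη : η ∈ S)
    (P Q P' Q' : MvPolynomial (Fin n) ℚ) :
    rename (sg ι J ξ η) (cr J P Q P' Q') =
      nn (rename (ι ξ) P) (rename (ι ξ) Q) (rename (ι η) P') (rename (ι η) Q') := by
  have h1 : ∀ p : MvPolynomial (Fin n) ℚ,
      rename (sg ι J ξ η) (rename (lo J) p) = rename (ι ξ) p := by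
    intro p
    rw [rename_rename]
    exact rename_congr (fun i _ => sg_lo ι ξ η i)
  have h2 : ∀ p : MvPolynomial (Fin n) ℚ,
      rename (sg ι J ξ η) (rename (nh J) p) = rename (ι η) p := by
    intro p
    rw [rename_rename]
    exact rename_congr (fun i _ => sg_nh hF hξ hη i)
  unfold cr nn
  rw [map_sub, map_mul, map_mul, h1, h1, h2, h2]

theorem gil {r : I → ℕ → Bool} (hr : Function.Injective r)
    (hI : ∀ a : I, (Set.Iio a).Countable) {D : Finset I → I} {col : I → Code}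
    (hSt : Strong r D col) {χ : MvPolynomial I ℚ → ℤˣ} (hχ : IsSign χ)
    (hε : ∀ f, Irreducible f → χ f = eps r D col f)
    (F : I → Fin 8 → MvPolynomial I ℚ) {S : Set I} (hS : ¬ S.Countable)
    (h01 : ∀ ξ ∈ S, IsRelPrime (F ξ 0) (F ξ 1)) (h23 : ∀ ξ ∈ S, IsRelPrime (F ξ 2) (F ξ 3))
    (h45 : ∀ ξ ∈ S, IsRelPrime (F ξ 4) (F ξ 5)) (h67 : ∀ ξ ∈ S, IsRelPrime (F ξ 6) (F ξ 7))
    (v01 : ∀ ξ ∈ S, ξ ∈ (F ξ 0).vars ∨ ξ ∈ (F ξ 1).vars)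
    (v23 : ∀ ξ ∈ S, ξ ∈ (F ξ 2).vars ∨ ξ ∈ (F ξ 3).vars)
    (hY : (∀ ξ ∈ S, F ξ 4 = F ξ 6 ∧ F ξ 5 = F ξ 7) ∨
      (∀ ξ ∈ S, (ξ ∈ (F ξ 4).vars ∨ ξ ∈ (F ξ 5).vars) ∧ (ξ ∈ (F ξ 6).vars ∨ ξ ∈ (F ξ 7).vars))) :
    ∃ S' ⊆ S, ¬ S'.Countable ∧
      (∀ s : ℤˣ, ∃ ξ ∈ S', ∃ η ∈ S', ξ ≠ η ∧ nn (F ξ 0) (F ξ 1) (F η 2) (F η 3) ≠ 0 ∧
        χ (nn (F ξ 0) (F ξ 1) (F η 2) (F η 3)) = s) ∧
      ((∀ s : ℤˣ, ∃ ξ ∈ S', ∃ η ∈ S', ξ ≠ η ∧ nn (F ξ 0) (F ξ 1) (F η 2) (F η 3) ≠ 0 ∧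
        χ (nn (F ξ 0) (F ξ 1) (F η 2) (F η 3)) = s ∧
        nn (F ξ 4) (F ξ 5) (F η 6) (F η 7) = 0) ∨
      (∀ s₁ s₂ : ℤˣ, ∃ ξ ∈ S', ∃ η ∈ S', ξ ≠ η ∧ nn (F ξ 0) (F ξ 1) (F η 2) (F η 3) ≠ 0 ∧
        χ (nn (F ξ 0) (F ξ 1) (F η 2) (F η 3)) = s₁ ∧
        nn (F ξ 4) (F ξ 5) (F η 6) (F η 7) ≠ 0 ∧
        χ (nn (F ξ 4) (F ξ 5) (F η 6) (F η 7)) = s₂) ∨
      (∃ a b : MvPolynomial I ℚ, a ≠ 0 ∧ b ≠ 0 ∧ ∀ ξ ∈ S',
        {η ∈ S' | ¬ (a * nn (F ξ 4) (F ξ 5) (F η 6) (F η 7) =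
          b * nn (F ξ 0) (F ξ 1) (F η 2) (F η 3))}.Countable)) := by
  classical
  obtain ⟨S', hS', n, ι, J, m, l, hF, hinj, G, i₀, hG⟩ := uniformize r hr F hS
  have hne : S'.Nonempty := by
    by_contra hcon
    rw [Set.not_nonempty_iff_eq_empty] at hcon
    exact hF.unc (hcon ▸ Set.countable_empty)
  obtain ⟨ξ0, hξ0⟩ := hne
  have hi₀ : i₀ ∉ J := by
    intro hc
    apply hF.unc
    have : S' ⊆ {ξ0} := by
      intro ξ hξ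
      have := hF.root ξ hξ ξ0 hξ0 i₀ hc
      rw [(hG ξ hξ).1, (hG ξ0 hξ0).1] at this
      exact this
    exact (Set.countable_singleton _).mono this
  have hrel : ∀ j k : Fin 8, (∀ ξ ∈ S, IsRelPrime (F ξ j) (F ξ k)) → IsRelPrime (G j) (G k) := by
    intro j k h
    rw [← isRelPrime_rename_iff (hinj ξ0 hξ0), ← (hG ξ0 hξ0).2 j, ← (hG ξ0 hξ0).2 k]
    exact h ξ0 (hS' hξ0)
  have hvar : ∀ j k : Fin 8, (∀ ξ ∈ S, ξ ∈ (F ξ j).vars ∨ ξ ∈ (F ξ k).vars) →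
      i₀ ∈ (G j).vars ∨ i₀ ∈ (G k).vars := by
    intro j k h
    have h1 := h ξ0 (hS' hξ0)
    rw [(hG ξ0 hξ0).2 j, (hG ξ0 hξ0).2 k] at h1
    have h2 : ξ0 = ι ξ0 i₀ := (hG ξ0 hξ0).1.symm
    rw [← mem_vars_rename_iff (hinj ξ0 hξ0), ← mem_vars_rename_iff (hinj ξ0 hξ0), ← h2]
    exact h1
  have hA : Good n J (cr J (G 0) (G 1) (G 2) (G 3)) :=
    good_cr (hrel 0 1 h01) (hrel 2 3 h23) hi₀ (hvar 0 1 v01) (hvar 2 3 v23)
  have hren : ∀ ξ ∈ S', ∀ η ∈ S', ∀ a b c d : Fin 8,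
      rename (sg ι J ξ η) (cr J (G a) (G b) (G c) (G d)) =
        nn (F ξ a) (F ξ b) (F η c) (F η d) := by
    intro ξ hξ η hη a b c d
    rw [rename_cr hF hξ hη, ← (hG ξ hξ).2, ← (hG ξ hξ).2, ← (hG η hη).2, ← (hG η hη).2]
  have hneq : ∀ ξ ∈ S', ∀ η ∈ S', Ord ι J ξ η → ξ ≠ η := by
    intro ξ hξ η hη ho
    have := ho i₀ i₀ hi₀
    rw [(hG ξ hξ).1, (hG η hη).1] at this
    exact this.ne
  have hnz : ∀ ξ ∈ S', ∀ η ∈ S', Ord ι J ξ η → ∀ p : MvPolynomial (VV n J) ℚ, p ≠ 0 →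
      rename (sg ι J ξ η) p ≠ 0 := by
    intro ξ hξ η hη ho p hp h0
    exact hp (rename_injective _ (sg_injective hF hξ hη ho) (by rw [h0, map_zero]))
  refine ⟨S', hS', hF.unc, ?_, ?_⟩
  · intro s
    obtain ⟨ξ, hξ, η, hη, ho, hs⟩ := ctrl1 hSt hχ hε hF hA s
    refine ⟨ξ, hξ, η, hη, hneq ξ hξ η hη ho, ?_, ?_⟩
    · rw [← hren ξ hξ η hη 0 1 2 3]
      exact hnz ξ hξ η hη ho _ hA.ne
    · rw [← hren ξ hξ η hη 0 1 2 3]
      exact hs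
  · have main : Good n J (cr J (G 4) (G 5) (G 6) (G 7)) → ((∀ s₁ s₂ : ℤˣ, ∃ ξ ∈ S', ∃ η ∈ S',
        ξ ≠ η ∧ nn (F ξ 0) (F ξ 1) (F η 2) (F η 3) ≠ 0 ∧
        χ (nn (F ξ 0) (F ξ 1) (F η 2) (F η 3)) = s₁ ∧
        nn (F ξ 4) (F ξ 5) (F η 6) (F η 7) ≠ 0 ∧
        χ (nn (F ξ 4) (F ξ 5) (F η 6) (F η 7)) = s₂) ∨
      (∃ a b : MvPolynomial I ℚ, a ≠ 0 ∧ b ≠ 0 ∧ ∀ ξ ∈ S',
        {η ∈ S' | ¬ (a * nn (F ξ 4) (F ξ 5) (F η 6) (F η 7) =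
          b * nn (F ξ 0) (F ξ 1) (F η 2) (F η 3))}.Countable)) := by
      intro hB
      rcases ctrl2 hSt hχ hε hF hA hB with h | ⟨α, β, hα0, hβ0, hα, hβ, hαβ⟩
      · left
        intro s₁ s₂
        obtain ⟨ξ, hξ, η, hη, ho, h1, h2⟩ := h s₁ s₂
        refine ⟨ξ, hξ, η, hη, hneq ξ hξ η hη ho, ?_, ?_, ?_, ?_⟩
        · rw [← hren ξ hξ η hη 0 1 2 3]; exact hnz ξ hξ η hη ho _ hA.ne
        · rw [← hren ξ hξ η hη 0 1 2 3]; exact h1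
        · rw [← hren ξ hξ η hη 4 5 6 7]; exact hnz ξ hξ η hη ho _ hB.ne
        · rw [← hren ξ hξ η hη 4 5 6 7]; exact h2
      · right
        obtain ⟨ξ1, hξ1, η1, hη1, ho1, _⟩ := ctrl1 hSt hχ hε hF hA 1
        refine ⟨rename (sg ι J ξ1 η1) α, rename (sg ι J ξ1 η1) β, hnz ξ1 hξ1 η1 hη1 ho1 α hα0,
          hnz ξ1 hξ1 η1 hη1 ho1 β hβ0, ?_⟩
        intro ξ hξ
        have hsub : {η ∈ S' | ¬ (rename (sg ι J ξ1 η1) α * nn (F ξ 4) (F ξ 5) (F η 6) (F η 7) =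
            rename (sg ι J ξ1 η1) β * nn (F ξ 0) (F ξ 1) (F η 2) (F η 3))} ⊆
            ⋃ i, {η ∈ S' | ∃ j, j ∉ J ∧ ι η j ≤ ι ξ i} := by
          rintro η ⟨hη, hne⟩
          by_contra hcon
          apply hne
          simp only [Set.mem_iUnion, Set.mem_setOf_eq, not_exists, not_and] at hcon
          rw [← hren ξ hξ η hη 0 1 2 3, ← hren ξ hξ η hη 4 5 6 7,
            rename_root (η := η1) (η' := η) hF hξ1 hξ hα,
            rename_root (η := η1) (η' := η) hF hξ1 hξ hβ, ← map_mul, ← map_mul, hαβ]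
        exact (Set.countable_iUnion fun i => countable_low hI hF.free (ι ξ i)).mono hsub
    rcases hY with hY | hY
    · have h46 : G 4 = G 6 ∧ G 5 = G 7 := by
        have h1 := hY ξ0 (hS' hξ0)
        rw [(hG ξ0 hξ0).2, (hG ξ0 hξ0).2, (hG ξ0 hξ0).2, (hG ξ0 hξ0).2] at h1
        exact ⟨rename_injective _ (hinj ξ0 hξ0) h1.1, rename_injective _ (hinj ξ0 hξ0) h1.2⟩
      by_cases hex : ∃ i, i ∉ J ∧ (i ∈ (G 4).vars ∨ i ∈ (G 5).vars)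
      · obtain ⟨i, hiJ, hi⟩ := hex
        right
        apply main
        refine good_cr (hrel 4 5 h45) (hrel 6 7 h67) hiJ hi ?_
        rw [← h46.1, ← h46.2]
        exact hi
      · left
        push Not at hex
        have hlo : ∀ p : MvPolynomial (Fin n) ℚ, (∀ i ∈ p.vars, i ∈ J) →
            rename (lo J) p = rename (nh J) p := by
          intro p hp
          apply rename_congr
          intro i hi
          unfold nh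
          rw [dif_pos (hp i hi)]
        have h4 : ∀ i ∈ (G 4).vars, i ∈ J := fun i hi => by
          by_contra hc
          exact (hex i hc).1 hi
        have h5 : ∀ i ∈ (G 5).vars, i ∈ J := fun i hi => by
          by_contra hc
          exact (hex i hc).2 hi
        have hz : cr J (G 4) (G 5) (G 6) (G 7) = 0 := by
          unfold cr
          rw [← h46.1, ← h46.2, hlo _ h4, hlo _ h5]
          ring
        intro s
        obtain ⟨ξ, hξ, η, hη, ho, hs⟩ := ctrl1 hSt hχ hε hF hA s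
        refine ⟨ξ, hξ, η, hη, hneq ξ hξ η hη ho, ?_, ?_, ?_⟩
        · rw [← hren ξ hξ η hη 0 1 2 3]; exact hnz ξ hξ η hη ho _ hA.ne
        · rw [← hren ξ hξ η hη 0 1 2 3]; exact hs
        · rw [← hren ξ hξ η hη 4 5 6 7, hz, map_zero]
    · right
      apply main
      exact good_cr (hrel 4 5 h45) (hrel 6 7 h67) hi₀ (hvar 4 5 fun ξ hξ => (hY ξ hξ).1)
        (hvar 6 7 fun ξ hξ => (hY ξ hξ).2)

end

end Pool.Agent.Helper81.Sync
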