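import Pool.Agent.Helper81.Sync.Final

/-!
The graph of the character on the field `KK I`, its automorphisms and its endomorphisms, and the
cardinality of the field.
-/

set_option autoImplicit false
set_option linter.unusedSectionVars false

namespace Pool.Agent.Helper81.Sync

open MvPolynomial

universe u

/-- Automorphisms of a graph, as a predicate on permutations. -/
def IsAut {Ω : Type u} (Γ : SimpleGraph Ω) (g : Equiv.Perm Ω) : Prop :=
  ∀ v w, Γ.Adj v w ↔ Γ.Adj (g v) (g w)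

/-- What is needed from the graph. -/
structure Rich {Ω : Type u} (Γ : SimpleGraph Ω) : Prop where
  edge : ∃ v w, Γ.Adj v w
  nonedge : ∃ v w, Γᶜ.Adj v w
  point : ∀ v v', ∃ g : Equiv.Perm Ω, IsAut Γ g ∧ g v = v'
  arc : ∀ v w v' w', Γ.Adj v w → Γ.Adj v' w' →
    ∃ g : Equiv.Perm Ω, IsAut Γ g ∧ g v = v' ∧ g w = w'
  arc' : ∀ v w v' w', Γᶜ.Adj v w → Γᶜ.Adj v' w' →
    ∃ g : Equiv.Perm Ω, IsAut Γ g ∧ g v = v' ∧ g w = w'
  hom : ∀ f : Ω → Ω, (∀ v w, Γ.Adj v w → Γ.Adj (f v) (f w)) →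
    ∃ g : Equiv.Perm Ω, IsAut Γ g ∧ f = g
  hom' : ∀ f : Ω → Ω, (∀ v w, Γᶜ.Adj v w → Γᶜ.Adj (f v) (f w)) →
    ∃ g : Equiv.Perm Ω, IsAut Γ g ∧ f = g

section

variable {I : Type}

/-- The graph `χ(x - y) = 1`. -/
def GrK (χ : RR I → ℤˣ) (hχ : IsSign χ) : SimpleGraph (KK I) where
  Adj x y := x ≠ y ∧ chi χ (x - y) = 1
  symm := ⟨by
    rintro x y ⟨h1, h2⟩
    refine ⟨h1.symm, ?_⟩
    have h3 : y - x = -(x - y) := by ring
    rw [h3, chi_neg hχ (sub_ne_zero.2 h1)]
    exact h2⟩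
  loopless := ⟨fun x h => h.1 rfl⟩

theorem compl_adj {χ : RR I → ℤˣ} (hχ : IsSign χ) (x y : KK I) :
    (GrK χ hχ)ᶜ.Adj x y ↔ x ≠ y ∧ chi χ (x - y) = -1 := by
  rw [SimpleGraph.compl_adj]
  constructor
  · rintro ⟨h1, h2⟩
    refine ⟨h1, ?_⟩
    rcases Int.units_eq_one_or (chi χ (x - y)) with h | h
    · exact absurd ⟨h1, h⟩ h2
    · exact h
  · rintro ⟨h1, h2⟩
    refine ⟨h1, ?_⟩
    rintro ⟨_, h3⟩
    rw [h2] at h3
    exact absurd h3 (by decide)

theorem isAut_aff {χ : RR I → ℤˣ} (hχ : IsSign χ) {a b : KK I} (ha : a ≠ 0)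
    (h : chi χ a = 1) : IsAut (GrK χ hχ) (aff a b ha) := by
  intro x y
  have e1 : aff a b ha x - aff a b ha y = a * (x - y) := by
    show a * x + b - (a * y + b) = a * (x - y)
    ring
  constructor
  · rintro ⟨h1, h2⟩
    refine ⟨fun he => h1 ((aff a b ha).injective he), ?_⟩
    rw [e1, chi_mul hχ ha (sub_ne_zero.2 h1), h, one_mul]
    exact h2
  · rintro ⟨h1, h2⟩
    have h3 : x ≠ y := fun he => h1 (by rw [he])
    refine ⟨h3, ?_⟩
    rw [e1, chi_mul hχ ha (sub_ne_zero.2 h3), h, one_mul] at h2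
    exact h2

theorem arc_of {χ : RR I → ℤˣ} (hχ : IsSign χ) {v w x y : KK I} (hvw : v ≠ w) (hxy : x ≠ y)
    (hs : chi χ (x - y) = chi χ (v - w)) :
    ∃ g : Equiv.Perm (KK I), IsAut (GrK χ hχ) g ∧ g v = x ∧ g w = y := by
  have hvw' : v - w ≠ 0 := sub_ne_zero.2 hvw
  have hxy' : x - y ≠ 0 := sub_ne_zero.2 hxy
  have ha : (x - y) / (v - w) ≠ 0 := div_ne_zero hxy' hvw'
  have hchi : chi χ ((x - y) / (v - w)) = 1 := by
    rw [div_eq_mul_inv, chi_mul hχ hxy' (inv_ne_zero hvw'), chi_inv hχ hvw', hs,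
      Int.units_mul_self]
  refine ⟨aff ((x - y) / (v - w)) (x - (x - y) / (v - w) * v) ha, isAut_aff hχ ha hchi, ?_, ?_⟩
  · show (x - y) / (v - w) * v + (x - (x - y) / (v - w) * v) = x
    ring
  · show (x - y) / (v - w) * w + (x - (x - y) / (v - w) * v) = y
    field_simp
    ring

end

section

variable {I : Type} [LinearOrder I] [WellFoundedLT I] [Uncountable I]

theorem rich_GrK {r : I → ℕ → Bool} {D : Finset I → I} {col : I → Code}
    {χ : RR I → ℤˣ} (h0 : Good0 I r D col χ) : Rich (GrK χ h0.sign) := by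
  classical
  have hχ := h0.sign
  obtain ⟨ξ0, _⟩ := nonempty_of_unc (S := (Set.univ : Set I)) Set.not_countable_univ
  have hc0s : chi χ (tt ξ0 + 1) = -1 := chi_tt_one h0 ξ0
  have hc0 : tt ξ0 + 1 ≠ 0 := by
    have := tt_add_ne ξ0 1
    simpa using this
  set c0 : KK I := tt ξ0 + 1
  have hone : chi χ (1 : KK I) = 1 := chi_one hχ
  -- an edge preserving map is an automorphism
  have hhom : ∀ f : KK I → KK I, EdgePres χ f →
      ∃ g : Equiv.Perm (KK I), IsAut (GrK χ hχ) g ∧ f = g := by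
    intro f hf
    obtain ⟨α, β, hα, h⟩ := edgePres_affine h0 hf
    have hαs : chi χ α = 1 := by
      have h1 := hf 1 0 one_ne_zero (by rw [sub_zero]; exact hone)
      have h2 := h1.2
      rw [h, h] at h2
      have e2 : α * 1 + β - (α * 0 + β) = α := by ring
      rw [e2] at h2
      exact h2
    exact ⟨aff α β hα, isAut_aff hχ hα hαs, funext fun x => h x⟩
  refine ⟨⟨1, 0, one_ne_zero, by rw [sub_zero]; exact hone⟩,
    ⟨c0, 0, (compl_adj hχ _ _).2 ⟨hc0, by rw [sub_zero]; exact hc0s⟩⟩, ?_, ?_, ?_, ?_, ?_⟩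
  · intro v v'
    have h1 : (v : KK I) ≠ v - 1 := by
      intro he
      have h2 : (1 : KK I) = 0 := by linear_combination he
      exact one_ne_zero h2
    have h1' : (v' : KK I) ≠ v' - 1 := by
      intro he
      have h2 : (1 : KK I) = 0 := by linear_combination he
      exact one_ne_zero h2
    obtain ⟨g, hg, hgv, _⟩ := arc_of hχ h1 h1' (by
      have e1 : v' - (v' - 1) = v - (v - 1) := by ring
      rw [e1])
    exact ⟨g, hg, hgv⟩
  · intro v w v' w' h1 h2
    exact arc_of hχ h1.1 h2.1 (by rw [h1.2, h2.2])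
  · intro v w v' w' h1 h2
    rw [compl_adj] at h1 h2
    exact arc_of hχ h1.1 h2.1 (by rw [h1.2, h2.2])
  · intro f hf
    exact hhom f (fun x y hxy hs => hf x y ⟨hxy, hs⟩)
  · intro f hf
    have hpres : ∀ x y, x ≠ y → chi χ (x - y) = -1 → f x ≠ f y ∧ chi χ (f x - f y) = -1 := by
      intro x y hxy hs
      exact (compl_adj hχ _ _).1 (hf x y ((compl_adj hχ _ _).2 ⟨hxy, hs⟩))
    have hpres' : EdgePres χ (fun x => c0⁻¹ * f (c0 * x)) := by
      intro x y hxy hxs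
      have h2 : c0 * x ≠ c0 * y := fun h => hxy (mul_left_cancel₀ hc0 h)
      have h3 : chi χ (c0 * x - c0 * y) = -1 := by
        rw [← mul_sub, chi_mul hχ hc0 (sub_ne_zero.2 hxy), hc0s, hxs, mul_one]
      obtain ⟨h4, h5⟩ := hpres _ _ h2 h3
      refine ⟨fun h => h4 (mul_left_cancel₀ (inv_ne_zero hc0) h), ?_⟩
      show chi χ (c0⁻¹ * f (c0 * x) - c0⁻¹ * f (c0 * y)) = 1
      rw [← mul_sub, chi_mul hχ (inv_ne_zero hc0) (sub_ne_zero.2 h4), chi_inv hχ hc0, hc0s, h5]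
      decide
    obtain ⟨α, β, hα, h⟩ := edgePres_affine h0 hpres'
    have hfx : ∀ x, f x = α * x + c0 * β := by
      intro x
      have h1 := h (c0⁻¹ * x)
      have e1 : c0 * (c0⁻¹ * x) = x := by
        rw [← mul_assoc, mul_inv_cancel₀ hc0, one_mul]
      have h1' : c0⁻¹ * f x = α * (c0⁻¹ * x) + β := by
        rw [← h1]
        show c0⁻¹ * f x = c0⁻¹ * f (c0 * (c0⁻¹ * x))
        rw [e1]
      have h2 : c0 * (c0⁻¹ * f x) = c0 * (α * (c0⁻¹ * x) + β) := by rw [h1']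
      have e2 : c0 * (c0⁻¹ * f x) = f x := by
        rw [← mul_assoc, mul_inv_cancel₀ hc0, one_mul]
      have e3 : c0 * (α * (c0⁻¹ * x) + β) = α * (c0 * (c0⁻¹ * x)) + c0 * β := by ring
      rw [e2, e3, e1] at h2
      exact h2
    have hαs : chi χ α = 1 := by
      have h1 := (hpres c0 0 hc0 (by rw [sub_zero]; exact hc0s)).2
      rw [hfx, hfx] at h1
      have e2 : α * c0 + c0 * β - (α * 0 + c0 * β) = α * c0 := by ring
      rw [e2, chi_mul hχ hα hc0, hc0s, mul_neg, mul_one] at h1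
      exact neg_injective h1
    exact ⟨aff α (c0 * β) hα, isAut_aff hχ hα hαs, funext fun x => hfx x⟩

end

theorem mk_KK {I : Type} (h : Cardinal.mk I = Cardinal.aleph 1) :
    Cardinal.mk (KK I) = Cardinal.aleph 1 := by
  have hne : Nonempty I := by
    rw [← Cardinal.mk_ne_zero_iff, h]
    exact (Cardinal.aleph_pos 1).ne'
  have h1 : Cardinal.mk (RR I) = Cardinal.aleph 1 := by
    rw [MvPolynomial.cardinalMk_eq_max_lift]
    simp [h, Cardinal.aleph0_le_aleph]
  have h2 : Cardinal.mk (KK I) = Cardinal.mk (RR I) :=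
    IsLocalization.cardinalMk (L := KK I) (nonZeroDivisors (RR I)) le_rfl
  rw [h2, h1]

/-- Existence of the index order, with its cardinality. -/
theorem exists_index' : ∃ (I : Type) (_ : LinearOrder I) (_ : WellFoundedLT I),
    Cardinal.mk I = Cardinal.aleph 1 ∧ Uncountable I ∧ (∀ a : I, (Set.Iio a).Countable) ∧
      ∃ r : I → ℕ → Bool, Function.Injective r := by
  classical
  have hmk : Cardinal.mk ((Cardinal.aleph 1).ord.ToType) = Cardinal.aleph 1 := by
    rw [Cardinal.mk_toType, Cardinal.card_ord]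
  refine ⟨(Cardinal.aleph 1).ord.ToType, inferInstance, inferInstance, hmk, ?_, ?_, ?_⟩
  · rw [← Cardinal.aleph0_lt_mk_iff, hmk]
    exact Cardinal.aleph0_lt_aleph_one
  · intro a
    rw [Cardinal.countable_iff_lt_aleph_one]
    exact Cardinal.mk_Iio_toType_ord_lt a
  · have h : Cardinal.mk ((Cardinal.aleph 1).ord.ToType) ≤ Cardinal.mk (ℕ → Bool) := by
      rw [hmk]
      simpa using Cardinal.aleph_one_le_continuum
    obtain ⟨f⟩ := (Cardinal.le_def _ _).1 h
    exact ⟨f, f.injective⟩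

theorem exists_rich : ∃ Ω : Type, Cardinal.mk Ω = Cardinal.aleph 1 ∧
    ∃ Γ : SimpleGraph Ω, Rich Γ := by
  obtain ⟨I, hlin, hwf, hmk, hunc, hlow, r, hr⟩ := exists_index'
  obtain ⟨D, col, hstrong⟩ := strong_coloring hlow r hr Code
  obtain ⟨χ, hχ, hirr⟩ := exists_isSign (eps r D col) (eps_associated r D col)
  have h0 : Good0 I r D col χ := ⟨hr, hlow, hstrong, hχ, hirr⟩
  exact ⟨KK I, mk_KK hmk, GrK χ h0.sign, rich_GrK h0⟩

/-! ### Transport along a bijection -/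

theorem Rich.transport {Ω : Type} {Ω' : Type u} (e : Ω ≃ Ω') {Γ : SimpleGraph Ω} (h : Rich Γ) :
    Rich (Γ.comap e.symm) := by
  have hadj : ∀ a b, (Γ.comap e.symm).Adj a b ↔ Γ.Adj (e.symm a) (e.symm b) := fun _ _ => Iff.rfl
  have hadj' : ∀ a b, (Γ.comap e.symm)ᶜ.Adj a b ↔ Γᶜ.Adj (e.symm a) (e.symm b) := by
    intro a b
    rw [SimpleGraph.compl_adj, SimpleGraph.compl_adj, hadj, e.symm.injective.ne_iff]
  have haut : ∀ g : Equiv.Perm Ω, IsAut Γ g →
      IsAut (Γ.comap e.symm) ((e.symm.trans g).trans e) := by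
    intro g hg a b
    rw [hadj, hadj]
    have h1 := hg (e.symm a) (e.symm b)
    simpa using h1
  refine ⟨?_, ?_, ?_, ?_, ?_, ?_, ?_⟩
  · obtain ⟨v, w, hvw⟩ := h.edge
    exact ⟨e v, e w, by rw [hadj]; simpa using hvw⟩
  · obtain ⟨v, w, hvw⟩ := h.nonedge
    exact ⟨e v, e w, by rw [hadj']; simpa using hvw⟩
  · intro v v'
    obtain ⟨g, hg, h1⟩ := h.point (e.symm v) (e.symm v')
    exact ⟨_, haut g hg, by simp [h1]⟩
  · intro v w v' w' h1 h2
    obtain ⟨g, hg, h3, h4⟩ := h.arc _ _ _ _ ((hadj _ _).1 h1) ((hadj _ _).1 h2)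
    exact ⟨_, haut g hg, by simp [h3], by simp [h4]⟩
  · intro v w v' w' h1 h2
    obtain ⟨g, hg, h3, h4⟩ := h.arc' _ _ _ _ ((hadj' _ _).1 h1) ((hadj' _ _).1 h2)
    exact ⟨_, haut g hg, by simp [h3], by simp [h4]⟩
  · intro f hf
    obtain ⟨g, hg, h1⟩ := h.hom (fun x => e.symm (f (e x))) (by
      intro v w hvw
      have h2 := hf (e v) (e w) (by rw [hadj]; simpa using hvw)
      exact h2)
    refine ⟨_, haut g hg, ?_⟩
    funext x
    have h2 := congrFun h1 (e.symm x)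
    simp only [Equiv.apply_symm_apply] at h2
    show f x = e (g (e.symm x))
    rw [← h2, Equiv.apply_symm_apply]
  · intro f hf
    obtain ⟨g, hg, h1⟩ := h.hom' (fun x => e.symm (f (e x))) (by
      intro v w hvw
      have h2 := hf (e v) (e w) (by rw [hadj']; simpa using hvw)
      exact (hadj' _ _).1 h2)
    refine ⟨_, haut g hg, ?_⟩
    funext x
    have h2 := congrFun h1 (e.symm x)
    simp only [Equiv.apply_symm_apply] at h2
    show f x = e (g (e.symm x))
    rw [← h2, Equiv.apply_symm_apply]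

/-- Every set of cardinality `ℵ₁` carries such a graph. -/
theorem rich_of_mk {Ω : Type u} (h : Cardinal.mk Ω = Cardinal.aleph 1) :
    ∃ Γ : SimpleGraph Ω, Rich Γ := by
  obtain ⟨Ω0, h0, Γ, hΓ⟩ := exists_rich
  have h1 : Cardinal.lift.{u} (Cardinal.mk Ω0) = Cardinal.lift.{0} (Cardinal.mk Ω) := by
    rw [h0, h]
    simp
  obtain ⟨e⟩ := Cardinal.lift_mk_eq'.1 h1
  exact ⟨_, hΓ.transport e⟩

end Pool.Agent.Helper81.Sync
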