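import Pool.Agent.Helper81.Sync.Moebius

/-!
Every map preserving the edges `χ(x - y) = 1` is affine, and the final counterexample.
-/

set_option autoImplicit false
set_option linter.unusedSectionVars false

namespace Pool.Agent.Helper81.Sync

open MvPolynomial

section

variable {I : Type} [LinearOrder I] [WellFoundedLT I] [Uncountable I]

/-! ### Special signs -/

theorem irreducible_X_add_C (ξ : I) (q : ℚ) : Irreducible (X ξ + C q : RR I) := by
  classical
  apply irreducible_of_totalDegree_eq_one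
  · apply le_antisymm
    · refine (totalDegree_add _ _).trans ?_
      simp
    · by_contra hcon
      have h0 : (X ξ + C q : RR I).totalDegree = 0 := by omega
      rw [totalDegree_eq_zero_iff_eq_C] at h0
      have h1 := congrArg (coeff (Finsupp.single ξ 1)) h0
      simp [coeff_C, coeff_X] at h1
  · intro x hx
    have h1 := hx (Finsupp.single ξ 1)
    have hz : (0 : I →₀ ℕ) ≠ Finsupp.single ξ 1 := fun h => by
      have := DFunLike.congr_fun h ξ
      simp at this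
    have h2 : coeff (Finsupp.single ξ 1) (X ξ + C q : RR I) = 1 := by
      simp [coeff_C, coeff_X, hz]
    rw [h2] at h1
    exact isUnit_of_dvd_one h1

theorem vars_X_add_C (ξ : I) (q : ℚ) : (X ξ + C q : RR I).vars ⊆ {ξ} := by
  classical
  refine (vars_add_subset _ _).trans ?_
  simp

theorem eps_X_add_C (r : I → ℕ → Bool) (D : Finset I → I) (col : I → Code) (ξ : I) (q : ℚ) :
    eps r D col (X ξ + C q) = if q = 1 then -1 else 1 := by
  classical
  have hcard : (X ξ + C q : RR I).vars.card ≤ 1 :=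
    (Finset.card_le_card (vars_X_add_C ξ q)).trans (by simp)
  unfold eps
  rw [if_pos hcard]
  by_cases hq : q = 1
  · subst hq
    rw [if_pos rfl, if_pos]
    exact ⟨ξ, by rw [map_one]⟩
  · rw [if_neg hq, if_neg]
    rintro ⟨ζ, hζ⟩
    have h1 := hζ.map (aeval (fun _ : I => (-1 : ℚ)) : RR I →ₐ[ℚ] ℚ)
    simp at h1
    apply hq
    linarith

theorem chi_tt_add {r : I → ℕ → Bool} {D : Finset I → I} {col : I → Code} {χ : RR I → ℤˣ}
    (h0 : Good0 I r D col χ) (ξ : I) (q : ℚ) :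
    chi χ (tt ξ + (q : KK I)) = if q = 1 then -1 else 1 := by
  have h1 : tt ξ + (q : KK I) = am (X ξ + C q) := by
    rw [map_add]
    congr 1
    have : (C q : RR I) = algebraMap ℚ (RR I) q := rfl
    rw [this]
    unfold am
    rw [← IsScalarTower.algebraMap_apply ℚ (RR I) (KK I)]
    simp
  rw [h1, chi_am h0.sign (irreducible_X_add_C ξ q).ne_zero, h0.irr _ (irreducible_X_add_C ξ q),
    eps_X_add_C]

theorem chi_tt {r : I → ℕ → Bool} {D : Finset I → I} {col : I → Code} {χ : RR I → ℤˣ}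
    (h0 : Good0 I r D col χ) (ξ : I) : chi χ (tt ξ) = 1 := by
  have := chi_tt_add h0 ξ 0
  simpa using this

theorem chi_tt_one {r : I → ℕ → Bool} {D : Finset I → I} {col : I → Code} {χ : RR I → ℤˣ}
    (h0 : Good0 I r D col χ) (ξ : I) : chi χ (tt ξ + 1) = -1 := by
  have := chi_tt_add h0 ξ 1
  simpa using this

theorem chi_tt_two {r : I → ℕ → Bool} {D : Finset I → I} {col : I → Code} {χ : RR I → ℤˣ}
    (h0 : Good0 I r D col χ) (ξ : I) : chi χ (tt ξ + 1 + 1) = 1 := by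
  have := chi_tt_add h0 ξ 2
  have h2 : tt ξ + 1 + 1 = tt ξ + ((2 : ℚ) : KK I) := by
    push_cast; ring
  rw [h2, this, if_neg (by norm_num)]

theorem tt_add_ne (ξ : I) (q : ℚ) : tt ξ + (q : KK I) ≠ 0 := by
  intro h
  apply not_ind_tt ξ
  have h1 : tt ξ = -(q : KK I) := by linear_combination h
  rw [h1]
  refine ⟨C (-q), 1, one_ne_zero, by simp, by simp, ?_⟩
  rw [map_one, div_one]
  have : (C (-q) : RR I) = algebraMap ℚ (RR I) (-q) := rfl
  rw [this]
  unfold am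
  rw [← IsScalarTower.algebraMap_apply ℚ (RR I) (KK I)]
  simp

theorem chi_moebius {χ : RR I → ℤˣ} (hχ : IsSign χ) {a b c d p p' x x' : KK I}
    (hdet : a * d - b * c ≠ 0) (h1 : c * p + d ≠ 0) (h2 : c * p' + d ≠ 0)
    (hx : x * (c * p + d) = a * p + b) (hx' : x' * (c * p' + d) = a * p' + b) (hp : p ≠ p')
    (hxx : x ≠ x') : chi χ (x - x') * (chi χ (c * p + d) * chi χ (c * p' + d)) =
      chi χ (a * d - b * c) * chi χ (p - p') := by
  rw [← chi_mul hχ h1 h2, ← chi_mul hχ (sub_ne_zero.2 hxx) (mul_ne_zero h1 h2),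
    ← chi_mul hχ hdet (sub_ne_zero.2 hp)]
  congr 1
  linear_combination (c * p' + d) * hx - (c * p + d) * hx'

/-- Edge-preserving maps. -/
def EdgePres (χ : RR I → ℤˣ) (φ : KK I → KK I) : Prop :=
  ∀ x y, x ≠ y → chi χ (x - y) = 1 → φ x ≠ φ y ∧ chi χ (φ x - φ y) = 1

theorem hyp1_of_edgePres {χ : RR I → ℤˣ} (hχ : IsSign χ) {φ : KK I → KK I}
    (hφ : EdgePres χ φ) {u v : KK I} (hu : u ≠ 0) {S : Set I} :
    ∀ ξ ∈ S, ∀ η ∈ S, ξ ≠ η → chi χ (tt ξ - tt η) = chi χ u →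
      φ (u * tt ξ + v) ≠ φ (u * tt η + v) ∧
        chi χ (φ (u * tt ξ + v) - φ (u * tt η + v)) = 1 := by
  intro ξ _ η _ hne h
  have hne' : u * tt ξ + v ≠ u * tt η + v := by
    intro he
    exact hne (tt_injective (mul_left_cancel₀ hu (add_right_cancel he)))
  apply hφ _ _ hne'
  have h1 : u * tt ξ + v - (u * tt η + v) = u * (tt ξ - tt η) := by ring
  rw [h1, chi_mul hχ hu (sub_ne_zero.2 (fun he => hne (tt_injective he))), h, Int.units_mul_self]

theorem mul_eq_of_nu_de {y a b c d t : KK I} (h : am (nu y) = a * t + b ∧ am (de y) = c * t + d) :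
    c * t + d ≠ 0 ∧ y * (c * t + d) = a * t + b := by
  rw [← h.1, ← h.2]
  refine ⟨am_ne (de_ne _), ?_⟩
  have := nu_div_de y
  rw [div_eq_iff (am_ne (de_ne _))] at this
  exact this.symm

/-- The affine comparison: on an uncountable set, `φ (u t + v) = m (u t + v)`. -/
theorem compare {r : I → ℕ → Bool} {D : Finset I → I} {col : I → Code} {χ : RR I → ℤˣ}
    (h0 : Good0 I r D col χ) {φ : KK I → KK I} (hφ : EdgePres χ φ) {S : Set I}
    (hS : ¬ S.Countable) {a b c d : KK I} (hdet : a * d - b * c ≠ 0)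
    (hy : ∀ ξ ∈ S, am (nu (φ (tt ξ))) = a * tt ξ + b ∧ am (de (φ (tt ξ))) = c * tt ξ + d)
    {u v : KK I} (hu : u ≠ 0) :
    ∃ S' ⊆ S, ¬ S'.Countable ∧ ∀ η ∈ S', c * (u * tt η + v) + d ≠ 0 ∧
      φ (u * tt η + v) * (c * (u * tt η + v) + d) = a * (u * tt η + v) + b := by
  obtain ⟨S2, hS2, hunc2, a', b', c', d', hdet', hy'⟩ := moebius1 h0 hS
    (fun ξ => φ (u * tt ξ + v)) (chi χ u) (hyp1_of_edgePres h0.sign hφ hu)
  obtain ⟨S3, hS3, hunc3, h3⟩ := moebius2 h0 hunc2 (fun ξ => φ (tt ξ))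
    (fun ξ => φ (u * tt ξ + v)) hdet hdet' hu (fun ξ hξ => hy ξ (hS2 hξ)) hy'
    (v := v) (fun ξ _ η _ _ h1 h2 => hφ _ _ h1 h2)
  exact ⟨S3, fun ξ hξ => hS2 (hS3 hξ), hunc3, h3⟩

theorem edgePres_affine {r : I → ℕ → Bool} {D : Finset I → I} {col : I → Code} {χ : RR I → ℤˣ}
    (h0 : Good0 I r D col χ) {φ : KK I → KK I} (hφ : EdgePres χ φ) :
    ∃ α β : KK I, α ≠ 0 ∧ ∀ x, φ x = α * x + β := by
  classical
  have huniv : ¬ (Set.univ : Set I).Countable := Set.not_countable_univ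
  obtain ⟨S1, _, hunc1, a, b, c, d, hdet, hy⟩ := moebius1 h0 huniv (fun ξ => φ (tt ξ)) 1
    (fun ξ _ η _ hne h => hφ _ _ (fun he => hne (tt_injective he)) h)
  have hm : ∀ ξ ∈ S1, c * tt ξ + d ≠ 0 ∧ φ (tt ξ) * (c * tt ξ + d) = a * tt ξ + b :=
    fun ξ hξ => mul_eq_of_nu_de (hy ξ hξ)
  -- `c = 0`
  have hc : c = 0 := by
    by_contra hc
    obtain ⟨ξ0, _⟩ := nonempty_of_unc hunc1
    set c0 : KK I := tt ξ0 + 1 with hc0
    have hc0ne : c0 ≠ 0 := by
      have := tt_add_ne ξ0 1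
      simpa using this
    have hc0s : chi χ c0 = -1 := chi_tt_one h0 ξ0
    obtain ⟨S3, hS3, hunc3, h3⟩ := compare h0 hφ hunc1 hdet hy (u := c0)
      (v := (1 - c0) * (-d / c)) hc0ne
    obtain ⟨σ, hσ⟩ := pigeon hunc3 (fun ξ => chi χ (c * tt ξ + d))
    have hxx : ∀ w : ℤˣ, w * w = 1 := Int.units_mul_self
    obtain ⟨ξ, hξ, η, hη, hne, h4, h5⟩ := signX h0 hσ (u := 1) (v := 0) one_ne_zero 1
    have e1 : (1 : KK I) * tt η + 0 = tt η := by ring
    rw [e1] at h4 h5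
    have h6 := hφ _ _ h4 h5
    have h7 := chi_moebius h0.sign hdet (hm ξ (hS3 hξ.1)).1 (hm η (hS3 hη.1)).1
      (hm ξ (hS3 hξ.1)).2 (hm η (hS3 hη.1)).2 h4 h6.1
    rw [h6.2, hξ.2, hη.2, h5, hxx, mul_one, mul_one] at h7
    obtain ⟨ξ, hξ, η, hη, hne, h4, h5⟩ := signX h0 hσ (u := c0) (v := (1 - c0) * (-d / c))
      hc0ne 1
    have h8 := hφ _ _ h4 h5
    have h9 := chi_moebius h0.sign hdet (hm ξ (hS3 hξ.1)).1 (h3 η hη.1).1
      (hm ξ (hS3 hξ.1)).2 (h3 η hη.1).2 h4 h8.1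
    have e2 : c * (c0 * tt η + (1 - c0) * (-d / c)) + d = c0 * (c * tt η + d) := by
      field_simp
      ring
    rw [h8.2, e2, chi_mul h0.sign hc0ne (hm η (hS3 hη.1)).1, hξ.2, hη.2, h5, ← h7, hc0s] at h9
    have h10 : σ * (-1 * σ) = -1 := by
      rw [neg_one_mul, mul_neg, hxx]
    rw [h10] at h9
    exact absurd h9 (by decide)
  subst hc
  have hd : d ≠ 0 := by
    rintro rfl
    simp at hdet
  have ha : a ≠ 0 := by
    rintro rfl
    simp at hdet
  set α := a / d with hα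
  set β := b / d with hβ
  have hα0 : α ≠ 0 := div_ne_zero ha hd
  have hcomp : ∀ u v : KK I, u ≠ 0 → ∃ S' ⊆ S1, ¬ S'.Countable ∧ ∀ η ∈ S',
      φ (u * tt η + v) = α * (u * tt η + v) + β := by
    intro u v hu
    obtain ⟨S', hS', hunc', h'⟩ := compare h0 hφ hunc1 hdet hy (u := u) (v := v) hu
    refine ⟨S', hS', hunc', fun η hη => ?_⟩
    have h1 := (h' η hη).2
    rw [zero_mul, zero_add] at h1
    rw [hα, hβ]
    field_simp
    linear_combination h1
  have hφt : ∀ ξ ∈ S1, φ (tt ξ) = α * tt ξ + β := by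
    intro ξ hξ
    have h1 := (hm ξ hξ).2
    rw [zero_mul, zero_add] at h1
    rw [hα, hβ]
    field_simp
    linear_combination h1
  have hαs : chi χ α = 1 := by
    obtain ⟨ξ, hξ, η, hη, hne, h4, h5⟩ := signX h0 hunc1 (u := 1) (v := 0) one_ne_zero 1
    have e1 : (1 : KK I) * tt η + 0 = tt η := by ring
    rw [e1] at h4 h5
    have h6 := (hφ _ _ h4 h5).2
    rw [hφt ξ hξ, hφt η hη] at h6
    have e2 : α * tt ξ + β - (α * tt η + β) = α * (tt ξ - tt η) := by ring
    rw [e2, chi_mul h0.sign hα0 (sub_ne_zero.2 h4), h5, mul_one] at h6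
    exact h6
  refine ⟨α, β, hα0, ?_⟩
  intro p
  by_contra hcon
  set p' := (φ p - β) / α with hp'
  have hφp : φ p = α * p' + β := by
    rw [hp']
    field_simp
    ring
  have hpp : p ≠ p' := by
    intro he
    apply hcon
    rw [he, ← hφp, ← he]
  have hu : p - p' ≠ 0 := sub_ne_zero.2 hpp
  have key : ∀ j : KK I, (∀ ξ : I, tt ξ + j ≠ 0) → (∀ ξ : I, tt ξ + j + 1 ≠ 0) →
      (∀ ξ : I, chi χ (tt ξ + j) = chi χ (p - p')) →
      (∀ ξ : I, chi χ (tt ξ + j + 1) = - chi χ (p - p')) → False := by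
    intro j hj1 hj2 hj3 hj4
    obtain ⟨S', _, hunc', h'⟩ := hcomp (p - p') (p + (p - p') * j) hu
    obtain ⟨η, hη⟩ := nonempty_of_unc hunc'
    have h1 := h' η hη
    have e1 : (p - p') * tt η + (p + (p - p') * j) - p = (p - p') * (tt η + j) := by ring
    have hne : (p - p') * tt η + (p + (p - p') * j) ≠ p := by
      rw [← sub_ne_zero, e1]
      exact mul_ne_zero hu (hj1 η)
    have h2 := (hφ _ _ hne (by
      rw [e1, chi_mul h0.sign hu (hj1 η), hj3 η, Int.units_mul_self])).2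
    rw [h1, hφp] at h2
    have e2 : α * ((p - p') * tt η + (p + (p - p') * j)) + β - (α * p' + β) =
        α * ((p - p') * (tt η + j + 1)) := by ring
    rw [e2, chi_mul h0.sign hα0 (mul_ne_zero hu (hj2 η)), chi_mul h0.sign hu (hj2 η), hαs,
      hj4 η, one_mul, mul_neg, Int.units_mul_self] at h2
    exact absurd h2 (by decide)
  have hne0 : ∀ ξ : I, tt ξ + 0 ≠ 0 := by
    intro ξ
    have := tt_add_ne ξ 0
    simpa using this
  have hne1 : ∀ ξ : I, tt ξ + 1 ≠ 0 := by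
    intro ξ
    have := tt_add_ne ξ 1
    simpa using this
  have hne2 : ∀ ξ : I, tt ξ + 1 + 1 ≠ 0 := by
    intro ξ
    have := tt_add_ne ξ 2
    have h2 : tt ξ + 1 + 1 = tt ξ + ((2 : ℚ) : KK I) := by
      push_cast; ring
    rw [h2]
    exact this
  rcases Int.units_eq_one_or (chi χ (p - p')) with hs | hs
  · apply key 0 hne0
    · intro ξ; rw [add_zero]; exact hne1 ξ
    · intro ξ; rw [add_zero, chi_tt h0, hs]
    · intro ξ; rw [add_zero, chi_tt_one h0, hs]
  · apply key 1 hne1 hne2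
    · intro ξ; rw [chi_tt_one h0, hs]
    · intro ξ; rw [chi_tt_two h0, hs, neg_neg]

theorem edgePres_injective {r : I → ℕ → Bool} {D : Finset I → I} {col : I → Code}
    {χ : RR I → ℤˣ} (h0 : Good0 I r D col χ) {φ : KK I → KK I} (hφ : EdgePres χ φ) :
    Function.Injective φ := by
  obtain ⟨α, β, hα, h⟩ := edgePres_affine h0 hφ
  intro x y hxy
  rw [h, h] at hxy
  exact mul_left_cancel₀ hα (add_right_cancel hxy)

end

end Pool.Agent.Helper81.Sync
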