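import Pool.Agent.Helper81.Sync.Field

/-!
Edge-preserving maps are given by Moebius maps on uncountable sets of generators.
-/

set_option autoImplicit false
set_option linter.unusedSectionVars false

namespace Pool.Agent.Helper81.Sync

open MvPolynomial

section

variable {I : Type}

/-- The generator. -/
noncomputable def tt (ξ : I) : KK I := am (X ξ)

/-- `x` does not involve the variable `ξ`. -/
def Ind (ξ : I) (x : KK I) : Prop :=
  ∃ a b : RR I, b ≠ 0 ∧ ξ ∉ a.vars ∧ ξ ∉ b.vars ∧ x = am a / am b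

theorem notMem_vars_mul {ξ : I} {a b : RR I} (ha : ξ ∉ a.vars) (hb : ξ ∉ b.vars) :
    ξ ∉ (a * b).vars := by
  classical
  intro h
  have := vars_mul _ _ h
  rw [Finset.mem_union] at this
  rcases this with h | h
  · exact ha h
  · exact hb h

theorem notMem_vars_add {ξ : I} {a b : RR I} (ha : ξ ∉ a.vars) (hb : ξ ∉ b.vars) :
    ξ ∉ (a + b).vars := by
  classical
  intro h
  have := vars_add_subset _ _ h
  rw [Finset.mem_union] at this
  rcases this with h | h
  · exact ha h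
  · exact hb h

theorem Ind.mul {ξ : I} {x y : KK I} (hx : Ind ξ x) (hy : Ind ξ y) : Ind ξ (x * y) := by
  obtain ⟨a, b, hb, h1, h2, rfl⟩ := hx
  obtain ⟨c, d, hd, h3, h4, rfl⟩ := hy
  refine ⟨a * c, b * d, mul_ne_zero hb hd, notMem_vars_mul h1 h3, notMem_vars_mul h2 h4, ?_⟩
  rw [map_mul, map_mul, div_mul_div_comm]

theorem Ind.add {ξ : I} {x y : KK I} (hx : Ind ξ x) (hy : Ind ξ y) : Ind ξ (x + y) := by
  obtain ⟨a, b, hb, h1, h2, rfl⟩ := hx
  obtain ⟨c, d, hd, h3, h4, rfl⟩ := hy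
  refine ⟨a * d + b * c, b * d, mul_ne_zero hb hd,
    notMem_vars_add (notMem_vars_mul h1 h4) (notMem_vars_mul h2 h3), notMem_vars_mul h2 h4, ?_⟩
  rw [map_add, map_mul, map_mul, map_mul, div_add_div _ _ (am_ne hb) (am_ne hd)]

theorem Ind.neg {ξ : I} {x : KK I} (hx : Ind ξ x) : Ind ξ (-x) := by
  obtain ⟨a, b, hb, h1, h2, rfl⟩ := hx
  refine ⟨-a, b, hb, by rwa [vars_neg], h2, ?_⟩
  rw [map_neg, neg_div]

theorem Ind.inv {ξ : I} {x : KK I} (hx : Ind ξ x) : Ind ξ x⁻¹ := by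
  obtain ⟨a, b, hb, h1, h2, rfl⟩ := hx
  by_cases ha : a = 0
  · subst ha
    exact ⟨0, 1, one_ne_zero, by simp, by simp, by simp⟩
  · exact ⟨b, a, ha, h2, h1, by rw [inv_div]⟩

theorem Ind.sub {ξ : I} {x y : KK I} (hx : Ind ξ x) (hy : Ind ξ y) : Ind ξ (x - y) := by
  rw [sub_eq_add_neg]; exact hx.add hy.neg

theorem Ind.div {ξ : I} {x y : KK I} (hx : Ind ξ x) (hy : Ind ξ y) : Ind ξ (x / y) := by
  rw [div_eq_mul_inv]; exact hx.mul hy.inv

theorem not_ind_tt (ξ : I) : ¬ Ind ξ (tt ξ) := by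
  rintro ⟨a, b, hb, h1, h2, h⟩
  unfold tt at h
  rw [eq_div_iff (am_ne hb), ← map_mul] at h
  have h3 := am_injective h
  apply h1
  rw [← h3, mem_vars_mul (X_ne_zero ξ) hb]
  left
  rw [vars_X]
  exact Finset.mem_singleton_self ξ

theorem dep_of_not_ind {ξ : I} {x : KK I} (h : ¬ Ind ξ x) :
    ξ ∈ (nu x).vars ∨ ξ ∈ (de x).vars := by
  by_contra hcon
  push Not at hcon
  exact h ⟨nu x, de x, de_ne x, hcon.1, hcon.2, (nu_div_de x).symm⟩

theorem finite_not_ind (x : KK I) : {ξ | ¬ Ind ξ x}.Finite := by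
  classical
  refine (Finset.finite_toSet ((nu x).vars ∪ (de x).vars)).subset ?_
  intro ξ hξ
  rw [Finset.mem_coe, Finset.mem_union]
  exact dep_of_not_ind hξ

/-- If `x = (a t + b) / (c t + d)` with non-zero determinant and coefficients free of `t`, then
`x` involves `t`. -/
theorem not_ind_of_moebius {ξ : I} {a b c d x : KK I} (ha : Ind ξ a) (hb : Ind ξ b)
    (hc : Ind ξ c) (hd : Ind ξ d) (hdet : a * d - b * c ≠ 0)
    (h : x * (c * tt ξ + d) = a * tt ξ + b) : ¬ Ind ξ x := by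
  intro hx
  have h1 : (c * x - a) * tt ξ = b - d * x := by linear_combination h
  by_cases h2 : c * x - a = 0
  · rw [h2, zero_mul] at h1
    apply hdet
    have e1 : a = c * x := by linear_combination -h2
    have e2 : b = d * x := by linear_combination -h1
    rw [e1, e2]; ring
  · apply not_ind_tt ξ
    have : tt ξ = (b - d * x) / (c * x - a) := by
      rw [eq_div_iff h2, mul_comm]; exact h1
    rw [this]
    exact (hb.sub (hd.mul hx)).div ((hc.mul hx).sub ha)

end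

section

variable {I : Type} [LinearOrder I] [WellFoundedLT I] [Uncountable I]

theorem relPrime_X_one (ξ : I) : IsRelPrime (X ξ : RR I) 1 := isRelPrime_one_right

theorem am_X_div_one (ξ : I) : am (X ξ : RR I) / am (1 : RR I) = tt ξ := by
  rw [map_one, div_one]; rfl

theorem nn_X (ξ η : I) : nn (X ξ : RR I) 1 (X η) 1 = X ξ - X η := by
  unfold nn; ring

theorem tt_injective : Function.Injective (tt : I → KK I) := by
  intro ξ η h
  exact X_injective (am_injective h)

theorem diff_uncountable {S C : Set I} (hS : ¬ S.Countable) (hC : C.Countable) :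
    ¬ (S \ C).Countable := by
  intro h
  apply hS
  refine (h.union hC).mono ?_
  intro x hx
  by_cases hxC : x ∈ C
  · exact Or.inr hxC
  · exact Or.inl ⟨hx, hxC⟩

theorem nonempty_of_unc {S : Set I} (hS : ¬ S.Countable) : S.Nonempty := by
  by_contra hcon
  rw [Set.not_nonempty_iff_eq_empty] at hcon
  exact hS (hcon ▸ Set.countable_empty)

/-- First step: an edge-preserving function of the generators is given by a Moebius map. -/
theorem moebius1 {r : I → ℕ → Bool} {D : Finset I → I} {col : I → Code} {χ : RR I → ℤˣ}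
    (h0 : Good0 I r D col χ) {S : Set I} (hS : ¬ S.Countable) (y : I → KK I) (s : ℤˣ)
    (hyp : ∀ ξ ∈ S, ∀ η ∈ S, ξ ≠ η → chi χ (tt ξ - tt η) = s →
      y ξ ≠ y η ∧ chi χ (y ξ - y η) = 1) :
    ∃ S' ⊆ S, ¬ S'.Countable ∧ ∃ a b c d : KK I, a * d - b * c ≠ 0 ∧ ∀ ξ ∈ S',
      am (nu (y ξ)) = a * tt ξ + b ∧ am (de (y ξ)) = c * tt ξ + d := by
  classical
  obtain ⟨S', hS', hunc, _, hcases⟩ := gilK h0 (fun ξ => X ξ) (fun _ => 1) (fun ξ => X ξ)
    (fun _ => 1) (fun ξ => nu (y ξ)) (fun ξ => de (y ξ)) (fun ξ => nu (y ξ)) (fun ξ => de (y ξ))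
    hS (fun _ _ => one_ne_zero) (fun _ _ => one_ne_zero) (fun ξ _ => de_ne _)
    (fun ξ _ => de_ne _) (fun ξ _ => relPrime_X_one ξ) (fun ξ _ => relPrime_X_one ξ)
    (fun ξ _ => relPrime_nu_de _) (fun ξ _ => relPrime_nu_de _)
    (fun ξ _ => Or.inl (by rw [vars_X]; exact Finset.mem_singleton_self ξ))
    (fun ξ _ => Or.inl (by rw [vars_X]; exact Finset.mem_singleton_self ξ))
    (Or.inl fun _ _ => ⟨rfl, rfl⟩)
  simp only [am_X_div_one, nu_div_de, nn_X] at hcases
  rcases hcases with h | h | ⟨g, hg, h⟩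
  · exfalso
    obtain ⟨ξ, hξ, η, hη, hne, _, hs, heq⟩ := h s
    exact (hyp ξ (hS' hξ) η (hS' hη) hne hs).1 heq
  · exfalso
    obtain ⟨ξ, hξ, η, hη, hne, _, hs, _, h2⟩ := h s (-1)
    have := (hyp ξ (hS' hξ) η (hS' hη) hne hs).2
    rw [this] at h2
    exact absurd h2 (by decide)
  · obtain ⟨x1, hx1⟩ := nonempty_of_unc hunc
    have hC1 := h x1 hx1
    obtain ⟨x2, ⟨hx2, hx2C⟩⟩ := nonempty_of_unc
      (diff_uncountable hunc (hC1.union (Set.countable_singleton x1)))
    have hC2 := h x2 hx2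
    have hx12 : x1 ≠ x2 := fun he => hx2C (Or.inr he.symm)
    have E12 : am (nn (nu (y x1)) (de (y x1)) (nu (y x2)) (de (y x2))) = g * am (X x1 - X x2) := by
      by_contra hc
      exact hx2C (Or.inl ⟨hx2, hc⟩)
    have hn : ∀ a b a' b' : RR I, am (nn a b a' b') = am a * am b' - am b * am a' := by
      intro a b a' b'
      unfold nn
      rw [map_sub, map_mul, map_mul]
    have hXX : ∀ u v : I, am (X u - X v : RR I) = tt u - tt v := by
      intro u v
      rw [map_sub]; rfl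
    rw [hn, hXX] at E12
    set P1 := am (nu (y x1)) with hP1
    set Q1 := am (de (y x1)) with hQ1
    set P2 := am (nu (y x2)) with hP2
    set Q2 := am (de (y x2)) with hQ2
    have ht : tt x1 - tt x2 ≠ 0 := sub_ne_zero.2 (fun he => hx12 (tt_injective he))
    refine ⟨S' \ (_ ∪ _), fun ξ hξ => hS' hξ.1, diff_uncountable hunc (hC1.union hC2),
      (P1 - P2) / (tt x1 - tt x2), (tt x1 * P2 - tt x2 * P1) / (tt x1 - tt x2),
      (Q1 - Q2) / (tt x1 - tt x2), (tt x1 * Q2 - tt x2 * Q1) / (tt x1 - tt x2), ?_, ?_⟩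
    · have : (P1 - P2) / (tt x1 - tt x2) * ((tt x1 * Q2 - tt x2 * Q1) / (tt x1 - tt x2)) -
          (tt x1 * P2 - tt x2 * P1) / (tt x1 - tt x2) * ((Q1 - Q2) / (tt x1 - tt x2)) = g := by
        field_simp
        linear_combination (tt x1 - tt x2) * E12
      rw [this]
      exact hg
    · rintro ξ ⟨hξ, hξC⟩
      have E1 : am (nn (nu (y x1)) (de (y x1)) (nu (y ξ)) (de (y ξ))) = g * am (X x1 - X ξ) := by
        by_contra hc
        exact hξC (Or.inl ⟨hξ, hc⟩)
      have E2 : am (nn (nu (y x2)) (de (y x2)) (nu (y ξ)) (de (y ξ))) = g * am (X x2 - X ξ) := by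
        by_contra hc
        exact hξC (Or.inr ⟨hξ, hc⟩)
      rw [hn, hXX, ← hP1, ← hQ1] at E1
      rw [hn, hXX, ← hP2, ← hQ2] at E2
      constructor
      · rw [div_mul_eq_mul_div, ← add_div, eq_div_iff ht]
        apply mul_left_cancel₀ hg
        linear_combination P2 * E1 - P1 * E2 - am (nu (y ξ)) * E12
      · rw [div_mul_eq_mul_div, ← add_div, eq_div_iff ht]
        apply mul_left_cancel₀ hg
        linear_combination Q2 * E1 - Q1 * E2 - am (de (y ξ)) * E12

/-- Second step: two families of images are given by the same Moebius map. -/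
theorem moebius2 {r : I → ℕ → Bool} {D : Finset I → I} {col : I → Code} {χ : RR I → ℤˣ}
    (h0 : Good0 I r D col χ) {S : Set I} (hS : ¬ S.Countable) (y y' : I → KK I)
    {a b c d a' b' c' d' u v : KK I} (hdet : a * d - b * c ≠ 0) (hdet' : a' * d' - b' * c' ≠ 0)
    (hu : u ≠ 0)
    (hy : ∀ ξ ∈ S, am (nu (y ξ)) = a * tt ξ + b ∧ am (de (y ξ)) = c * tt ξ + d)
    (hy' : ∀ ξ ∈ S, am (nu (y' ξ)) = a' * tt ξ + b' ∧ am (de (y' ξ)) = c' * tt ξ + d')
    (hyp : ∀ ξ ∈ S, ∀ η ∈ S, ξ ≠ η → tt ξ ≠ u * tt η + v →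
      chi χ (tt ξ - (u * tt η + v)) = 1 → y ξ ≠ y' η ∧ chi χ (y ξ - y' η) = 1) :
    ∃ S' ⊆ S, ¬ S'.Countable ∧ ∀ η ∈ S',
      c * (u * tt η + v) + d ≠ 0 ∧ y' η * (c * (u * tt η + v) + d) = a * (u * tt η + v) + b := by
  classical
  -- remove the indices involved in the constants
  have hfin : (⋃ k ∈ ({a, b, c, d, a', b', c', d', u, v} : Set (KK I)),
      {ξ | ¬ Ind ξ k}).Countable := by
    refine Set.Countable.biUnion (Set.Finite.countable (by simp)) (fun k _ => ?_)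
    exact (finite_not_ind k).countable
  set S0 := S \ (⋃ k ∈ ({a, b, c, d, a', b', c', d', u, v} : Set (KK I)),
      {ξ | ¬ Ind ξ k}) with hS0
  have hS0c : ¬ S0.Countable := diff_uncountable hS hfin
  have hind : ∀ ξ ∈ S0, ∀ k ∈ ({a, b, c, d, a', b', c', d', u, v} : Set (KK I)), Ind ξ k := by
    intro ξ hξ k hk
    by_contra hc
    apply hξ.2
    simp only [Set.mem_iUnion]
    exact ⟨k, hk, hc⟩
  have hmul : ∀ (y : I → KK I) (a b c d : KK I) (ξ : I),
      am (nu (y ξ)) = a * tt ξ + b ∧ am (de (y ξ)) = c * tt ξ + d →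
      y ξ * (c * tt ξ + d) = a * tt ξ + b := by
    intro y a b c d ξ h
    rw [← h.1, ← h.2]
    have := nu_div_de (y ξ)
    rw [div_eq_iff (am_ne (de_ne _))] at this
    exact this.symm
  obtain ⟨S', hS', hunc, _, hcases⟩ := gilK h0 (fun ξ => X ξ) (fun _ => 1)
    (fun ξ => nu (u * tt ξ + v)) (fun ξ => de (u * tt ξ + v))
    (fun ξ => nu (y ξ)) (fun ξ => de (y ξ)) (fun ξ => nu (y' ξ)) (fun ξ => de (y' ξ))
    hS0c (fun _ _ => one_ne_zero) (fun _ _ => de_ne _) (fun ξ _ => de_ne _)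
    (fun ξ _ => de_ne _) (fun ξ _ => relPrime_X_one ξ) (fun ξ _ => relPrime_nu_de _)
    (fun ξ _ => relPrime_nu_de _) (fun ξ _ => relPrime_nu_de _)
    (fun ξ _ => Or.inl (by rw [vars_X]; exact Finset.mem_singleton_self ξ))
    (fun ξ hξ => dep_of_not_ind (not_ind_of_moebius (a := u) (b := v) (c := 0) (d := 1)
      (hind ξ hξ u (by simp)) (hind ξ hξ v (by simp))
      ⟨0, 1, one_ne_zero, by simp, by simp, by simp⟩ ⟨1, 1, one_ne_zero, by simp, by simp, by simp⟩
      (by simpa using hu) (by ring)))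
    (Or.inr fun ξ hξ => ⟨dep_of_not_ind (not_ind_of_moebius (hind ξ hξ a (by simp))
      (hind ξ hξ b (by simp)) (hind ξ hξ c (by simp)) (hind ξ hξ d (by simp)) hdet
      (hmul y a b c d ξ (hy ξ hξ.1))),
      dep_of_not_ind (not_ind_of_moebius (hind ξ hξ a' (by simp))
      (hind ξ hξ b' (by simp)) (hind ξ hξ c' (by simp)) (hind ξ hξ d' (by simp)) hdet'
      (hmul y' a' b' c' d' ξ (hy' ξ hξ.1)))⟩)
  simp only [am_X_div_one, nu_div_de] at hcases
  have hSS : ∀ ξ ∈ S', ξ ∈ S := fun ξ hξ => (hS' hξ).1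
  rcases hcases with h | h | ⟨g, hg, h⟩
  · exfalso
    obtain ⟨ξ, hξ, η, hη, hne, h1, hs, heq⟩ := h 1
    exact (hyp ξ (hSS ξ hξ) η (hSS η hη) hne h1 hs).1 heq
  · exfalso
    obtain ⟨ξ, hξ, η, hη, hne, h1, hs, _, h2⟩ := h 1 (-1)
    have := (hyp ξ (hSS ξ hξ) η (hSS η hη) hne h1 hs).2
    rw [this] at h2
    exact absurd h2 (by decide)
  · obtain ⟨x1, hx1⟩ := nonempty_of_unc hunc
    have hC1 := h x1 hx1
    obtain ⟨x2, ⟨hx2, hx2C⟩⟩ := nonempty_of_unc
      (diff_uncountable hunc (Set.countable_singleton x1))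
    have hC2 := h x2 hx2
    have hx12 : x1 ≠ x2 := fun he => hx2C he.symm
    have ht : tt x1 - tt x2 ≠ 0 := sub_ne_zero.2 (fun he => hx12 (tt_injective he))
    refine ⟨S' \ (_ ∪ _), fun ξ hξ => hSS ξ hξ.1, diff_uncountable hunc (hC1.union hC2), ?_⟩
    rintro η ⟨hη, hηC⟩
    have E1 : am (nn (nu (y x1)) (de (y x1)) (nu (y' η)) (de (y' η))) =
        g * am (nn (X x1) 1 (nu (u * tt η + v)) (de (u * tt η + v))) := by
      by_contra hc
      exact hηC (Or.inl ⟨hη, hc⟩)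
    have E2 : am (nn (nu (y x2)) (de (y x2)) (nu (y' η)) (de (y' η))) =
        g * am (nn (X x2) 1 (nu (u * tt η + v)) (de (u * tt η + v))) := by
      by_contra hc
      exact hηC (Or.inr ⟨hη, hc⟩)
    have hn : ∀ a b a' b' : RR I, am (nn a b a' b') = am a * am b' - am b * am a' := by
      intro a b a' b'
      unfold nn
      rw [map_sub, map_mul, map_mul]
    have hX : ∀ ξ : I, am (X ξ : RR I) = tt ξ := fun _ => rfl
    have hxx := nu_div_de (u * tt η + v)
    have hyy := nu_div_de (y' η)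
    rw [hn, hn, hX, map_one, (hy x1 (hSS x1 hx1)).1, (hy x1 (hSS x1 hx1)).2] at E1
    rw [hn, hn, hX, map_one, (hy x2 (hSS x2 hx2)).1, (hy x2 (hSS x2 hx2)).2] at E2
    have hB0 : am (de (u * tt η + v)) ≠ 0 := am_ne (de_ne _)
    have hQ0 : am (de (y' η)) ≠ 0 := am_ne (de_ne _)
    generalize am (nu (u * tt η + v)) = A' at *
    generalize am (de (u * tt η + v)) = B' at *
    generalize am (nu (y' η)) = P' at *
    generalize am (de (y' η)) = Q' at *
    have F1 : a * Q' - c * P' = g * B' := by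
      apply mul_left_cancel₀ ht
      linear_combination E1 - E2
    have F2 : b * Q' - d * P' = -(g * A') := by
      linear_combination E1 - tt x1 * F1
    have G1 : (a * d - b * c) * P' = g * (a * A' + b * B') := by
      linear_combination b * F1 - a * F2
    have G2 : (a * d - b * c) * Q' = g * (c * A' + d * B') := by
      linear_combination d * F1 - c * F2
    rw [← hxx, ← hyy]
    have hne : c * A' + d * B' ≠ 0 := by
      intro h0
      rw [h0, mul_zero] at G2
      rcases mul_eq_zero.1 G2 with h | h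
      · exact hdet h
      · exact hQ0 h
    have e1 : c * (A' / B') + d = (c * A' + d * B') / B' := by
      field_simp
    have e2 : a * (A' / B') + b = (a * A' + b * B') / B' := by
      field_simp
    rw [e1, e2]
    refine ⟨div_ne_zero hne hB0, ?_⟩
    rw [div_mul_div_comm, div_eq_div_iff (mul_ne_zero hQ0 hB0) hB0]
    apply mul_left_cancel₀ hg
    linear_combination (- P' * B') * G2 + (Q' * B') * G1

/-- Sign control for `t_ξ - (u t_η + v)`. -/
theorem signX {r : I → ℕ → Bool} {D : Finset I → I} {col : I → Code} {χ : RR I → ℤˣ}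
    (h0 : Good0 I r D col χ) {S : Set I} (hS : ¬ S.Countable) {u v : KK I} (hu : u ≠ 0)
    (s : ℤˣ) : ∃ ξ ∈ S, ∃ η ∈ S, ξ ≠ η ∧ tt ξ ≠ u * tt η + v ∧
        chi χ (tt ξ - (u * tt η + v)) = s := by
  classical
  have hfin : (⋃ k ∈ ({u, v} : Set (KK I)), {ξ | ¬ Ind ξ k}).Countable := by
    refine Set.Countable.biUnion (Set.Finite.countable (by simp)) (fun k _ => ?_)
    exact (finite_not_ind k).countable
  set S0 := S \ (⋃ k ∈ ({u, v} : Set (KK I)), {ξ | ¬ Ind ξ k}) with hS0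
  have hS0c : ¬ S0.Countable := diff_uncountable hS hfin
  have hind : ∀ ξ ∈ S0, ∀ k ∈ ({u, v} : Set (KK I)), Ind ξ k := by
    intro ξ hξ k hk
    by_contra hc
    apply hξ.2
    simp only [Set.mem_iUnion]
    exact ⟨k, hk, hc⟩
  obtain ⟨S', hS', hunc, hX, _⟩ := gilK h0 (fun ξ => X ξ) (fun _ => 1)
    (fun ξ => nu (u * tt ξ + v)) (fun ξ => de (u * tt ξ + v))
    (fun ξ => X ξ) (fun _ => 1) (fun ξ => X ξ) (fun _ => 1)
    hS0c (fun _ _ => one_ne_zero) (fun _ _ => de_ne _) (fun _ _ => one_ne_zero)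
    (fun _ _ => one_ne_zero) (fun ξ _ => relPrime_X_one ξ) (fun ξ _ => relPrime_nu_de _)
    (fun ξ _ => relPrime_X_one ξ) (fun ξ _ => relPrime_X_one ξ)
    (fun ξ _ => Or.inl (by rw [vars_X]; exact Finset.mem_singleton_self ξ))
    (fun ξ hξ => dep_of_not_ind (not_ind_of_moebius (a := u) (b := v) (c := 0) (d := 1)
      (hind ξ hξ u (by simp)) (hind ξ hξ v (by simp))
      ⟨0, 1, one_ne_zero, by simp, by simp, by simp⟩ ⟨1, 1, one_ne_zero, by simp, by simp, by simp⟩
      (by simpa using hu) (by ring)))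
    (Or.inl fun ξ _ => ⟨rfl, rfl⟩)
  obtain ⟨ξ, hξ, η, hη, hne, h1, h2⟩ := hX s
  simp only [am_X_div_one, nu_div_de] at h1 h2
  exact ⟨ξ, (hS' hξ).1, η, (hS' hη).1, hne, h1, h2⟩

end

end Pool.Agent.Helper81.Sync
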