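import Pool.Agent.Helper81.Sync.Ctrl

/-!
Uniformisation of families, and goodness of the cross differences.
-/

set_option autoImplicit false
set_option linter.unusedSectionVars false

namespace Pool.Agent.Helper81.Sync

open MvPolynomial

section

variable {σ τ : Type}

theorem isRelPrime_rename_iff {s : σ → τ} (hs : Function.Injective s)
    {p q : MvPolynomial σ ℚ} : IsRelPrime (rename s p) (rename s q) ↔ IsRelPrime p q := by
  constructor
  · intro h d hp hq
    rw [← isUnit_rename_iff hs]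
    exact h (map_dvd _ hp) (map_dvd _ hq)
  · intro h d hp hq
    have key : ∀ d' : MvPolynomial σ ℚ, rename s d' ∣ rename s p → rename s d' ∣ rename s q →
        IsUnit (rename s d') := by
      intro d' h1 h2
      rw [isUnit_rename_iff hs]
      apply h
      · have := map_dvd (killCompl hs) h1
        rwa [killCompl_rename_app, killCompl_rename_app] at this
      · have := map_dvd (killCompl hs) h2
        rwa [killCompl_rename_app, killCompl_rename_app] at this
    by_cases hp0 : p = 0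
    · by_cases hq0 : q = 0
      · subst hp0; subst hq0
        have := h (dvd_refl 0) (dvd_refl 0)
        simp at this
      · obtain ⟨d', rfl⟩ := exists_of_dvd_rename hs hq0 hq
        exact key d' hp hq
    · obtain ⟨d', rfl⟩ := exists_of_dvd_rename hs hp0 hp
      exact key d' hp hq

end

section

variable {n : ℕ} {J : Set (Fin n)}

theorem lo_injective : Function.Injective (lo J) := by
  intro i j h
  have := congrArg (fun p => p.1.1) h
  exact this

theorem nh_fst (i : Fin n) : (nh J i).1.1 = i := by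
  unfold nh
  split_ifs
  · rfl
  · rfl

theorem nh_injective : Function.Injective (nh J) := by
  intro i j h
  rw [← nh_fst (J := J) i, ← nh_fst (J := J) j, h]

/-- The cross difference of two fractions, in the abstract variables. -/
noncomputable def cr (J : Set (Fin n)) (P Q P' Q' : MvPolynomial (Fin n) ℚ) :
    MvPolynomial (VV n J) ℚ :=
  rename (lo J) P * rename (nh J) Q' - rename (lo J) Q * rename (nh J) P'

theorem setup_cr {P Q P' Q' : MvPolynomial (Fin n) ℚ} (h : IsRelPrime P Q)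
    (h' : IsRelPrime P' Q') : Setup (LoS n J) (HiS n J) (rename (lo J) P) (rename (lo J) Q)
      (rename (nh J) P') (rename (nh J) Q') := by
  have a1 : ∀ p : MvPolynomial (Fin n) ℚ, ∀ j ∈ HiS n J, j ∉ (rename (lo J) p).vars := by
    intro p j hj hc
    obtain ⟨i, _, rfl⟩ := mem_vars_rename _ _ hc
    have hj' : (lo J i).1.2 = true := hj
    simp [lo] at hj'
  have a2 : ∀ p : MvPolynomial (Fin n) ℚ, ∀ i ∈ LoS n J, i ∉ (rename (nh J) p).vars := by
    intro p j hj hc
    obtain ⟨i, _, rfl⟩ := mem_vars_rename _ _ hc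
    have hj' : (nh J i).1.2 = false ∧ (nh J i).1.1 ∉ J := hj
    unfold nh at hj'
    split_ifs at hj' with hiJ
    · exact hj'.2 hiJ
    · exact absurd hj'.1 (by simp [hi])
  exact ⟨(isRelPrime_rename_iff lo_injective).2 h, (isRelPrime_rename_iff nh_injective).2 h',
    a1 P, a1 Q, a2 P', a2 Q'⟩

theorem good_cr {P Q P' Q' : MvPolynomial (Fin n) ℚ} (h : IsRelPrime P Q)
    (h' : IsRelPrime P' Q') {i : Fin n} (hi0 : i ∉ J) (hP : i ∈ P.vars ∨ i ∈ Q.vars)
    (hP' : i ∈ P'.vars ∨ i ∈ Q'.vars) : Good n J (cr J P Q P' Q') := by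
  have hs := setup_cr (J := J) h h'
  have hlo : lo J i ∈ LoS n J := ⟨rfl, hi0⟩
  have hhi : hi i hi0 ∈ HiS n J := rfl
  have e1 : lo J i ∈ (rename (lo J) P).vars ∨ lo J i ∈ (rename (lo J) Q).vars := by
    rw [mem_vars_rename_iff lo_injective, mem_vars_rename_iff lo_injective]
    exact hP
  have hnh : nh J i = hi i hi0 := by
    unfold nh
    rw [dif_neg hi0]
  have e2 : hi i hi0 ∈ (rename (nh J) P').vars ∨ hi i hi0 ∈ (rename (nh J) Q').vars := by
    rw [← hnh, mem_vars_rename_iff nh_injective, mem_vars_rename_iff nh_injective]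
    exact hP'
  obtain ⟨h1, h2⟩ := hs.exists_factor hlo e1 hhi e2
  refine ⟨h1, ?_, ?_, h2⟩
  · intro f hf hfN hfr
    exact ⟨i, hi0, hs.low_mem hf hfN hfr hlo e1 hhi e2, hs.high_mem hf hfN hfr hlo e1 hhi e2⟩
  · intro f hf hfr
    exact hs.sq_not_dvd hf hfr hlo e1 hhi e2

end

/-! ### Uniformisation -/

section

variable {I : Type}

theorem pigeon {C : Type} [Countable C] {S : Set I} (hS : ¬ S.Countable) (f : I → C) :
    ∃ c, ¬ {ξ ∈ S | f ξ = c}.Countable := by
  by_contra hcon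
  push Not at hcon
  apply hS
  refine (Set.countable_iUnion hcon).mono ?_
  intro ξ hξ
  exact Set.mem_iUnion.2 ⟨f ξ, hξ, rfl⟩

theorem split_root {n : ℕ} {S : Set I} (hS : ¬ S.Countable) (ι : I → Fin n → I)
    (T : Finset (Fin n)) : ∃ S' ⊆ S, ¬ S'.Countable ∧ ∀ i ∈ T,
      (∀ ξ ∈ S', ∀ η ∈ S', ι ξ i = ι η i) ∨ (∀ v, {ξ ∈ S' | ι ξ i = v}.Countable) := by
  classical
  induction T using Finset.induction_on with
  | empty => exact ⟨S, subset_rfl, hS, by simp⟩
  | insert j T hj ih =>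
    obtain ⟨S', hS', hunc, hT⟩ := ih
    by_cases h : ∀ v, {ξ ∈ S' | ι ξ j = v}.Countable
    · refine ⟨S', hS', hunc, ?_⟩
      intro i hi
      rcases Finset.mem_insert.1 hi with rfl | hi
      · exact Or.inr h
      · exact hT i hi
    · push Not at h
      obtain ⟨v, hv⟩ := h
      refine ⟨{ξ ∈ S' | ι ξ j = v}, fun ξ hξ => hS' hξ.1, hv, ?_⟩
      intro i hi
      rcases Finset.mem_insert.1 hi with rfl | hi
      · left
        intro ξ hξ η hη
        rw [hξ.2, hη.2]
      · rcases hT i hi with h1 | h1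
        · left
          intro ξ hξ η hη
          exact h1 ξ hξ.1 η hη.1
        · right
          intro w
          refine (h1 w).mono ?_
          rintro ξ ⟨⟨h2, _⟩, h3⟩
          exact ⟨h2, h3⟩

theorem exists_root {n : ℕ} {S : Set I} (hS : ¬ S.Countable) (ι : I → Fin n → I) :
    ∃ S' ⊆ S, ¬ S'.Countable ∧ ∃ J : Set (Fin n), (∀ ξ ∈ S', ∀ η ∈ S', ∀ i ∈ J, ι ξ i = ι η i) ∧
      (∀ i ∉ J, ∀ v, {ξ ∈ S' | ι ξ i = v}.Countable) := by
  obtain ⟨S', hS', hunc, h⟩ := split_root hS ι Finset.univ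
  refine ⟨S', hS', hunc, {i | ∀ ξ ∈ S', ∀ η ∈ S', ι ξ i = ι η i}, ?_, ?_⟩
  · intro ξ hξ η hη i hi
    exact hi ξ hξ η hη
  · intro i hi
    rcases h i (Finset.mem_univ _) with h1 | h1
    · exact absurd h1 hi
    · exact h1

variable [LinearOrder I] [WellFoundedLT I] [Uncountable I]

theorem exists_level (r : I → ℕ → Bool) (hr : Function.Injective r) (z : Finset I) :
    ∃ m, ∀ a ∈ z, ∀ b ∈ z, lab r m a = lab r m b → a = b := by
  classical
  have h : ∀ p : I × I, ∃ k, p.1 ≠ p.2 → r p.1 k ≠ r p.2 k := by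
    intro p
    by_cases hp : p.1 = p.2
    · exact ⟨0, fun h => absurd hp h⟩
    · by_contra hcon
      push Not at hcon
      exact hp (hr (funext fun k => (hcon k).2))
  choose k hk using h
  refine ⟨(z ×ˢ z).sup k + 1, ?_⟩
  intro a ha b hb hab
  by_contra hne
  rw [lab_eq_iff] at hab
  have hle : k (a, b) ≤ (z ×ˢ z).sup k :=
    Finset.le_sup (f := k) (Finset.mem_product.2 ⟨ha, hb⟩)
  exact hk (a, b) hne (hab _ (Nat.lt_succ_of_le hle))

theorem uniformize (r : I → ℕ → Bool) (hr : Function.Injective r) {k : ℕ}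
    (F : I → Fin k → MvPolynomial I ℚ) {S : Set I} (hS : ¬ S.Countable) :
    ∃ S' ⊆ S, ∃ (n : ℕ) (ι : I → Fin n → I) (J : Set (Fin n)) (m : ℕ) (l : Fin n → List Bool),
      Fam r S' n ι J m l ∧ (∀ ξ ∈ S', Function.Injective (ι ξ)) ∧
      ∃ (G : Fin k → MvPolynomial (Fin n) ℚ) (i₀ : Fin n),
        ∀ ξ ∈ S', ι ξ i₀ = ξ ∧ ∀ j, F ξ j = rename (ι ξ) (G j) := by
  classical
  let z : I → Finset I := fun ξ => insert ξ (Finset.univ.biUnion fun j => (F ξ j).vars)
  obtain ⟨n, hn⟩ := pigeon hS (fun ξ => (z ξ).card)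
  have h1 : ∀ ξ : I, ∃ ι : Fin n → I, ((z ξ).card = n → Function.Injective ι ∧
      ∀ v, v ∈ z ξ ↔ ∃ i, ι i = v) := by
    intro ξ
    by_cases h : (z ξ).card = n
    · refine ⟨fun i => ((z ξ).equivFinOfCardEq h).symm i, fun _ => ⟨?_, ?_⟩⟩
      · intro i j hij
        exact ((z ξ).equivFinOfCardEq h).symm.injective (Subtype.ext hij)
      · intro v
        constructor
        · intro hv
          exact ⟨(z ξ).equivFinOfCardEq h ⟨v, hv⟩, by simp⟩
        · rintro ⟨i, rfl⟩
          exact (((z ξ).equivFinOfCardEq h).symm i).2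
    · exact ⟨fun _ => Classical.arbitrary I, fun h' => absurd h' h⟩
  choose ι hι using h1
  have h2 : ∀ ξ : I, ∃ (G : Fin k → MvPolynomial (Fin n) ℚ), ((z ξ).card = n →
      ∀ j, rename (ι ξ) (G j) = F ξ j) := by
    intro ξ
    by_cases h : (z ξ).card = n
    · have h3 : ∀ j, ∃ g, rename (ι ξ) g = F ξ j := by
        intro j
        apply exists_rename_eq_of_vars_subset_range _ _ (hι ξ h).1
        intro v hv
        have hv' : v ∈ z ξ := Finset.mem_insert_of_mem
          (Finset.mem_biUnion.2 ⟨j, Finset.mem_univ _, hv⟩)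
        exact ((hι ξ h).2 v).1 hv'
      choose G hG using h3
      exact ⟨G, fun _ => hG⟩
    · exact ⟨fun _ => 0, fun h' => absurd h' h⟩
  choose G hG using h2
  have h3 : ∀ ξ : I, ∃ i : Option (Fin n), ((z ξ).card = n → ∃ i', i = some i' ∧ ι ξ i' = ξ) := by
    intro ξ
    by_cases h : (z ξ).card = n
    · obtain ⟨i, hi⟩ := ((hι ξ h).2 ξ).1 (Finset.mem_insert_self _ _)
      exact ⟨some i, fun _ => ⟨i, rfl, hi⟩⟩
    · exact ⟨none, fun h' => absurd h' h⟩
  choose i₀ hi₀ using h3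
  have h4 : ∀ ξ : I, ∃ m, ∀ a ∈ z ξ, ∀ b ∈ z ξ, lab r m a = lab r m b → a = b :=
    fun ξ => exists_level r hr (z ξ)
  choose m hm using h4
  have : Countable (MvPolynomial (Fin n) ℚ) := countable_mvPolynomial _
  obtain ⟨c, hc⟩ := pigeon hn (C := (Fin k → MvPolynomial (Fin n) ℚ) × Option (Fin n) × ℕ ×
    (Fin n → List Bool)) (fun ξ => (G ξ, i₀ ξ, m ξ, fun i => lab r (m ξ) (ι ξ i)))
  obtain ⟨S', hS', hunc, J, hroot, hfree⟩ := exists_root hc ι
  obtain ⟨ξ1, hξ1⟩ : S'.Nonempty := by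
    by_contra hcon
    rw [Set.not_nonempty_iff_eq_empty] at hcon
    exact hunc (hcon ▸ Set.countable_empty)
  obtain ⟨⟨hξ1S, hξ1n⟩, hξ1c⟩ := hS' hξ1
  obtain ⟨i', hi', hii'⟩ := hi₀ ξ1 hξ1n
  refine ⟨S', fun ξ hξ => (hS' hξ).1.1, n, ι, J, m ξ1, fun i => lab r (m ξ1) (ι ξ1 i), ?_, ?_,
    G ξ1, i', ?_⟩
  · refine ⟨hunc, ?_, ?_, hroot, hfree⟩
    · intro i j hij
      apply (hι ξ1 hξ1n).1
      exact hm ξ1 _ (((hι ξ1 hξ1n).2 _).2 ⟨i, rfl⟩) _ (((hι ξ1 hξ1n).2 _).2 ⟨j, rfl⟩) hij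
    · intro ξ hξ i
      obtain ⟨⟨hξS, hξn⟩, hξc⟩ := hS' hξ
      have hcc := hξc.trans hξ1c.symm
      simp only [Prod.mk.injEq] at hcc
      have h5 := congrFun hcc.2.2.2 i
      rw [← h5, hcc.2.2.1]
  · intro ξ hξ
    exact (hι ξ (hS' hξ).1.2).1
  · intro ξ hξ
    obtain ⟨⟨hξS, hξn⟩, hξc⟩ := hS' hξ
    have hcc := hξc.trans hξ1c.symm
    simp only [Prod.mk.injEq] at hcc
    obtain ⟨i'', hi'', hii''⟩ := hi₀ ξ hξn
    have h6 : i'' = i' := by
      have : some i'' = some i' := by rw [← hi'', ← hi', hcc.2.1]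
      exact Option.some_injective _ this
    refine ⟨by rw [← h6]; exact hii'', ?_⟩
    intro j
    rw [← hcc.1]
    exact (hG ξ hξn j).symm

end

end Pool.Agent.Helper81.Sync
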